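import Mathlib

set_option autoImplicit false

open Filter Topology

namespace Pool.Agent.W92_MP_94b3e1_an

open Classical in
/-- number of visits of `z` to `U` in the time window `[m, m + N)` -/
noncomputable def cnt {Z : Type*} (S : Z → Z) (z : Z) (U : Set Z) (m N : ℕ) : ℕ :=
  ((Finset.range N).filter (fun i => S^[m + i] z ∈ U)).card

/-- for each length `N` there is a window of length `N` in which `z` visits `U` with frequency at
least `δ` -/
def Win {Z : Type*} (S : Z → Z) (z : Z) (U : Set Z) (δ : ℝ) : Prop :=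
  ∀ N : ℕ, ∃ m : ℕ, δ * N ≤ cnt S z U m N

/-- reiterative recurrence of a point -/
def RRp {Z : Type*} [TopologicalSpace Z] (S : Z → Z) (z : Z) : Prop :=
  ∀ U ∈ 𝓝 z, ∃ δ : ℝ, 0 < δ ∧ Win S z U δ

lemma cnt_mono {Z : Type*} (S : Z → Z) (z : Z) {U U' : Set Z} (h : U ⊆ U') (m N : ℕ) :
    cnt S z U m N ≤ cnt S z U' m N := by
  classical
  unfold cnt
  apply Finset.card_le_card
  intro i hi
  rw [Finset.mem_filter] at hi ⊢
  exact ⟨hi.1, h hi.2⟩

lemma le_cnt {Z : Type*} (S : Z → Z) (z : Z) (U : Set Z) (m N : ℕ) (I : Finset ℕ)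
    (h : ∀ i ∈ I, i < N ∧ S^[m + i] z ∈ U) : I.card ≤ cnt S z U m N := by
  classical
  unfold cnt
  apply Finset.card_le_card
  intro i hi
  rw [Finset.mem_filter, Finset.mem_range]
  exact h i hi

lemma cnt_le {Z : Type*} (S : Z → Z) (z : Z) (U : Set Z) (m N : ℕ) : cnt S z U m N ≤ N := by
  classical
  unfold cnt
  exact (Finset.card_filter_le _ _).trans (by simp)

lemma cnt_congr {Z Z' : Type*} (S : Z → Z) (S' : Z' → Z') (z : Z) (z' : Z') (U : Set Z)
    (U' : Set Z') (m m' N : ℕ) (h : ∀ i < N, (S^[m + i] z ∈ U ↔ S'^[m' + i] z' ∈ U')) :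
    cnt S z U m N = cnt S' z' U' m' N := by
  classical
  unfold cnt
  congr 1
  apply Finset.filter_congr
  intro i hi
  exact h i (Finset.mem_range.1 hi)

lemma cnt_add {Z : Type*} (S : Z → Z) (z : Z) (U : Set Z) (m N N' : ℕ) :
    cnt S z U m (N + N') = cnt S z U m N + cnt S z U (m + N) N' := by
  classical
  unfold cnt
  rw [Finset.card_filter, Finset.card_filter, Finset.card_filter, Finset.sum_range_add]
  simp only [add_assoc]

lemma cnt_iter {Z : Type*} (S : Z → Z) (z : Z) (U : Set Z) (a m N : ℕ) :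
    cnt S (S^[a] z) U m N = cnt S z U (a + m) N := by
  apply cnt_congr
  intro i _
  rw [← Function.iterate_add_apply]
  have : m + i + a = a + m + i := by ring
  rw [this]

lemma cnt_map {Z Z' : Type*} (S : Z → Z) (S' : Z' → Z') (φ : Z → Z') (h : ∀ z, φ (S z) = S' (φ z))
    (z : Z) (U : Set Z') (m N : ℕ) : cnt S' (φ z) U m N = cnt S z (φ ⁻¹' U) m N := by
  apply cnt_congr
  intro i _
  have h2 : ∀ n, S'^[n] (φ z) = φ (S^[n] z) := by
    intro n
    induction n with
    | zero => rfl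
    | succ n ih => rw [Function.iterate_succ_apply', Function.iterate_succ_apply', ih, h]
  rw [h2]; rfl

lemma Win.mono {Z : Type*} {S : Z → Z} {z : Z} {U U' : Set Z} {δ δ' : ℝ} (h : Win S z U δ)
    (hU : U ⊆ U') (hδ : δ' ≤ δ) : Win S z U' δ' := by
  intro N
  obtain ⟨m, hm⟩ := h N
  refine ⟨m, ?_⟩
  have h1 : (cnt S z U m N : ℝ) ≤ cnt S z U' m N := by exact_mod_cast cnt_mono S z hU m N
  have h2 : δ' * N ≤ δ * N := mul_le_mul_of_nonneg_right hδ (Nat.cast_nonneg _)
  linarith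

lemma win_zero {Z : Type*} (S : Z → Z) (z : Z) (U : Set Z) : Win S z U 0 := by
  intro N
  exact ⟨0, by simp⟩

lemma Win.map {Z Z' : Type*} {S : Z → Z} {S' : Z' → Z'} (φ : Z → Z') (h : ∀ z, φ (S z) = S' (φ z))
    {z : Z} {U : Set Z'} {δ : ℝ} : Win S z (φ ⁻¹' U) δ ↔ Win S' (φ z) U δ := by
  unfold Win
  simp only [cnt_map S S' φ h]

lemma RRp.map {Z Z' : Type*} [TopologicalSpace Z] [TopologicalSpace Z'] {S : Z → Z} {S' : Z' → Z'}
    (φ : Z → Z') (hφ : Continuous φ) (h : ∀ z, φ (S z) = S' (φ z)) {z : Z} (hz : RRp S z) :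
    RRp S' (φ z) := by
  intro U hU
  obtain ⟨δ, hδ, hw⟩ := hz (φ ⁻¹' U) (hφ.continuousAt hU)
  exact ⟨δ, hδ, (Win.map φ h).1 hw⟩

lemma isOpen_cnt {Z : Type*} [TopologicalSpace Z] {S : Z → Z} (hS : Continuous S) {U : Set Z}
    (hU : IsOpen U) (m N : ℕ) (c : ℝ) : IsOpen {z | c ≤ cnt S z U m N} := by
  classical
  rw [isOpen_iff_mem_nhds]
  intro z hz
  have h1 : ∀ i ∈ (Finset.range N).filter (fun i => S^[m + i] z ∈ U),
      ∀ᶠ z' in 𝓝 z, S^[m + i] z' ∈ U := by
    intro i hi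
    rw [Finset.mem_filter] at hi
    exact (hS.iterate (m + i)).continuousAt (hU.mem_nhds hi.2)
  have h2 := (Filter.eventually_all_finset _).2 h1
  filter_upwards [h2] with z' hz'
  have h3 : cnt S z U m N ≤ cnt S z' U m N := by
    unfold cnt
    apply Finset.card_le_card
    intro i hi
    rw [Finset.mem_filter]
    exact ⟨(Finset.mem_filter.1 hi).1, hz' i hi⟩
  have h4 : c ≤ cnt S z U m N := hz
  show c ≤ _
  have h5 : (cnt S z U m N : ℝ) ≤ cnt S z' U m N := by exact_mod_cast h3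
  linarith

lemma cnt_mul_le {Z : Type*} (S : Z → Z) (z : Z) (U : Set Z) (a N c : ℕ)
    (h : ∀ m, a ≤ m → cnt S z U m N ≤ c) (m : ℕ) (hm : a ≤ m) (k : ℕ) :
    cnt S z U m (k * N) ≤ k * c := by
  induction k with
  | zero => simp [cnt]
  | succ k ih =>
    rw [add_mul, one_mul, cnt_add, add_mul, one_mul]
    exact add_le_add ih (h _ (by omega))

/-- windows can be found arbitrarily far away -/
lemma Win.far {Z : Type*} {S : Z → Z} {z : Z} {U : Set Z} {δ : ℝ} (h : Win S z U δ) (N a : ℕ) :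
    ∃ m, a ≤ m ∧ δ * N ≤ cnt S z U m N := by
  by_contra hcon
  push Not at hcon
  set c := ⌈δ * N⌉₊ - 1 with hc
  have hpos : 0 < δ * N := lt_of_le_of_lt (Nat.cast_nonneg _) (hcon a le_rfl)
  have hc1 : (c : ℝ) < δ * N := by
    have h1 : c < ⌈δ * N⌉₊ := by
      have : 0 < ⌈δ * N⌉₊ := Nat.ceil_pos.2 hpos
      omega
    exact Nat.lt_ceil.1 h1
  have h1 : ∀ m, a ≤ m → cnt S z U m N ≤ c := by
    intro m hm
    have h2 : (cnt S z U m N) < ⌈δ * N⌉₊ := Nat.lt_ceil.2 (hcon m hm)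
    omega
  have h2 : ∀ k : ℕ, δ * (k * N) ≤ a + k * c := by
    intro k
    obtain ⟨m, hm⟩ := h (k * N)
    have h3 : cnt S z U m (k * N) ≤ a + k * c := by
      have h4 : cnt S z U m (k * N) ≤ cnt S z U m (a + k * N) := by
        classical
        unfold cnt
        apply Finset.card_le_card
        intro i hi
        rw [Finset.mem_filter, Finset.mem_range] at hi ⊢
        exact ⟨by omega, hi.2⟩
      rw [cnt_add] at h4
      have h5 := cnt_le S z U m a
      have h6 := cnt_mul_le S z U a N c h1 (m + a) (by omega) k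
      omega
    have h4 : (cnt S z U m (k * N) : ℝ) ≤ a + k * c := by exact_mod_cast h3
    push_cast at hm
    linarith
  obtain ⟨k, hk⟩ := exists_nat_gt ((a : ℝ) / (δ * N - c))
  have h3 := h2 k
  rw [div_lt_iff₀ (by linarith)] at hk
  nlinarith

end Pool.Agent.W92_MP_94b3e1_an
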