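import Pool.Agent.W92_MP_94b3e1_an.Outer

set_option autoImplicit false

open Filter Topology TopologicalSpace

namespace Pool.Agent.W92_MP_94b3e1_an

/-- `x` is a reiteratively recurrent point of the self map `S`: for every neighbourhood `U` of `x`
the set of return times `{n | S^n x ∈ U}` has positive upper Banach density. -/
def IsRRec {Z : Type*} [TopologicalSpace Z] (S : Z → Z) (x : Z) : Prop :=
  ∀ U ∈ 𝓝 x, ∃ δ : ℝ, 0 < δ ∧ ∀ N : ℕ, 1 ≤ N → ∃ m : ℕ,
    δ * (N : ℝ) ≤ (({n : ℕ | m ≤ n ∧ n < m + N ∧ S^[n] x ∈ U}).ncard : ℝ)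

lemma ncard_eq_cnt {Z : Type*} (S : Z → Z) (x : Z) (U : Set Z) (m N : ℕ) :
    ({n : ℕ | m ≤ n ∧ n < m + N ∧ S^[n] x ∈ U}).ncard = cnt S x U m N := by
  classical
  have h1 : {n : ℕ | m ≤ n ∧ n < m + N ∧ S^[n] x ∈ U}
      = ((((Finset.range N).filter (fun i => S^[m + i] x ∈ U)).image (fun i => m + i) : Finset ℕ) : Set ℕ) := by
    ext n
    rw [Finset.mem_coe, Finset.mem_image]
    constructor
    · rintro ⟨h1, h2, h3⟩
      refine ⟨n - m, ?_, by omega⟩
      rw [Finset.mem_filter, Finset.mem_range]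
      exact ⟨by omega, by rw [Nat.add_sub_cancel' h1]; exact h3⟩
    · rintro ⟨i, hi, rfl⟩
      rw [Finset.mem_filter, Finset.mem_range] at hi
      exact ⟨by omega, by omega, hi.2⟩
  rw [h1, Set.ncard_coe_finset, Finset.card_image_of_injective _ (add_right_injective m)]
  unfold cnt
  congr

lemma isRRec_iff {Z : Type*} [TopologicalSpace Z] (S : Z → Z) (x : Z) : IsRRec S x ↔ RRp S x := by
  unfold IsRRec RRp Win
  simp only [ncard_eq_cnt]
  constructor
  · intro h U hU
    obtain ⟨δ, hδ, hw⟩ := h U hU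
    refine ⟨δ, hδ, ?_⟩
    intro N
    rcases Nat.eq_zero_or_pos N with h0 | h0
    · subst h0; exact ⟨0, by simp⟩
    · exact hw N h0
  · intro h U hU
    obtain ⟨δ, hδ, hw⟩ := h U hU
    exact ⟨δ, hδ, fun N _ => hw N⟩

/-- a dense sequence all of whose finite initial segments are reiteratively recurrent for the
product map -/
theorem dense_sequence (Z : Type*) [TopologicalSpace Z] [PolishSpace Z] [Nonempty Z] (S : Z → Z)
    (hS : Continuous S) (hd : Dense {x | IsRRec S x}) :
    ∃ w : ℕ → Z, DenseRange w ∧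
      ∀ n : ℕ, IsRRec (fun (v : Fin n → Z) (i : Fin n) => S (v i)) (fun i => w i) := by
  simp only [isRRec_iff] at hd ⊢
  obtain ⟨w, hw, hR⟩ := outer hS hd
  refine ⟨w, hw, ?_⟩
  intro n
  exact RRp.map (S := Tom S) (fun (v : ℕ → Z) (i : Fin n) => v i)
    (continuous_pi (fun i => continuous_apply _)) (fun _ => rfl) hR

/-- dense lineability in the separable case -/
theorem dense_lineable (𝕂 : Type*) [RCLike 𝕂] (X : Type*) [NormedAddCommGroup X] [NormedSpace 𝕂 X]
    [CompleteSpace X] [SeparableSpace X] (T : X →L[𝕂] X) (hd : Dense {x : X | IsRRec T x}) :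
    ∃ M : Submodule 𝕂 X, Dense (M : Set X) ∧ ∀ x ∈ M, IsRRec T x := by
  have : SecondCountableTopology X := UniformSpace.secondCountable_of_separable X
  have : PolishSpace X := inferInstance
  simp only [isRRec_iff] at hd ⊢
  obtain ⟨w, hw, hR⟩ := outer T.continuous hd
  refine ⟨Submodule.span 𝕂 (Set.range w), ?_, ?_⟩
  · exact Dense.mono Submodule.subset_span hw
  · intro x hx
    obtain ⟨c, rfl⟩ := Finsupp.mem_span_range_iff_exists_finsupp.1 hx
    refine RRp.map (S := Tom (T : X → X)) (fun v : ℕ → X => c.sum (fun i a => a • v i)) ?_ ?_ hR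
    · unfold Finsupp.sum
      fun_prop
    · intro v
      unfold Finsupp.sum
      show ∑ a ∈ c.support, c a • T (v a) = T (∑ a ∈ c.support, c a • v a)
      rw [map_sum]
      apply Finset.sum_congr rfl
      intro i _
      rw [map_smul]

end Pool.Agent.W92_MP_94b3e1_an
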