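import Mathlib

set_option autoImplicit false

open Filter Topology TopologicalSpace

namespace Pool.Agent.W92_MP_94b3e1_an

/-- a Baire category principle -/
theorem generic {P : Type*} [TopologicalSpace P] [IsCompletelyMetrizableSpace P]
    {ι : Type*} [Countable ι] (Sg : Set P) (O C : ι → Set P) (hO : ∀ i, IsOpen (O i))
    (hC : ∀ i, IsOpen (C i))
    (h : ∀ i, ∀ σ ∈ Sg, σ ∈ C i → ∀ G, IsOpen G → σ ∈ G → ∃ τ ∈ Sg, τ ∈ G ∧ τ ∈ O i)
    (σ₀ : P) (hσ₀ : σ₀ ∈ Sg) (G₀ : Set P) (hG₀ : IsOpen G₀) (hσG : σ₀ ∈ G₀) :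
    ∃ x ∈ G₀, ∀ i, x ∈ C i → x ∈ O i := by
  have : IsCompletelyMetrizableSpace (closure Sg) := isClosed_closure.isCompletelyMetrizableSpace
  set D : ι → Set (closure Sg) := fun i =>
    (Subtype.val ⁻¹' O i) ∪ interior (Subtype.val ⁻¹' C i)ᶜ with hD
  have hDo : ∀ i, IsOpen (D i) := fun i =>
    ((hO i).preimage continuous_subtype_val).union isOpen_interior
  have hDd : ∀ i, Dense (D i) := by
    intro i
    rw [dense_iff_inter_open]
    rintro V hV ⟨x, hx⟩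
    obtain ⟨G, hG, rfl⟩ := isOpen_induced_iff.1 hV
    by_cases hc : ∃ σ ∈ Sg, σ ∈ G ∧ σ ∈ C i
    · obtain ⟨σ, hσ, hσG, hσC⟩ := hc
      obtain ⟨τ, hτ, hτG, hτO⟩ := h i σ hσ hσC G hG hσG
      exact ⟨⟨τ, subset_closure hτ⟩, hτG, Or.inl hτO⟩
    · refine ⟨x, hx, Or.inr ?_⟩
      rw [mem_interior]
      refine ⟨Subtype.val ⁻¹' G, ?_, hG.preimage continuous_subtype_val, hx⟩
      intro k hk hkC
      obtain ⟨σ, hσ1, hσ2⟩ := mem_closure_iff.1 k.2 (G ∩ C i) (hG.inter (hC i)) ⟨hk, hkC⟩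
      exact hc ⟨σ, hσ2, hσ1.1, hσ1.2⟩
  have hdense := dense_iInter_of_isOpen hDo hDd
  obtain ⟨x, hxG, hxD⟩ := hdense.inter_open_nonempty (Subtype.val ⁻¹' G₀)
    (hG₀.preimage continuous_subtype_val) ⟨⟨σ₀, subset_closure hσ₀⟩, hσG⟩
  refine ⟨x.1, hxG, ?_⟩
  intro i hi
  rcases (Set.mem_iInter.1 hxD i) with h1 | h1
  · exact h1
  · exact absurd hi (interior_subset h1)

end Pool.Agent.W92_MP_94b3e1_an
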