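import Pool.Agent.W92_MP_94b3e1_an.Kernel2

set_option autoImplicit false

open Filter Topology
open scoped ComplexConjugate InnerProductSpace

namespace Pool.Agent.W92_MP_94b3e1_an

variable (M : Mean)

lemma isNN_ind (A : Set ℤ) : IsNN (ind A) := by
  intro n
  by_cases h : n ∈ A
  · rw [ind_mem h]; simp
  · rw [ind_not_mem h]; simp

lemma norm_ind_le (A : Set ℤ) : ‖ind A‖ ≤ 1 := by
  rw [BoundedContinuousFunction.norm_le zero_le_one]
  intro n
  by_cases h : n ∈ A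
  · rw [ind_mem h]; simp
  · rw [ind_not_mem h]; simp

/-! ### the autocorrelation kernel -/

/-- the autocorrelation of a set -/
noncomputable def rr (B : Set ℤ) : BF := cf M (emb M (ind B)) (emb M (ind B))

lemma rr_apply (B : Set ℤ) (n : ℤ) : rr M B n = M.m (sh n (ind B) * ind B) := by
  rw [rr, cf_apply, T_emb, inner_emb, ((isNN_ind B).sh n).star_eq]

lemma isNN_rr (B : Set ℤ) : IsNN (rr M B) := by
  intro n
  have h := ((isNN_ind B).sh n).mul (isNN_ind B)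
  rw [rr_apply, h.m_eq M]
  exact ⟨Complex.ofReal_im _, by rw [Complex.ofReal_re]; exact h.m_nonneg M⟩

lemma emb_rr_mem (B : Set ℤ) : emb M (rr M B) ∈ Cc M := Phi_mem M _ _

lemma rr_ne_zero {B : Set ℤ} {n : ℤ} (h : rr M B n ≠ 0) : ∃ t, t ∈ B ∧ t + n ∈ B := by
  by_contra hcon
  push Not at hcon
  apply h
  rw [rr_apply]
  have : sh n (ind B) * ind B = 0 := by
    ext t
    show ind B (t + n) * ind B t = 0
    by_cases ht : t ∈ B
    · rw [ind_not_mem (hcon t ht), zero_mul]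
    · rw [ind_not_mem ht, mul_zero]
  rw [this, map_zero]

lemma m_rr_ge (B : Set ℤ) : (M.m (ind B)).re ^ 2 ≤ (M.m (rr M B)).re := by
  set f := emb M (ind B) with hf
  set F := (Phi M f).adjoint (emb M 1) with hF
  have ha : ∀ g, ⟪F, g⟫_ℂ = M.m (cf M f g) := by
    intro g
    rw [hF, ContinuousLinearMap.adjoint_inner_left, Phi_apply, inner_emb]
    simp
  have h1 : ∀ k, T M k (emb M 1) = emb M 1 := by
    intro k; rw [T_emb]; congr 1
  have hb : ∀ k, T M k F = F := by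
    intro k
    apply ext_inner_right ℂ
    intro h
    rw [inner_T_left, hF, ContinuousLinearMap.adjoint_inner_left,
      ContinuousLinearMap.adjoint_inner_left, Phi_T, neg_neg, inner_T_right, h1]
  have hconst : ∀ c : ℂ, M.m (c • (1 : BF)) = c := by
    intro c; rw [map_smul, M.one, smul_eq_mul, mul_one]
  have hc : ⟪F, F⟫_ℂ = ⟪f, F⟫_ℂ := by
    rw [ha]
    have : cf M f F = ⟪f, F⟫_ℂ • (1 : BF) := by
      ext n
      rw [cf_apply, inner_T_left, hb]
      show _ = ⟪f, F⟫_ℂ * 1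
      rw [mul_one]
    rw [this, hconst]
  have hd : (M.m (rr M B)).re = ‖F‖ ^ 2 := by
    rw [rr, ← hf, ← ha, ← inner_conj_symm, ← hc, inner_conj_symm]
    exact inner_self_eq_norm_sq (𝕜 := ℂ) F
  have he : ⟪F, emb M 1⟫_ℂ = M.m (ind B) := by
    rw [ha]
    have : cf M f (emb M 1) = M.m (ind B) • (1 : BF) := by
      ext n
      rw [cf_apply, inner_T_left, h1, hf, inner_emb, (isNN_ind B).star_eq, mul_one]
      show _ = M.m (ind B) * 1
      rw [mul_one]
    rw [this, hconst]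
  have hf2 : ‖M.m (ind B)‖ ≤ ‖F‖ := by
    rw [← he]
    refine (norm_inner_le_norm _ _).trans ?_
    have : ‖emb M 1‖ ≤ 1 := (norm_emb_le M 1).trans (by simp)
    nlinarith [norm_nonneg F]
  rw [hd]
  have h5 := Complex.abs_re_le_norm (M.m (ind B))
  have h6 : |(M.m (ind B)).re| ≤ ‖F‖ := h5.trans hf2
  rw [← sq_abs]
  exact pow_le_pow_left₀ (abs_nonneg _) h6 2

/-! ### Bohr sets -/

/-- Bohr sets -/
def Bohr (F : Finset Circle) (η : ℝ) : Set ℤ := {n | ∀ θ ∈ F, ‖(θ : ℂ) ^ n - 1‖ < η}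

lemma norm_zpow_circle (θ : Circle) (n : ℤ) : ‖(θ : ℂ) ^ n‖ = 1 := by
  rw [norm_zpow, Circle.norm_coe, one_zpow]

lemma norm_zpow_sub (θ : Circle) (a b : ℤ) : ‖(θ : ℂ) ^ (a - b) - 1‖ = ‖(θ : ℂ) ^ a - (θ : ℂ) ^ b‖ := by
  have : (θ : ℂ) ^ a - (θ : ℂ) ^ b = (θ : ℂ) ^ b * ((θ : ℂ) ^ (a - b) - 1) := by
    rw [mul_sub, ← zpow_add₀ (Circle.coe_ne_zero θ)]; simp
  rw [this, norm_mul, norm_zpow_circle, one_mul]

lemma Bohr_zero (F : Finset Circle) {η : ℝ} (hη : 0 < η) : (0 : ℤ) ∈ Bohr F η := by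
  intro θ _; simpa using hη

lemma Bohr_mono {F F' : Finset Circle} {η η' : ℝ} (hF : F ⊆ F') (hη : η' ≤ η) :
    Bohr F' η' ⊆ Bohr F η := fun _ hn θ hθ => (hn θ (hF hθ)).trans_le hη

lemma Bohr_add {F : Finset Circle} {a b : ℤ} {η η' : ℝ} (ha : a ∈ Bohr F η) (hb : b ∈ Bohr F η') :
    a + b ∈ Bohr F (η + η') := by
  intro θ hθ
  have h1 : (θ : ℂ) ^ (a + b) - 1 = (θ : ℂ) ^ b * ((θ : ℂ) ^ a - 1) + ((θ : ℂ) ^ b - 1) := by
    rw [zpow_add₀ (Circle.coe_ne_zero θ)]; ring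
  rw [h1]
  refine (norm_add_le _ _).trans_lt ?_
  rw [norm_mul, norm_zpow_circle, one_mul]
  exact add_lt_add (ha θ hθ) (hb θ hθ)

lemma Bohr_neg {F : Finset Circle} {a : ℤ} {η : ℝ} (ha : a ∈ Bohr F η) : -a ∈ Bohr F η := by
  intro θ hθ
  have := norm_zpow_sub θ 0 a
  rw [zero_sub] at this
  rw [this, norm_sub_rev, zpow_zero]
  exact ha θ hθ

lemma Bohr_sub {F : Finset Circle} {a b : ℤ} {η η' : ℝ} (ha : a ∈ Bohr F η) (hb : b ∈ Bohr F η') :
    a - b ∈ Bohr F (η + η') := by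
  rw [sub_eq_add_neg]; exact Bohr_add ha (Bohr_neg hb)

lemma pos_of_cover (A : Set ℤ) (t : Finset ℤ) (h : ∀ n : ℤ, ∃ k ∈ t, n - k ∈ A) :
    0 < (M.m (ind A)).re := by
  have h1 : (1 : ℝ) ≤ (M.m (∑ k ∈ t, sh (-k) (ind A))).re := by
    have h2 : (M.m 1).re ≤ (M.m (∑ k ∈ t, sh (-k) (ind A))).re := by
      apply M.mono
      intro n
      obtain ⟨k, hk, hkA⟩ := h n
      rw [BoundedContinuousFunction.coe_sum, Finset.sum_apply, Complex.re_sum]
      have h3 : ((sh (-k) (ind A)) n).re ≤ ∑ c ∈ t, ((sh (-c) (ind A)) n).re :=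
        Finset.single_le_sum (f := fun c => ((sh (-c) (ind A)) n).re)
          (fun c _ => ((isNN_ind A).sh (-c) n).2) hk
      refine le_trans ?_ h3
      rw [sh_apply, ← sub_eq_add_neg, ind_mem hkA]; simp
    rwa [M.one, Complex.one_re] at h2
  rw [map_sum, Complex.re_sum] at h1
  simp only [M.shift, Finset.sum_const, nsmul_eq_mul] at h1
  have h4 := (isNN_ind A).m_nonneg M
  rcases h4.lt_or_eq with h5 | h5
  · exact h5
  · rw [← h5, mul_zero] at h1; linarith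

/-- finitely many translates of a Bohr set cover the integers -/
lemma Bohr_cover (F : Finset Circle) (η : ℝ) (hη : 0 < η) :
    ∃ t : Finset ℤ, ∀ n : ℤ, ∃ k ∈ t, n - k ∈ Bohr F η := by
  set φ : ℤ → (F → ℂ) := fun n θ => ((θ : Circle) : ℂ) ^ n with hφ
  have hb : TotallyBounded (Set.range φ) := by
    have : Set.range φ ⊆ Metric.closedBall (0 : F → ℂ) 1 := by
      rintro _ ⟨n, rfl⟩
      rw [mem_closedBall_zero_iff, pi_norm_le_iff_of_nonneg zero_le_one]
      intro θ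
      rw [hφ]
      show ‖((θ : Circle) : ℂ) ^ n‖ ≤ 1
      rw [norm_zpow_circle]
    exact (isCompact_closedBall _ _).totallyBounded.subset this
  obtain ⟨t, hts, htf, ht⟩ := totallyBounded_iff_subset.1 hb _ (Metric.dist_mem_uniformity hη)
  have hex : ∀ y ∈ t, ∃ n, φ n = y := fun y hy => hts hy
  classical
  choose! g hg using hex
  refine ⟨htf.toFinset.image g, ?_⟩
  intro n
  have := ht ⟨n, rfl⟩
  simp only [Set.mem_iUnion] at this
  obtain ⟨y, hy, hny⟩ := this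
  refine ⟨g y, Finset.mem_image.2 ⟨y, htf.mem_toFinset.2 hy, rfl⟩, ?_⟩
  intro θ hθ
  rw [norm_zpow_sub]
  have h1 : dist (φ n) y < η := hny
  rw [← hg y hy] at h1
  have h2 := (dist_le_pi_dist (φ n) (φ (g y)) ⟨θ, hθ⟩).trans_lt h1
  rwa [dist_eq_norm] at h2

lemma Bohr_pos (F : Finset Circle) (η : ℝ) (hη : 0 < η) : 0 < (M.m (ind (Bohr F η))).re := by
  obtain ⟨t, ht⟩ := Bohr_cover F η hη
  exact pos_of_cover M _ t ht

lemma SuppIn_rr {B : Set ℤ} {F : Finset Circle} {η : ℝ} (hB : B ⊆ Bohr F (η / 2)) :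
    SuppIn (rr M B) F η := by
  intro n hn θ hθ
  obtain ⟨t, ht, htn⟩ := rr_ne_zero M hn
  have := Bohr_sub (hB htn) (hB ht)
  rw [add_sub_cancel_left, add_halves] at this
  exact (this θ hθ).le

/-! ### the correlation function -/

/-- the Bohr almost periodic correlation -/
noncomputable def hh (f g : BF) (n : ℤ) : ℝ := (⟪emb M g, T M n (pr M (emb M f))⟫_ℂ).re

lemma hh_sub_left (f f' g : BF) (n : ℤ) : hh M (f - f') g n = hh M f g n - hh M f' g n := by
  simp only [hh, map_sub, inner_sub_right, Complex.sub_re]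

lemma hh_sub_right (f g g' : BF) (n : ℤ) : hh M f (g - g') n = hh M f g n - hh M f g' n := by
  simp only [hh, map_sub, inner_sub_left, Complex.sub_re]

lemma inner_T_tp (x : H M) (F : Finset Circle) (a : Circle → ℂ) (n : ℤ) :
    ⟪x, T M n (emb M (tp F a))⟫_ℂ = ∑ θ ∈ F, a θ * (θ : ℂ) ^ n * ⟪x, emb M (ch θ)⟫_ℂ := by
  rw [tp, map_sum, map_sum, inner_sum]
  apply Finset.sum_congr rfl
  intro θ _
  rw [map_smul, map_smul, T_emb, sh_ch, map_smul, inner_smul_right, inner_smul_right]; ring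

lemma hh_approx (f g : BF) (F : Finset Circle) (a : Circle → ℂ) (ε : ℝ)
    (h : ‖pr M (emb M f) - emb M (tp F a)‖ ≤ ε) (n : ℤ) :
    |hh M f g n - (⟪emb M g, T M n (emb M (tp F a))⟫_ℂ).re| ≤ ‖emb M g‖ * ε := by
  rw [hh, ← Complex.sub_re, ← inner_sub_right, ← map_sub]
  refine (Complex.abs_re_le_norm _).trans ((norm_inner_le_norm _ _).trans ?_)
  rw [norm_T]
  exact mul_le_mul_of_nonneg_left h (norm_nonneg _)

/-- Bohr continuity of the correlation -/
lemma hh_cont (f g : BF) (ε : ℝ) (hε : 0 < ε) : ∃ (F : Finset Circle) (η : ℝ), 0 < η ∧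
    ∀ k ∈ Bohr F η, ∀ n, |hh M f g (n + k) - hh M f g n| ≤ ε := by
  obtain ⟨F, a, hF⟩ := exists_tp M _ (pr_mem M (emb M f)) (ε / (4 * (‖emb M g‖ + 1))) (by positivity)
  set A := ∑ θ ∈ F, ‖a θ‖ with hA
  have hA0 : 0 ≤ A := by positivity
  refine ⟨F, ε / (2 * (A * ‖emb M g‖ + 1)), by positivity, ?_⟩
  intro k hk n
  have h1 := hh_approx M f g F a _ hF.le (n + k)
  have h2 := hh_approx M f g F a _ hF.le n
  have h3 : |(⟪emb M g, T M (n + k) (emb M (tp F a))⟫_ℂ).re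
      - (⟪emb M g, T M n (emb M (tp F a))⟫_ℂ).re| ≤ ε / 2 := by
    rw [← Complex.sub_re]
    refine (Complex.abs_re_le_norm _).trans ?_
    rw [inner_T_tp, inner_T_tp, ← Finset.sum_sub_distrib]
    refine (norm_sum_le _ _).trans ?_
    have h4 : ∀ θ ∈ F, ‖a θ * (θ : ℂ) ^ (n + k) * ⟪emb M g, emb M (ch θ)⟫_ℂ
        - a θ * (θ : ℂ) ^ n * ⟪emb M g, emb M (ch θ)⟫_ℂ‖
        ≤ ‖a θ‖ * (ε / (2 * (A * ‖emb M g‖ + 1)) * ‖emb M g‖) := by
      intro θ hθ
      have h5 : a θ * (θ : ℂ) ^ (n + k) * ⟪emb M g, emb M (ch θ)⟫_ℂ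
        - a θ * (θ : ℂ) ^ n * ⟪emb M g, emb M (ch θ)⟫_ℂ
        = a θ * (θ : ℂ) ^ n * (((θ : ℂ) ^ k - 1) * ⟪emb M g, emb M (ch θ)⟫_ℂ) := by
        rw [zpow_add₀ (Circle.coe_ne_zero θ)]; ring
      rw [h5, norm_mul, norm_mul, norm_mul, norm_zpow_circle, mul_one]
      apply mul_le_mul_of_nonneg_left _ (norm_nonneg _)
      apply mul_le_mul (hk θ hθ).le _ (norm_nonneg _) (by positivity)
      refine (norm_inner_le_norm _ _).trans ?_
      have h6 : ‖emb M (ch θ)‖ = 1 := (orthonormal_ch M).1 θ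
      rw [h6, mul_one]
    refine (Finset.sum_le_sum h4).trans ?_
    rw [← Finset.sum_mul, ← hA]
    rw [show A * (ε / (2 * (A * ‖emb M g‖ + 1)) * ‖emb M g‖)
      = ε / 2 * ((A * ‖emb M g‖) / (A * ‖emb M g‖ + 1)) by field_simp]
    have h7 : (A * ‖emb M g‖) / (A * ‖emb M g‖ + 1) ≤ 1 := by
      rw [div_le_one (by positivity)]; linarith
    nlinarith
  have h8 : ‖emb M g‖ * (ε / (4 * (‖emb M g‖ + 1))) ≤ ε / 4 := by
    rw [mul_div_assoc', div_le_div_iff₀ (by positivity) (by norm_num)]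
    nlinarith [norm_nonneg (emb M g)]
  rw [abs_le] at *
  constructor <;> linarith [h1.1, h1.2, h2.1, h2.2, h3.1, h3.2]

/-- the correlation of nonnegative functions is nonnegative -/
lemma hh_nonneg (f g : BF) (hf : IsNN f) (hg : IsNN g) (n : ℤ) : 0 ≤ hh M f g n := by
  have key : ∀ ε : ℝ, 0 < ε → -(ε * (2 * ‖emb M g‖ + ‖g‖)) ≤ hh M f g n := by
    intro ε hε
    obtain ⟨F, a, hF⟩ := exists_tp M _ (pr_mem M (emb M f)) ε hε
    set A := ∑ θ ∈ F, ‖a θ‖ with hA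
    have hA0 : 0 ≤ A := by positivity
    set η := ε / (A + 1) with hη
    have hη0 : 0 < η := by positivity
    set B := Bohr F (η / 2) with hB
    have hBpos := Bohr_pos M F (η / 2) (by positivity)
    have hrpos : 0 < (M.m (rr M B)).re := lt_of_lt_of_le (by positivity) (m_rr_ge M B)
    have hk := key_estimate M g f (rr M B) (isNN_rr M B) (emb_rr_mem M B) n F a η hη0.le
      (SuppIn_rr M (le_refl _))
    have h1 : 0 ≤ (M.m (star g * sh n (G M f (rr M B)))).re := by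
      rw [hg.star_eq]
      exact (hg.mul ((IsNN.G M hf (isNN_rr M B)).sh n)).m_nonneg M
    have h2 : (M.m (rr M B) * M.m (star g * sh n (tp F a))).re
        = (M.m (rr M B)).re * (⟪emb M g, T M n (emb M (tp F a))⟫_ℂ).re := by
      rw [T_emb, inner_emb, (isNN_rr M B).m_eq M, Complex.re_ofReal_mul, Complex.ofReal_re]
    have h3 := (abs_le.1 ((Complex.abs_re_le_norm _).trans hk)).2
    rw [Complex.sub_re, h2] at h3
    have h4 := (abs_le.1 (hh_approx M f g F a ε hF.le n)).1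
    have h5 : ‖emb M g‖ * ‖pr M (emb M f) - emb M (tp F a)‖ ≤ ‖emb M g‖ * ε :=
      mul_le_mul_of_nonneg_left hF.le (norm_nonneg _)
    have h6 : ‖g‖ * (η * A) ≤ ‖g‖ * ε := by
      apply mul_le_mul_of_nonneg_left _ (norm_nonneg _)
      rw [hη, div_mul_eq_mul_div, div_le_iff₀ (by positivity)]
      nlinarith
    set c := (M.m (rr M B)).re with hc
    have h7 : 0 ≤ c * ((⟪emb M g, T M n (emb M (tp F a))⟫_ℂ).re + ‖emb M g‖ * ε + ‖g‖ * ε) := by
      have h8 : c * (‖emb M g‖ * ‖pr M (emb M f) - emb M (tp F a)‖ + ‖g‖ * (η * A))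
          ≤ c * (‖emb M g‖ * ε + ‖g‖ * ε) :=
        mul_le_mul_of_nonneg_left (add_le_add h5 h6) hrpos.le
      nlinarith
    have h9 := nonneg_of_mul_nonneg_right h7 hrpos
    nlinarith
  by_contra hcon
  push Not at hcon
  set C := 2 * ‖emb M g‖ + ‖g‖ with hC
  have hC0 : 0 ≤ C := by positivity
  have h1 := key (-(hh M f g n) / (2 * (C + 1))) (by
    apply div_pos (by linarith) (by positivity))
  have h2 : (-(hh M f g n) / (2 * (C + 1))) * C ≤ -(hh M f g n) / 2 := by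
    rw [div_mul_eq_mul_div, div_le_div_iff₀ (by positivity) (by norm_num)]
    nlinarith
  linarith

lemma hh_mono (A A' B B' : Set ℤ) (hA : A' ⊆ A) (hB : B' ⊆ B) (n : ℤ) :
    hh M (ind A') (ind B') n ≤ hh M (ind A) (ind B) n := by
  have h1 : ∀ (C C' : Set ℤ), C' ⊆ C → ind C - ind C' = ind (C \ C') := by
    intro C C' h
    ext n
    show ind C n - ind C' n = ind (C \ C') n
    by_cases h1 : n ∈ C'
    · rw [ind_mem h1, ind_mem (h h1), ind_not_mem (fun h2 => h2.2 h1)]; simp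
    · by_cases h2 : n ∈ C
      · have h3 : n ∈ C \ C' := Set.mem_sdiff_of_mem h2 h1
        rw [ind_mem h2, ind_not_mem h1, ind_mem h3]; simp
      · rw [ind_not_mem h2, ind_not_mem h1, ind_not_mem (fun h3 => h2 h3.1)]; simp
  have h2 : hh M (ind A) (ind B') n - hh M (ind A') (ind B') n = hh M (ind (A \ A')) (ind B') n := by
    rw [← hh_sub_left, h1 _ _ hA]
  have h3 : hh M (ind A) (ind B) n - hh M (ind A) (ind B') n = hh M (ind A) (ind (B \ B')) n := by
    rw [← hh_sub_right, h1 _ _ hB]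
  have h4 := hh_nonneg M (ind (A \ A')) (ind B') (isNN_ind _) (isNN_ind _) n
  have h5 := hh_nonneg M (ind A) (ind (B \ B')) (isNN_ind _) (isNN_ind _) n
  linarith

end Pool.Agent.W92_MP_94b3e1_an
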