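import Pool.Agent.W92_MP_94b3e1_an.Mean

set_option autoImplicit false

open Filter Topology UniformSpace UniformSpace.Completion
open scoped ComplexConjugate InnerProductSpace

namespace Pool.Agent.W92_MP_94b3e1_an

namespace Mean

variable (M : Mean)

lemma eq_re_of_nonneg (f : BF) (h : ∀ n, (f n).im = 0 ∧ 0 ≤ (f n).re) :
    M.m f = ((M.m f).re : ℂ) ∧ 0 ≤ (M.m f).re := by
  have h1 : ‖M.m f‖ ≤ (M.m f).re := by
    apply M.dom
    intro n
    have : f n = ((f n).re : ℂ) := by
      apply Complex.ext <;> simp [(h n).1]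
    rw [this, Complex.norm_real, Complex.ofReal_re, Real.norm_of_nonneg (h n).2]
  have h2 : 0 ≤ (M.m f).re := (norm_nonneg _).trans h1
  refine ⟨?_, h2⟩
  have h3 := Complex.sq_norm_sub_sq_re (M.m f)
  have h4 : ‖M.m f‖ ^ 2 ≤ (M.m f).re ^ 2 := by
    exact pow_le_pow_left₀ (norm_nonneg _) h1 2
  have h5 : (M.m f).im = 0 := by nlinarith
  apply Complex.ext <;> simp [h5]

lemma real_of_real (f : BF) (h : ∀ n, (f n).im = 0) : (M.m f).im = 0 := by
  set c : ℂ := ((‖f‖ : ℝ) : ℂ) with hc
  have h1 := (M.eq_re_of_nonneg (f + c • (1 : BF)) (by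
    intro n
    have hb := f.norm_coe_le_norm n
    have h2 := Complex.abs_re_le_norm (f n)
    have h3 := abs_le.1 (h2.trans hb)
    constructor
    · simp [h n, hc]
    · simp [hc]; linarith)).1
  have h2 : (M.m (f + c • (1 : BF))).im = 0 := by rw [h1]; simp
  rw [map_add, map_smul, M.one] at h2
  simpa [hc] using h2

lemma map_star (f : BF) : M.m (star f) = conj (M.m f) := by
  -- decompose
  set a : BF := (1/2 : ℂ) • (f + star f) with ha
  set b : BF := (Complex.I / 2 : ℂ) • (star f - f) with hb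
  have ha' : ∀ n, (a n).im = 0 := by
    intro n; simp [ha]
  have hb' : ∀ n, (b n).im = 0 := by
    intro n; simp [hb]
  have e1 : f = a + Complex.I • b := by
    ext n; simp [ha, hb]; ring_nf; simp [Complex.I_sq]; ring
  have e2 : star f = a - Complex.I • b := by
    ext n; simp [ha, hb]; ring_nf; simp [Complex.I_sq]; ring
  have h1 := M.real_of_real a ha'
  have h2 := M.real_of_real b hb'
  have h3 : conj (M.m a) = M.m a := by
    rw [Complex.conj_eq_iff_im]; exact h1
  have h4 : conj (M.m b) = M.m b := by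
    rw [Complex.conj_eq_iff_im]; exact h2
  have e5 : M.m (Complex.I • b) = Complex.I * M.m b := map_smul M.m Complex.I b
  have e3 : M.m (star f) = M.m a - Complex.I * M.m b := by
    conv_lhs => rw [e2]
    rw [map_sub, e5]
  have e4 : M.m f = M.m a + Complex.I * M.m b := by
    conv_lhs => rw [e1]
    rw [map_add, e5]
  rw [e3, e4, map_add, map_mul, h3, h4, Complex.conj_I]; ring

end Mean

/-- the space of bounded functions with the seminorm of `L²(m)` -/
def Pre (_M : Mean) := BF

variable (M : Mean)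

noncomputable instance : AddCommGroup (Pre M) := inferInstanceAs (AddCommGroup BF)
noncomputable instance : Module ℂ (Pre M) := inferInstanceAs (Module ℂ BF)

/-- identity map to the pre-Hilbert space -/
noncomputable def toPre : BF ≃ₗ[ℂ] Pre M := LinearEquiv.refl ℂ _

/-- pre inner product -/
noncomputable abbrev core : PreInnerProductSpace.Core ℂ (Pre M) where
  inner f g := M.m (star ((toPre M).symm f) * (toPre M).symm g)
  conj_inner_symm f g := by
    rw [← M.map_star]; congr 1
    rw [star_mul, star_star]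
  re_inner_nonneg f := by
    refine (M.eq_re_of_nonneg (star ((toPre M).symm f) * (toPre M).symm f) ?_).2
    intro n
    have : (star ((toPre M).symm f) * (toPre M).symm f) n
        = ((‖((toPre M).symm f) n‖ ^ 2 : ℝ) : ℂ) := by
      simp [Complex.conj_mul']
    rw [this]
    constructor
    · exact Complex.ofReal_im _
    · rw [Complex.ofReal_re]; positivity
  add_left f g h := by
    rw [map_add, star_add, add_mul, map_add]
  smul_left f g c := by
    rw [map_smul, star_smul, smul_mul_assoc, map_smul]; rfl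

noncomputable instance : SeminormedAddCommGroup (Pre M) :=
  InnerProductSpace.Core.toSeminormedAddCommGroup (c := core M)
noncomputable instance : InnerProductSpace ℂ (Pre M) :=
  InnerProductSpace.ofCore (core M)

/-- the Hilbert space of the mean -/
abbrev H := UniformSpace.Completion (Pre M)

lemma inner_toPre (f g : BF) : ⟪toPre M f, toPre M g⟫_ℂ = M.m (star f * g) := rfl

/-- canonical map to the Hilbert space -/
noncomputable def emb : BF →ₗ[ℂ] H M :=
  (UniformSpace.Completion.toComplₗᵢ (𝕜 := ℂ) (E := Pre M)).toLinearMap ∘ₗ (toPre M).toLinearMap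

lemma inner_emb (f g : BF) : ⟪emb M f, emb M g⟫_ℂ = M.m (star f * g) := by
  show ⟪((toPre M f : Pre M) : Completion (Pre M)), ((toPre M g : Pre M) : Completion (Pre M))⟫_ℂ = _
  rw [UniformSpace.Completion.inner_coe, inner_toPre]

lemma norm_emb_sq (f : BF) : ‖emb M f‖ ^ 2 = (M.m (star f * f)).re := by
  have := inner_self_eq_norm_sq (𝕜 := ℂ) (emb M f)
  rw [← this, inner_emb]; rfl

lemma denseRange_emb : DenseRange (emb M) := by
  have h : DenseRange ((↑) : Pre M → Completion (Pre M)) := UniformSpace.Completion.denseRange_coe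
  exact h

lemma norm_m_le (f : BF) : ‖M.m f‖ ≤ ‖f‖ := by
  have h := M.dom f (((‖f‖ : ℝ) : ℂ) • (1 : BF)) (by intro n; simpa using f.norm_coe_le_norm n)
  rw [map_smul, M.one] at h
  simpa using h

lemma norm_emb_le (f : BF) : ‖emb M f‖ ≤ ‖f‖ := by
  have h1 := norm_emb_sq M f
  have h2 : (M.m (star f * f)).re ≤ ‖f‖ ^ 2 := by
    refine (Complex.re_le_norm _).trans ((norm_m_le M _).trans ?_)
    refine (norm_mul_le _ _).trans ?_
    rw [norm_star, sq]
  rw [← h1] at h2
  exact (abs_le_of_sq_le_sq' h2 (norm_nonneg _)).2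

/-- The shift on the pre-Hilbert space, as an isometry. -/
noncomputable def shPre (k : ℤ) : Pre M →ₗᵢ[ℂ] Pre M where
  toFun f := toPre M (sh k ((toPre M).symm f))
  map_add' f g := by rfl
  map_smul' c f := by rfl
  norm_map' f := by
    have h : ∀ g : BF, ‖toPre M g‖ ^ 2 = (M.m (star g * g)).re := by
      intro g
      have := inner_self_eq_norm_sq (𝕜 := ℂ) (toPre M g)
      rw [← this, inner_toPre]; rfl
    have h1 := h (sh k ((toPre M).symm f))
    have h2 := h ((toPre M).symm f)
    have h3 : star (sh k ((toPre M).symm f)) * sh k ((toPre M).symm f)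
        = sh k (star ((toPre M).symm f) * ((toPre M).symm f)) := by ext n; simp
    rw [h3, M.shift, ← h2] at h1
    rw [LinearEquiv.apply_symm_apply] at h1
    exact (sq_eq_sq₀ (norm_nonneg _) (norm_nonneg _)).1 h1

/-- the shift on the Hilbert space -/
noncomputable def T (k : ℤ) : H M →L[ℂ] H M := (shPre M k).toContinuousLinearMap.completion

lemma T_emb (k : ℤ) (f : BF) : T M k (emb M f) = emb M (sh k f) := by
  show (shPre M k).toContinuousLinearMap.completion ((toPre M f : Pre M) : Completion (Pre M)) = _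
  rw [ContinuousLinearMap.completion_apply_coe]; rfl

lemma H_ext {P : H M → Prop} (hc : IsClosed {x | P x}) (h : ∀ f : BF, P (emb M f)) (x : H M) : P x :=
  isClosed_property (denseRange_emb M) hc h x

lemma T_add (a b : ℤ) (x : H M) : T M a (T M b x) = T M (a + b) x := by
  refine H_ext M (P := fun x => T M a (T M b x) = T M (a + b) x) ?_ ?_ x
  · apply isClosed_eq <;> fun_prop
  · intro f; rw [T_emb, T_emb, T_emb, Build.sh_sh]

lemma T_zero (x : H M) : T M 0 x = x := by
  refine H_ext M (P := fun x => T M 0 x = x) ?_ ?_ x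
  · apply isClosed_eq <;> fun_prop
  · intro f; rw [T_emb, Build.sh_zero]

lemma norm_T (k : ℤ) (x : H M) : ‖T M k x‖ = ‖x‖ := by
  refine H_ext M (P := fun x => ‖T M k x‖ = ‖x‖) ?_ ?_ x
  · apply isClosed_eq <;> fun_prop
  · intro f
    rw [T_emb]
    have h1 := norm_emb_sq M (sh k f)
    have h2 := norm_emb_sq M f
    have h3 : star (sh k f) * sh k f = sh k (star f * f) := by ext n; simp
    rw [h3, M.shift, ← h2] at h1
    exact (sq_eq_sq₀ (norm_nonneg _) (norm_nonneg _)).1 h1

lemma inner_T_T (k : ℤ) (x y : H M) : ⟪T M k x, T M k y⟫_ℂ = ⟪x, y⟫_ℂ := by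
  have h1 : ∀ (x : H M), ∀ g : BF, ⟪T M k x, T M k (emb M g)⟫_ℂ = ⟪x, emb M g⟫_ℂ := by
    intro x g
    refine H_ext M (P := fun x => ⟪T M k x, T M k (emb M g)⟫_ℂ = ⟪x, emb M g⟫_ℂ) ?_ ?_ x
    · apply isClosed_eq <;> fun_prop
    · intro f
      rw [T_emb, T_emb, inner_emb, inner_emb]
      have h3 : star (sh k f) * sh k g = sh k (star f * g) := by ext n; simp
      rw [h3, M.shift]
  refine H_ext M (P := fun y => ⟪T M k x, T M k y⟫_ℂ = ⟪x, y⟫_ℂ) ?_ (h1 x) y
  apply isClosed_eq <;> fun_prop

lemma inner_T_left (k : ℤ) (x y : H M) : ⟪T M k x, y⟫_ℂ = ⟪x, T M (-k) y⟫_ℂ := by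
  rw [← inner_T_T M (-k), T_add]; simp [T_zero]

lemma inner_T_right (k : ℤ) (x y : H M) : ⟪x, T M k y⟫_ℂ = ⟪T M (-k) x, y⟫_ℂ := by
  rw [inner_T_left]; simp

/-- characters -/
noncomputable def ch (θ : Circle) : BF := bf (fun n => (θ : ℂ) ^ n) 1 (by
  intro n; rw [norm_zpow, Circle.norm_coe, one_zpow])

@[simp] lemma ch_apply (θ : Circle) (n : ℤ) : ch θ n = (θ : ℂ) ^ n := rfl

lemma ch_one : ch 1 = 1 := by ext n; simp

lemma sh_ch (k : ℤ) (θ : Circle) : sh k (ch θ) = ((θ : ℂ) ^ k) • ch θ := by
  ext n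
  simp only [sh_apply, ch_apply, BoundedContinuousFunction.coe_smul, smul_eq_mul]
  rw [zpow_add₀ (Circle.coe_ne_zero θ), mul_comm]

lemma star_ch_mul (θ η : Circle) : star (ch θ) * ch η = ch (θ⁻¹ * η) := by
  ext n
  simp only [BoundedContinuousFunction.coe_mul, Pi.mul_apply, BoundedContinuousFunction.coe_star, Pi.star_apply, ch_apply,
    Circle.coe_mul, Circle.coe_inv_eq_conj]
  rw [mul_zpow]
  congr 1
  simp

lemma m_ch (θ : Circle) (h : θ ≠ 1) : M.m (ch θ) = 0 := by
  have h1 := M.shift 1 (ch θ)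
  rw [sh_ch, map_smul, zpow_one, smul_eq_mul] at h1
  have h2 : ((θ : ℂ) - 1) * M.m (ch θ) = 0 := by rw [sub_mul, h1]; ring
  rcases mul_eq_zero.1 h2 with h3 | h3
  · exfalso; apply h
    have : (θ : ℂ) = ((1 : Circle) : ℂ) := by rw [Circle.coe_one]; exact sub_eq_zero.1 h3
    exact_mod_cast Circle.ext this
  · exact h3

lemma orthonormal_ch : Orthonormal ℂ (fun θ : Circle => emb M (ch θ)) := by
  classical
  rw [orthonormal_iff_ite]
  intro θ η
  rw [inner_emb, star_ch_mul]
  split_ifs with h
  · subst h; rw [inv_mul_cancel, ch_one, M.one]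
  · apply m_ch
    intro h2; apply h
    exact (inv_mul_eq_one.1 h2)

/-- the closed span of the characters -/
noncomputable def Cc : Submodule ℂ (H M) :=
  (Submodule.span ℂ (Set.range (fun θ : Circle => emb M (ch θ)))).topologicalClosure

instance : CompleteSpace (Cc M) := by
  unfold Cc; infer_instance

end Pool.Agent.W92_MP_94b3e1_an
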