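import Pool.Agent.W92_MP_94b3e1_an.Hfun

set_option autoImplicit false

open Filter Topology
open scoped ComplexConjugate InnerProductSpace

namespace Pool.Agent.W92_MP_94b3e1_an

variable (M : Mean)

/-- Fourier coefficient -/
noncomputable def fc (f : BF) (θ : Circle) : ℂ := ⟪emb M (ch θ), emb M f⟫_ℂ

lemma fc_eq (f : BF) (θ : Circle) : fc M f θ = M.m (star (ch θ) * f) := by rw [fc, inner_emb]

lemma emb_ch_mem (θ : Circle) : emb M (ch θ) ∈ Cc M := by
  have := emb_tp_mem M {θ} (fun _ => 1)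
  simpa [tp] using this

/-- the Fourier partial sums are best approximations -/
lemma fc_best (f : BF) (F₀ F : Finset Circle) (hF : F₀ ⊆ F) (a : Circle → ℂ) :
    ‖pr M (emb M f) - emb M (tp F (fc M f))‖ ≤ ‖pr M (emb M f) - emb M (tp F₀ a)‖ := by
  classical
  set x := pr M (emb M f) - emb M (tp F (fc M f)) with hx
  have h0 : ∀ θ ∈ F, ⟪emb M (ch θ), x⟫_ℂ = 0 := by
    intro θ hθ
    rw [hx, inner_sub_right, inner_pr M _ (emb_ch_mem M θ), tp, map_sum]
    simp only [map_smul]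
    have h1 := (orthonormal_ch M).inner_right_sum (fc M f) hθ
    rw [h1, fc, sub_self]
  set y := emb M (tp F (fc M f)) - emb M (tp F₀ a) with hy
  have h1 : ⟪x, y⟫_ℂ = 0 := by
    have h2 : ∀ (F' : Finset Circle) (b : Circle → ℂ), F' ⊆ F → ⟪x, emb M (tp F' b)⟫_ℂ = 0 := by
      intro F' b hF'
      rw [tp, map_sum, inner_sum]
      apply Finset.sum_eq_zero
      intro θ hθ
      rw [map_smul, inner_smul_right, ← inner_conj_symm, h0 θ (hF' hθ)]; simp
    rw [hy, inner_sub_right, h2 F _ subset_rfl, h2 F₀ a hF, sub_self]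
  have h3 : pr M (emb M f) - emb M (tp F₀ a) = x + y := by rw [hx, hy]; abel
  rw [h3]
  have h4 := norm_add_sq_eq_norm_sq_add_norm_sq_of_inner_eq_zero x y h1
  nlinarith [norm_nonneg x, norm_nonneg y, norm_nonneg (x + y), sq_nonneg ‖y‖]

lemma m_ind_ch (A : Set ℤ) (θ : Circle) : M.m (ind A * ch θ) = conj (fc M (ind A) θ) := by
  rw [fc, inner_conj_symm, inner_emb, (isNN_ind A).star_eq]

theorem exists_hh_pos (A B : Set ℤ) (hA : 0 < (M.m (ind A)).re) (hB : 0 < (M.m (ind B)).re) :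
    ∃ u ∈ A, ∃ v ∈ B, 0 < hh M (ind A) (ind B) (u - v) := by
  classical
  by_contra hcon
  push Not at hcon
  set α := (M.m (ind A)).re with hα
  set β := (M.m (ind B)).re with hβ
  set ε := α * β / 2 with hε
  have hε0 : 0 < ε := by positivity
  set c := fc M (ind A) with hc
  set d := fc M (ind B) with hd
  obtain ⟨F₀, a₀, hF₀⟩ := exists_tp M _ (pr_mem M (emb M (ind A))) ε hε0
  set F := insert 1 F₀ with hF
  have hbest : ‖pr M (emb M (ind A)) - emb M (tp F c)‖ ≤ ε :=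
    (fc_best M (ind A) F₀ F (Finset.subset_insert _ _) a₀).trans hF₀.le
  have happ : ∀ u ∈ A, ∀ v ∈ B, (∑ θ ∈ F, c θ * (θ : ℂ) ^ (u - v) * conj (d θ)).re ≤ ε := by
    intro u hu v hv
    have h1 := hh_approx M (ind A) (ind B) F c ε hbest (u - v)
    rw [inner_T_tp] at h1
    have h2 : ‖emb M (ind B)‖ ≤ 1 := (norm_emb_le M _).trans (norm_ind_le B)
    have h3 := hcon u hu v hv
    have h4 : ∀ θ, ⟪emb M (ind B), emb M (ch θ)⟫_ℂ = conj (d θ) := by
      intro θ; rw [hd, fc, inner_conj_symm]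
    simp only [h4] at h1
    have h5 := (abs_le.1 h1).1
    nlinarith
  have hP : ∀ u ∈ A, (tp F (fun θ => c θ * (conj (d θ) * d θ)) u).re ≤ ε * β := by
    intro u hu
    set k : BF := ∑ θ ∈ F, (c θ * (θ : ℂ) ^ u * conj (d θ)) • star (ch θ) with hk
    have hkv : ∀ v, k v = ∑ θ ∈ F, c θ * (θ : ℂ) ^ (u - v) * conj (d θ) := by
      intro v
      rw [hk, BoundedContinuousFunction.coe_sum, Finset.sum_apply]
      apply Finset.sum_congr rfl
      intro θ _
      show (c θ * (θ : ℂ) ^ u * conj (d θ)) * star ((θ : ℂ) ^ v) = _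
      have : star ((θ : ℂ) ^ v) = (θ : ℂ) ^ (-v) := by
        rw [star_zpow₀, zpow_neg, ← inv_zpow]
        congr 1
        rw [← Circle.coe_inv, Circle.coe_inv_eq_conj]; rfl
      rw [this, sub_eq_add_neg, zpow_add₀ (Circle.coe_ne_zero θ)]; ring
    have h1 : M.m (ind B * k) = tp F (fun θ => c θ * (conj (d θ) * d θ)) u := by
      rw [hk, Finset.mul_sum, map_sum, tp_apply]
      apply Finset.sum_congr rfl
      intro θ _
      rw [mul_smul_comm, map_smul, smul_eq_mul, mul_comm (ind B), ← fc_eq]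
      ring
    rw [← h1]
    have h2 : (M.m (ind B * k)).re ≤ (M.m (((ε : ℝ) : ℂ) • ind B)).re := by
      apply M.mono
      intro v
      show (ind B v * k v).re ≤ (((ε : ℝ) : ℂ) * ind B v).re
      by_cases hv : v ∈ B
      · rw [ind_mem hv, one_mul, mul_one, Complex.ofReal_re, hkv]
        exact happ u hu v hv
      · rw [ind_not_mem hv]; simp
    rw [map_smul, smul_eq_mul, Complex.re_ofReal_mul] at h2
    exact h2
  have h1 : M.m (ind A * tp F (fun θ => c θ * (conj (d θ) * d θ)))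
      = ((∑ θ ∈ F, ‖c θ‖ ^ 2 * ‖d θ‖ ^ 2 : ℝ) : ℂ) := by
    rw [tp, Finset.mul_sum, map_sum]
    push_cast
    apply Finset.sum_congr rfl
    intro θ _
    rw [mul_smul_comm, map_smul, smul_eq_mul, m_ind_ch, ← hc]
    have e1 := Complex.mul_conj' (c θ)
    have e2 := Complex.conj_mul' (d θ)
    rw [e2, ← e1]
    ring
  have h2 : (M.m (ind A * tp F (fun θ => c θ * (conj (d θ) * d θ)))).re
      ≤ (M.m (((ε * β : ℝ) : ℂ) • ind A)).re := by
    apply M.mono
    intro u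
    show (ind A u * _).re ≤ (((ε * β : ℝ) : ℂ) * ind A u).re
    by_cases hu : u ∈ A
    · rw [ind_mem hu, one_mul, mul_one, Complex.ofReal_re]
      exact hP u hu
    · rw [ind_not_mem hu]; simp
  rw [map_smul, smul_eq_mul, Complex.re_ofReal_mul, ← hα, h1, Complex.ofReal_re] at h2
  have h3 : ‖c 1‖ ^ 2 * ‖d 1‖ ^ 2 ≤ ∑ θ ∈ F, ‖c θ‖ ^ 2 * ‖d θ‖ ^ 2 :=
    Finset.single_le_sum (f := fun θ => ‖c θ‖ ^ 2 * ‖d θ‖ ^ 2) (fun θ _ => by positivity)
      (Finset.mem_insert_self _ _)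
  have h4 : ∀ C : Set ℤ, fc M (ind C) 1 = M.m (ind C) := by
    intro C
    rw [fc_eq, ch_one, star_one, one_mul]
  have h5 : α ≤ ‖c 1‖ := by rw [hc, h4]; exact Complex.re_le_norm _
  have h6 : β ≤ ‖d 1‖ := by rw [hd, h4]; exact Complex.re_le_norm _
  have h7 : α ^ 2 ≤ ‖c 1‖ ^ 2 := pow_le_pow_left₀ hA.le h5 2
  have h8 : β ^ 2 ≤ ‖d 1‖ ^ 2 := pow_le_pow_left₀ hB.le h6 2
  have h9 : α ^ 2 * β ^ 2 ≤ ‖c 1‖ ^ 2 * ‖d 1‖ ^ 2 := mul_le_mul h7 h8 (by positivity) (by positivity)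
  have h10 : 0 < α ^ 2 * β ^ 2 := by positivity
  have h11 : ε * β * α = α ^ 2 * β ^ 2 / 2 := by rw [hε]; ring
  linarith

end Pool.Agent.W92_MP_94b3e1_an
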