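import Pool.Agent.W92_MP_94b3e1_an.Spectral

set_option autoImplicit false

open Filter Topology
open scoped ComplexConjugate InnerProductSpace

namespace Pool.Agent.W92_MP_94b3e1_an

variable (M : Mean)

lemma Mean.nonneg' (f : BF) (h : ∀ n, (f n).im = 0 ∧ 0 ≤ (f n).re) : 0 ≤ (M.m f).re :=
  (M.eq_re_of_nonneg f h).2

lemma Mean.re_nonneg (f : BF) (h : ∀ n, 0 ≤ (f n).re) : 0 ≤ (M.m f).re := by
  have h1 : M.m (f + star f) = ((2 * (M.m f).re : ℝ) : ℂ) := by
    rw [map_add, M.map_star, Complex.add_conj]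
  have h2 := M.nonneg' (f + star f) (by
    intro n
    simp only [BoundedContinuousFunction.coe_add, Pi.add_apply,
      BoundedContinuousFunction.coe_star, Pi.star_apply]
    constructor
    · simp
    · have := h n
      simp; linarith)
  rw [h1, Complex.ofReal_re] at h2
  linarith

lemma Mean.mono (f g : BF) (h : ∀ n, (f n).re ≤ (g n).re) : (M.m f).re ≤ (M.m g).re := by
  have := M.re_nonneg (g - f) (by intro n; simpa using h n)
  rw [map_sub, Complex.sub_re] at this
  linarith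

lemma ofReal_smul_one_apply (c : ℝ) (n : ℤ) : (((c : ℝ) : ℂ) • (1 : BF)) n = (c : ℂ) := by
  show (c : ℂ) * 1 = c
  rw [mul_one]

lemma Mean.norm_le_const (f : BF) (C : ℝ) (h : ∀ n, ‖f n‖ ≤ C) : ‖M.m f‖ ≤ C := by
  have := M.dom f (((C : ℝ) : ℂ) • (1 : BF)) (by
    intro n; rw [ofReal_smul_one_apply, Complex.ofReal_re]; exact h n)
  rw [map_smul, M.one, smul_eq_mul, mul_one, Complex.ofReal_re] at this
  exact this

lemma Mean.re_le_const (f : BF) (C : ℝ) (h : ∀ n, (f n).re ≤ C) : (M.m f).re ≤ C := by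
  have := M.mono f (((C : ℝ) : ℂ) • (1 : BF)) (by
    intro n; rw [ofReal_smul_one_apply, Complex.ofReal_re]; exact h n)
  rw [map_smul, M.one, smul_eq_mul, mul_one, Complex.ofReal_re] at this
  exact this

lemma norm_m_le_emb (f : BF) : ‖M.m f‖ ≤ ‖emb M f‖ := by
  have h : M.m f = ⟪emb M 1, emb M f⟫_ℂ := by rw [inner_emb]; simp
  rw [h]
  refine (norm_inner_le_norm _ _).trans ?_
  have h1 : ‖emb M 1‖ ≤ 1 := (norm_emb_le M 1).trans (by simp)
  nlinarith [norm_nonneg (emb M f), norm_nonneg (emb M 1)]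

/-! ### trigonometric polynomials -/

/-- trigonometric polynomials -/
noncomputable def tp (F : Finset Circle) (a : Circle → ℂ) : BF := ∑ θ ∈ F, a θ • ch θ

lemma tp_apply (F : Finset Circle) (a : Circle → ℂ) (n : ℤ) :
    tp F a n = ∑ θ ∈ F, a θ * (θ : ℂ) ^ n := by
  rw [tp, BoundedContinuousFunction.coe_sum, Finset.sum_apply]; rfl

lemma emb_tp_mem (F : Finset Circle) (a : Circle → ℂ) : emb M (tp F a) ∈ Cc M := by
  rw [tp, map_sum]
  apply Submodule.sum_mem
  intro θ _
  rw [map_smul]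
  exact Submodule.smul_mem _ _ (Submodule.le_topologicalClosure _ (Submodule.subset_span ⟨θ, rfl⟩))

/-- density of the trigonometric polynomials in `Cc` -/
lemma exists_tp (x : H M) (hx : x ∈ Cc M) (ε : ℝ) (hε : 0 < ε) :
    ∃ (F : Finset Circle) (a : Circle → ℂ), ‖x - emb M (tp F a)‖ < ε := by
  unfold Cc at hx
  rw [← SetLike.mem_coe, Submodule.topologicalClosure_coe, Metric.mem_closure_iff] at hx
  obtain ⟨y, hy, hxy⟩ := hx ε hε
  have : ∃ (F : Finset Circle) (a : Circle → ℂ), y = emb M (tp F a) := by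
    classical
    rw [SetLike.mem_coe, Finsupp.mem_span_range_iff_exists_finsupp] at hy
    obtain ⟨c, rfl⟩ := hy
    refine ⟨c.support, c, ?_⟩
    rw [tp, map_sum, Finsupp.sum]
    apply Finset.sum_congr rfl
    intro θ _
    rw [map_smul]
  obtain ⟨F, a, rfl⟩ := this
  exact ⟨F, a, by rwa [dist_eq_norm] at hxy⟩

/-- projection to the characters -/
noncomputable def pr : H M →L[ℂ] H M := (Cc M).starProjection

lemma pr_mem (x : H M) : pr M x ∈ Cc M := Submodule.starProjection_apply_mem _ _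

lemma pr_eq {x : H M} (hx : x ∈ Cc M) : pr M x = x := Submodule.starProjection_eq_self_iff.2 hx

lemma inner_pr {x : H M} (y : H M) (hx : x ∈ Cc M) : ⟪x, pr M y⟫_ℂ = ⟪x, y⟫_ℂ := by
  have h : ⟪x, y - pr M y⟫_ℂ = 0 :=
    Submodule.inner_right_of_mem_orthogonal hx (Submodule.sub_starProjection_mem_orthogonal y)
  rw [inner_sub_right, sub_eq_zero] at h
  exact h.symm

lemma norm_pr_le (x : H M) : ‖pr M x‖ ≤ ‖x‖ := Submodule.norm_starProjection_apply_le _ _

/-! ### the kernel -/

/-- `G f r u = m_d [ f d * r (d - u) ]` -/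
noncomputable def G (f r : BF) : BF :=
  bf (fun u => M.m (f * sh (-u) r)) (‖f‖ * ‖r‖) (by
    intro u
    refine (norm_m_le M _).trans ((norm_mul_le _ _).trans ?_)
    apply mul_le_mul_of_nonneg_left _ (norm_nonneg _)
    rw [BoundedContinuousFunction.norm_le (norm_nonneg _)]
    intro n
    exact r.norm_coe_le_norm _)

@[simp] lemma G_apply (f r : BF) (u : ℤ) : G M f r u = M.m (f * sh (-u) r) := rfl

lemma G_inner (f r : BF) (u : ℤ) (hr : star r = r) : G M f r u = ⟪T M (-u) (emb M r), emb M f⟫_ℂ := by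
  rw [T_emb, inner_emb, G_apply]; congr 1
  ext n
  have h := congrArg (fun g : BF => g (n + -u)) hr
  simp only [BoundedContinuousFunction.coe_star, Pi.star_apply] at h
  simp only [BoundedContinuousFunction.coe_mul, Pi.mul_apply, sh_apply,
    BoundedContinuousFunction.coe_star, Pi.star_apply]
  rw [h, mul_comm]

lemma G_norm_le (f r : BF) (u : ℤ) : ‖G M f r u‖ ≤ ‖f‖ * ‖emb M r‖ := by
  have : G M f r u = ⟪emb M (star f), T M (-u) (emb M r)⟫_ℂ := by
    rw [T_emb, inner_emb, G_apply, star_star]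
  rw [this]
  refine (norm_inner_le_norm _ _).trans ?_
  rw [norm_T]
  apply mul_le_mul_of_nonneg_right _ (norm_nonneg _)
  exact (norm_emb_le M _).trans (by rw [norm_star])

lemma G_add_right (f r s : BF) : G M f (r + s) = G M f r + G M f s := by
  ext u
  simp only [G_apply, BoundedContinuousFunction.coe_add, Pi.add_apply]
  rw [← map_add, ← mul_add]; rfl

lemma G_sub_right (f r s : BF) : G M f (r - s) = G M f r - G M f s := by
  ext u
  simp only [G_apply, BoundedContinuousFunction.coe_sub, Pi.sub_apply]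
  rw [← map_sub, ← mul_sub]; rfl

lemma G_sub_left (f g r : BF) : G M (f - g) r = G M f r - G M g r := by
  ext u
  simp only [G_apply, BoundedContinuousFunction.coe_sub, Pi.sub_apply]
  rw [← map_sub, ← sub_mul]

lemma G_ch_right (f : BF) (θ : Circle) (u : ℤ) : G M f (ch θ) u = (θ : ℂ) ^ (-u) * M.m (f * ch θ) := by
  rw [G_apply, sh_ch, mul_smul_comm, map_smul, smul_eq_mul]

lemma G_ch_left (r : BF) (θ : Circle) (u : ℤ) : G M (ch θ) r u = (θ : ℂ) ^ u * M.m (ch θ * r) := by
  rw [G_apply, ← M.shift u]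
  have : sh u (ch θ * sh (-u) r) = ((θ : ℂ) ^ u) • (ch θ * r) := by
    rw [← smul_mul_assoc, ← sh_ch]
    ext n; simp
  rw [this, map_smul, smul_eq_mul]

/-- Fubini for trigonometric polynomials -/
lemma fubini_tp (W : BF) (F : Finset Circle) (a : Circle → ℂ) :
    M.m (G M W (tp F a)) = M.m W * M.m (tp F a) := by
  have h1 : G M W (tp F a) = ∑ θ ∈ F, (a θ * M.m (W * ch θ)) • ch θ⁻¹ := by
    ext u
    rw [G_apply, tp]
    have : sh (-u) (∑ θ ∈ F, a θ • ch θ) = ∑ θ ∈ F, a θ • sh (-u) (ch θ) := by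
      ext n
      simp [BoundedContinuousFunction.coe_sum, Finset.sum_apply]
    rw [this, Finset.mul_sum, map_sum, BoundedContinuousFunction.coe_sum, Finset.sum_apply]
    apply Finset.sum_congr rfl
    intro θ _
    rw [sh_ch, mul_smul_comm, mul_smul_comm, map_smul, map_smul]
    show a θ * ((θ : ℂ) ^ (-u) * M.m (W * ch θ)) = (a θ * M.m (W * ch θ)) * ((θ⁻¹ : Circle) : ℂ) ^ u
    rw [Circle.coe_inv, zpow_neg, inv_zpow]; ring
  rw [h1, map_sum, tp, map_sum, Finset.mul_sum]
  apply Finset.sum_congr rfl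
  intro θ _
  rw [map_smul, map_smul, smul_eq_mul, smul_eq_mul]
  by_cases h : θ = 1
  · rw [h, inv_one, ch_one, M.one, mul_one, mul_one]; ring
  · rw [m_ch M θ h, m_ch M θ⁻¹ (by simpa using h)]; ring

/-- Fubini for kernels in the span of the characters -/
lemma fubini (W r : BF) (hr : emb M r ∈ Cc M) : M.m (G M W r) = M.m W * M.m r := by
  have key : ∀ ε : ℝ, 0 < ε → ‖M.m (G M W r) - M.m W * M.m r‖ ≤ 0 + (2 * ‖W‖) * ε := by
    intro ε hε
    obtain ⟨F, a, hF⟩ := exists_tp M (emb M r) hr ε hε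
    rw [← map_sub] at hF
    have h1 : M.m (G M W r) - M.m W * M.m r
        = M.m (G M W (r - tp F a)) - M.m W * M.m (r - tp F a) := by
      rw [G_sub_right, map_sub, map_sub, fubini_tp]; ring
    rw [h1]
    refine (norm_sub_le _ _).trans ?_
    have h2 : ‖M.m (G M W (r - tp F a))‖ ≤ ‖W‖ * ε := by
      apply M.norm_le_const
      intro u
      exact (G_norm_le M _ _ _).trans (mul_le_mul_of_nonneg_left hF.le (norm_nonneg _))
    have h3 : ‖M.m W * M.m (r - tp F a)‖ ≤ ‖W‖ * ε := by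
      rw [norm_mul]
      exact mul_le_mul (norm_m_le M _) ((norm_m_le_emb M _).trans hF.le) (norm_nonneg _) (norm_nonneg _)
    linarith
  have : ‖M.m (G M W r) - M.m W * M.m r‖ ≤ 0 := by
    by_contra hcon
    push Not at hcon
    have h1 := key (‖M.m (G M W r) - M.m W * M.m r‖ / (2 * (2 * ‖W‖ + 1))) (by positivity)
    rw [zero_add] at h1
    set x := ‖M.m (G M W r) - M.m W * M.m r‖ with hx
    have h2 : 2 * ‖W‖ * (x / (2 * (2 * ‖W‖ + 1))) ≤ x / 2 := by
      rw [mul_div_assoc', div_le_div_iff₀ (by positivity) (by norm_num)]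
      nlinarith [norm_nonneg W]
    linarith
  exact sub_eq_zero.1 (norm_le_zero_iff.1 this)

end Pool.Agent.W92_MP_94b3e1_an
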