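import Pool.Agent.W92_MP_94b3e1_an.Kernel

set_option autoImplicit false

open Filter Topology
open scoped ComplexConjugate InnerProductSpace

namespace Pool.Agent.W92_MP_94b3e1_an

variable (M : Mean)

lemma amgm (x c a b : ℝ) (hc : 0 ≤ c) (ha : 0 ≤ a) (hb : 0 ≤ b)
    (h : ∀ l : ℝ, 0 < l → x ≤ c / 2 * (l * a ^ 2 + l⁻¹ * b ^ 2)) : x ≤ c * (a * b) := by
  have h1 : ∀ ε : ℝ, 0 < ε → x ≤ c * ((a + ε) * (b + ε)) := by
    intro ε hε
    have hl : 0 < (b + ε) / (a + ε) := by positivity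
    refine (h _ hl).trans ?_
    have h2 : (b + ε) / (a + ε) * a ^ 2 ≤ (a + ε) * (b + ε) := by
      rw [div_mul_eq_mul_div, div_le_iff₀ (by positivity)]
      have : a ^ 2 ≤ (a + ε) * (a + ε) := by nlinarith
      nlinarith [mul_le_mul_of_nonneg_left this (by positivity : (0:ℝ) ≤ b + ε)]
    have h3 : ((b + ε) / (a + ε))⁻¹ * b ^ 2 ≤ (a + ε) * (b + ε) := by
      rw [inv_div, div_mul_eq_mul_div, div_le_iff₀ (by positivity)]
      have : b ^ 2 ≤ (b + ε) * (b + ε) := by nlinarith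
      nlinarith [mul_le_mul_of_nonneg_left this (by positivity : (0:ℝ) ≤ a + ε)]
    nlinarith
  have h4 : Tendsto (fun ε : ℝ => c * ((a + ε) * (b + ε))) (𝓝[>] 0) (𝓝 (c * (a * b))) := by
    have : Continuous (fun ε : ℝ => c * ((a + ε) * (b + ε))) := by fun_prop
    have h5 := this.tendsto 0
    simp only [add_zero] at h5
    exact h5.mono_left nhdsWithin_le_nhds
  exact ge_of_tendsto h4 (eventually_nhdsWithin_of_forall (fun ε hε => h1 ε hε))

/-- nonnegative real functions -/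
def IsNN (f : BF) : Prop := ∀ n, (f n).im = 0 ∧ 0 ≤ (f n).re

lemma IsNN.star_eq {f : BF} (h : IsNN f) : star f = f := by
  ext n
  simp only [BoundedContinuousFunction.coe_star, Pi.star_apply]
  apply Complex.ext
  · simp
  · simp [(h n).1]

lemma IsNN.eq_re {f : BF} (h : IsNN f) (n : ℤ) : f n = ((f n).re : ℂ) := by
  apply Complex.ext <;> simp [(h n).1]

lemma IsNN.norm {f : BF} (h : IsNN f) (n : ℤ) : ‖f n‖ = (f n).re := by
  rw [h.eq_re n, Complex.norm_real, Complex.ofReal_re, Real.norm_of_nonneg (h n).2]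

lemma IsNN.m_eq {f : BF} (h : IsNN f) : M.m f = ((M.m f).re : ℂ) := (M.eq_re_of_nonneg f h).1
lemma IsNN.m_nonneg {f : BF} (h : IsNN f) : 0 ≤ (M.m f).re := (M.eq_re_of_nonneg f h).2

lemma star_mul_self_apply (f : BF) (n : ℤ) : (star f * f) n = ((‖f n‖ ^ 2 : ℝ) : ℂ) := by
  simp [Complex.conj_mul']

lemma isNN_star_mul_self (f : BF) : IsNN (star f * f) := by
  intro n
  rw [star_mul_self_apply]
  exact ⟨Complex.ofReal_im _, by rw [Complex.ofReal_re]; positivity⟩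

lemma IsNN.sh {f : BF} (h : IsNN f) (k : ℤ) : IsNN (sh k f) := fun n => h (n + k)

lemma IsNN.mul {f g : BF} (hf : IsNN f) (hg : IsNN g) : IsNN (f * g) := by
  intro n
  have h1 := hf n; have h2 := hg n
  constructor
  · simp [Complex.mul_im, h1.1, h2.1]
  · simp only [BoundedContinuousFunction.coe_mul, Pi.mul_apply, Complex.mul_re, h1.1, h2.1, mul_zero, sub_zero]
    exact mul_nonneg h1.2 h2.2

lemma IsNN.G {f r : BF} (hf : IsNN f) (hr : IsNN r) : IsNN (G M f r) := by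
  intro u
  rw [G_apply]
  have := (hf.mul (hr.sh (-u)))
  rw [this.m_eq M]
  exact ⟨Complex.ofReal_im _, by rw [Complex.ofReal_re]; exact this.m_nonneg M⟩

lemma schur (g f r : BF) (hr0 : IsNN r) (hr : emb M r ∈ Cc M) (s : ℤ) :
    ‖M.m (star g * sh s (G M f r))‖ ≤ (M.m r).re * (‖emb M g‖ * ‖emb M f‖) := by
  apply amgm _ _ _ _ (hr0.m_nonneg M) (norm_nonneg _) (norm_nonneg _)
  intro l hl
  set Bd : BF := ((l / 2 * (M.m r).re : ℝ) : ℂ) • (star g * g)
    + ((l⁻¹ / 2 : ℝ) : ℂ) • sh s (G M (star f * f) r) with hBd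
  have h1 : ‖M.m (star g * sh s (G M f r))‖ ≤ (M.m Bd).re := by
    apply M.dom
    intro u
    set k : ℤ := -(u + s) with hk
    set B : BF := ((l / 2 * ‖g u‖ ^ 2 : ℝ) : ℂ) • sh k r
      + ((l⁻¹ / 2 : ℝ) : ℂ) • (star f * f * sh k r) with hB
    have e1 : (star g * sh s (G M f r)) u = M.m ((conj (g u)) • (f * sh k r)) := by
      rw [map_smul]; rfl
    have e2 : (Bd u).re = (M.m B).re := by
      rw [hBd, hB, map_add, map_smul, map_smul, M.shift]
      show ((((l / 2 * (M.m r).re : ℝ) : ℂ)) * (star g * g) u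
        + ((l⁻¹ / 2 : ℝ) : ℂ) * M.m (star f * f * sh k r)).re = _
      rw [star_mul_self_apply, hr0.m_eq M, smul_eq_mul, smul_eq_mul]
      congr 2
      rw [Complex.ofReal_re]; push_cast; ring
    rw [e1, e2]
    apply M.dom
    intro n
    show ‖conj (g u) * (f n * sh k r n)‖ ≤ (((l / 2 * ‖g u‖ ^ 2 : ℝ) : ℂ) * sh k r n
      + ((l⁻¹ / 2 : ℝ) : ℂ) * ((star f * f) n * sh k r n)).re
    rw [star_mul_self_apply, (hr0.sh k).eq_re n, norm_mul, norm_mul, Complex.norm_conj,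
      Complex.norm_real, Real.norm_of_nonneg ((hr0.sh k) n).2]
    set x := (sh k r n).re with hx
    have hx0 : 0 ≤ x := ((hr0.sh k) n).2
    have : (((l / 2 * ‖g u‖ ^ 2 : ℝ) : ℂ) * (x : ℂ) + ((l⁻¹ / 2 : ℝ) : ℂ) * (((‖f n‖ ^ 2 : ℝ) : ℂ) * (x : ℂ))).re
        = (l / 2 * ‖g u‖ ^ 2 + l⁻¹ / 2 * ‖f n‖ ^ 2) * x := by
      rw [← Complex.ofReal_mul, ← Complex.ofReal_mul, ← Complex.ofReal_mul, ← Complex.ofReal_add,
        Complex.ofReal_re]; ring
    rw [this]
    have h5 : ‖g u‖ * ‖f n‖ ≤ l / 2 * ‖g u‖ ^ 2 + l⁻¹ / 2 * ‖f n‖ ^ 2 := by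
      have h6 : 0 ≤ l⁻¹ / 2 * (l * ‖g u‖ - ‖f n‖) ^ 2 := by positivity
      have h7 : l⁻¹ / 2 * (l * ‖g u‖ - ‖f n‖) ^ 2
          = l / 2 * ‖g u‖ ^ 2 + l⁻¹ / 2 * ‖f n‖ ^ 2 - ‖g u‖ * ‖f n‖ := by
        field_simp; ring
      linarith
    calc ‖g u‖ * (‖f n‖ * x) = (‖g u‖ * ‖f n‖) * x := by ring
      _ ≤ _ := mul_le_mul_of_nonneg_right h5 hx0
  refine h1.trans (le_of_eq ?_)
  rw [hBd, map_add, map_smul, map_smul, M.shift, fubini M _ r hr, smul_eq_mul, smul_eq_mul,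
    norm_emb_sq, norm_emb_sq, (isNN_star_mul_self g).m_eq M, (isNN_star_mul_self f).m_eq M,
    hr0.m_eq M]
  simp only [Complex.ofReal_re]
  rw [← Complex.ofReal_mul, ← Complex.ofReal_mul, ← Complex.ofReal_mul, ← Complex.ofReal_add,
    Complex.ofReal_re]
  ring

/-- the refined Schur bound -/
lemma schur_pr (g f r : BF) (hr0 : IsNN r) (hr : emb M r ∈ Cc M) (s : ℤ) :
    ‖M.m (star g * sh s (G M f r))‖ ≤ (M.m r).re * (‖emb M g‖ * ‖pr M (emb M f)‖) := by
  have key : ∀ ε : ℝ, 0 < ε → ‖M.m (star g * sh s (G M f r))‖ ≤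
      (M.m r).re * (‖emb M g‖ * (‖pr M (emb M f)‖ + ε)) + ‖g‖ * (‖emb M r‖ * ε) := by
    intro ε hε
    obtain ⟨F, a, hF⟩ := exists_tp M _ (pr_mem M (emb M f)) ε hε
    set p := tp F a with hp
    have h1 : M.m (star g * sh s (G M f r)) = M.m (star g * sh s (G M p r))
        + M.m (star g * sh s (G M (f - p) r)) := by
      rw [G_sub_left, ← map_add, ← mul_add]; congr 2
      ext n; simp
    rw [h1]
    refine (norm_add_le _ _).trans (add_le_add ?_ ?_)
    · refine (schur M g p r hr0 hr s).trans ?_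
      apply mul_le_mul_of_nonneg_left _ (hr0.m_nonneg M)
      apply mul_le_mul_of_nonneg_left _ (norm_nonneg _)
      have : emb M p = pr M (emb M f) - (pr M (emb M f) - emb M p) := by abel
      rw [this]
      refine (norm_sub_le _ _).trans (by linarith)
    · apply M.norm_le_const
      intro u
      show ‖star (g u) * G M (f - p) r (u + s)‖ ≤ _
      rw [norm_mul, norm_star]
      apply mul_le_mul (g.norm_coe_le_norm u) _ (norm_nonneg _) (norm_nonneg _)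
      rw [G_inner M _ _ _ hr0.star_eq, map_sub]
      have h2 : ⟪T M (-(u + s)) (emb M r), emb M f - emb M p⟫_ℂ
          = ⟪T M (-(u + s)) (emb M r), pr M (emb M f) - emb M p⟫_ℂ := by
        rw [inner_sub_right, inner_sub_right, inner_pr M _ (T_Cc M _ hr)]
      rw [h2]
      refine (norm_inner_le_norm _ _).trans ?_
      rw [norm_T]
      exact mul_le_mul_of_nonneg_left hF.le (norm_nonneg _)
  have h4 : Tendsto (fun ε : ℝ => (M.m r).re * (‖emb M g‖ * (‖pr M (emb M f)‖ + ε))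
      + ‖g‖ * (‖emb M r‖ * ε)) (𝓝[>] 0)
      (𝓝 ((M.m r).re * (‖emb M g‖ * ‖pr M (emb M f)‖))) := by
    have : Continuous (fun ε : ℝ => (M.m r).re * (‖emb M g‖ * (‖pr M (emb M f)‖ + ε))
      + ‖g‖ * (‖emb M r‖ * ε)) := by fun_prop
    have h5 := this.tendsto 0
    simp only [add_zero, mul_zero] at h5
    exact h5.mono_left nhdsWithin_le_nhds
  exact ge_of_tendsto h4 (eventually_nhdsWithin_of_forall (fun ε hε => key ε hε))

/-- support condition: `r` lives on almost periods of the characters in `F` -/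
def SuppIn (r : BF) (F : Finset Circle) (η : ℝ) : Prop :=
  ∀ n, r n ≠ 0 → ∀ θ ∈ F, ‖(θ : ℂ) ^ n - 1‖ ≤ η

lemma m_ch_mul_sub (r : BF) (hr0 : IsNN r) (F : Finset Circle) (η : ℝ) (_hη : 0 ≤ η)
    (hs : SuppIn r F η) (θ : Circle) (hθ : θ ∈ F) :
    ‖M.m (ch θ * r) - M.m r‖ ≤ η * (M.m r).re := by
  have h1 : M.m (ch θ * r) - M.m r = M.m ((ch θ - 1) * r) := by
    rw [← map_sub, sub_mul, one_mul]
  have h2 : η * (M.m r).re = (M.m (((η : ℝ) : ℂ) • r)).re := by
    rw [map_smul, smul_eq_mul, Complex.re_ofReal_mul]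
  rw [h1, h2]
  apply M.dom
  intro n
  show ‖((θ : ℂ) ^ n - 1) * r n‖ ≤ (((η : ℝ) : ℂ) * r n).re
  rw [norm_mul, Complex.re_ofReal_mul, hr0.norm n]
  by_cases h : r n = 0
  · rw [h]; simp
  · exact mul_le_mul_of_nonneg_right (hs n h θ hθ) (hr0 n).2

lemma G_tp_sub (r : BF) (hr0 : IsNN r) (F : Finset Circle) (a : Circle → ℂ) (η : ℝ) (hη : 0 ≤ η)
    (hs : SuppIn r F η) (u : ℤ) :
    ‖G M (tp F a) r u - M.m r * tp F a u‖ ≤ (M.m r).re * (η * ∑ θ ∈ F, ‖a θ‖) := by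
  have h1 : G M (tp F a) r u = ∑ θ ∈ F, a θ * ((θ : ℂ) ^ u * M.m (ch θ * r)) := by
    rw [G_apply, tp, Finset.sum_mul, map_sum]
    apply Finset.sum_congr rfl
    intro θ _
    rw [smul_mul_assoc, map_smul, smul_eq_mul, ← G_ch_left, G_apply]
  rw [h1, tp_apply, Finset.mul_sum, ← Finset.sum_sub_distrib]
  refine (norm_sum_le _ _).trans ?_
  rw [Finset.mul_sum, Finset.mul_sum]
  apply Finset.sum_le_sum
  intro θ hθ
  have h2 : a θ * ((θ : ℂ) ^ u * M.m (ch θ * r)) - M.m r * (a θ * (θ : ℂ) ^ u)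
      = a θ * (θ : ℂ) ^ u * (M.m (ch θ * r) - M.m r) := by ring
  rw [h2, norm_mul, norm_mul, norm_zpow, Circle.norm_coe, one_zpow, mul_one]
  have := m_ch_mul_sub M r hr0 F η hη hs θ hθ
  calc ‖a θ‖ * ‖M.m (ch θ * r) - M.m r‖ ≤ ‖a θ‖ * (η * (M.m r).re) :=
        mul_le_mul_of_nonneg_left this (norm_nonneg _)
    _ = (M.m r).re * (η * ‖a θ‖) := by ring

/-- **Key estimate.** -/
theorem key_estimate (g f r : BF) (hr0 : IsNN r) (hr : emb M r ∈ Cc M) (s : ℤ)
    (F : Finset Circle) (a : Circle → ℂ) (η : ℝ) (hη : 0 ≤ η) (hs : SuppIn r F η) :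
    ‖M.m (star g * sh s (G M f r)) - M.m r * M.m (star g * sh s (tp F a))‖ ≤
      (M.m r).re * (‖emb M g‖ * ‖pr M (emb M f) - emb M (tp F a)‖
        + ‖g‖ * (η * ∑ θ ∈ F, ‖a θ‖)) := by
  set p := tp F a with hp
  have h1 : M.m (star g * sh s (G M f r)) - M.m r * M.m (star g * sh s p)
      = M.m (star g * sh s (G M (f - p) r)) + M.m (star g * sh s (G M p r - M.m r • p)) := by
    rw [← map_add, ← mul_add]
    have : M.m r * M.m (star g * sh s p) = M.m (star g * sh s (M.m r • p)) := by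
      rw [← smul_eq_mul, ← map_smul]; congr 1
      rw [← mul_smul_comm]; congr 1
    rw [this, ← map_sub, ← mul_sub]; congr 2
    rw [G_sub_left]
    ext n; simp
  rw [h1]
  refine (norm_add_le _ _).trans ?_
  rw [mul_add]
  refine add_le_add ?_ ?_
  · have h2 := schur_pr M g (f - p) r hr0 hr s
    rw [map_sub, map_sub, pr_eq M (emb_tp_mem M F a)] at h2
    exact h2
  · apply M.norm_le_const
    intro u
    show ‖star (g u) * (G M p r (u + s) - M.m r * p (u + s))‖ ≤ _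
    rw [norm_mul, norm_star]
    have h3 := G_tp_sub M r hr0 F a η hη hs (u + s)
    calc ‖g u‖ * ‖G M p r (u + s) - M.m r * p (u + s)‖
        ≤ ‖g‖ * ((M.m r).re * (η * ∑ θ ∈ F, ‖a θ‖)) :=
          mul_le_mul (g.norm_coe_le_norm u) h3 (norm_nonneg _) (norm_nonneg _)
      _ = _ := by ring

end Pool.Agent.W92_MP_94b3e1_an
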