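import Mathlib

set_option autoImplicit false

open Filter Topology BoundedContinuousFunction

namespace Pool.Agent.W92_MP_94b3e1_an

/-- bounded complex functions on the integers -/
abbrev BF := BoundedContinuousFunction ℤ ℂ

/-- a bounded function from a bound -/
noncomputable def bf (f : ℤ → ℂ) (C : ℝ) (h : ∀ n, ‖f n‖ ≤ C) : BF :=
  BoundedContinuousFunction.ofNormedAddCommGroup f continuous_of_discreteTopology C h

@[simp] lemma bf_apply (f : ℤ → ℂ) (C : ℝ) (h : ∀ n, ‖f n‖ ≤ C) (n : ℤ) : bf f C h n = f n := rfl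

/-- shift of a function -/
noncomputable def sh (k : ℤ) (f : BF) : BF :=
  f.compContinuous ⟨fun n => n + k, continuous_of_discreteTopology⟩

@[simp] lemma sh_apply (k : ℤ) (f : BF) (n : ℤ) : sh k f n = f (n + k) := rfl

/-- the indicator function of a set of integers -/
noncomputable def ind (A : Set ℤ) : BF :=
  bf (A.indicator (fun _ => (1 : ℂ))) 1 (by
    intro n
    by_cases h : n ∈ A <;> simp [h])

@[simp] lemma ind_apply (A : Set ℤ) (n : ℤ) : ind A n = A.indicator (fun _ => (1 : ℂ)) n := rfl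

lemma ind_mem {A : Set ℤ} {n : ℤ} (h : n ∈ A) : ind A n = 1 := by simp [h]
lemma ind_not_mem {A : Set ℤ} {n : ℤ} (h : n ∉ A) : ind A n = 0 := by simp [h]

/-- a shift invariant mean on the bounded functions on `ℤ`, concentrated near `+∞` -/
structure Mean where
  m : BF →ₗ[ℂ] ℂ
  dom : ∀ f g : BF, (∀ n, ‖f n‖ ≤ (g n).re) → ‖m f‖ ≤ (m g).re
  one : m 1 = 1
  shift : ∀ (k : ℤ) (f : BF), m (sh k f) = m f
  far : ∀ (D : ℤ) (f : BF), (∀ n, D ≤ n → f n = 0) → m f = 0

namespace Build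

variable (w : ℕ → ℕ → ℕ)

/-- window average -/
noncomputable def avg (w N : ℕ) (f : BF) : ℂ := (N : ℂ)⁻¹ * ∑ i ∈ Finset.range N, f ((w : ℤ) + i)

/-- the weighted average -/
noncomputable def mu (w : ℕ → ℕ → ℕ) (N : ℕ) (f : BF) : ℂ :=
  (∑ k ∈ Finset.range N, ((2:ℂ)⁻¹)^(k+1) * avg (w k N) N f) + ((2:ℂ)⁻¹)^N * avg (w 0 N) N f

lemma avg_add (w N : ℕ) (f g : BF) : avg w N (f + g) = avg w N f + avg w N g := by
  simp [avg, Finset.sum_add_distrib, mul_add]

lemma avg_smul (w N : ℕ) (c : ℂ) (f : BF) : avg w N (c • f) = c * avg w N f := by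
  simp [avg, Finset.mul_sum]; 
  apply Finset.sum_congr rfl; intros; ring

lemma mu_add (N : ℕ) (f g : BF) : mu w N (f + g) = mu w N f + mu w N g := by
  simp only [mu, avg_add, mul_add, Finset.sum_add_distrib]; ring

lemma mu_smul (N : ℕ) (c : ℂ) (f : BF) : mu w N (c • f) = c * mu w N f := by
  simp only [mu, avg_smul, mul_add, Finset.mul_sum]
  congr 1
  · apply Finset.sum_congr rfl; intros; ring
  · ring

lemma avg_dom (w N : ℕ) (f g : BF) (h : ∀ n, ‖f n‖ ≤ (g n).re) :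
    ‖avg w N f‖ ≤ (avg w N g).re := by
  unfold avg
  rw [norm_mul]
  have h1 : ((N : ℂ)⁻¹ * ∑ i ∈ Finset.range N, g ((w : ℤ) + i)).re
      = (N : ℝ)⁻¹ * ∑ i ∈ Finset.range N, (g ((w : ℤ) + i)).re := by
    rw [show ((N : ℂ)⁻¹) = (((N : ℝ)⁻¹ : ℝ) : ℂ) by push_cast; rfl, Complex.re_ofReal_mul,
      Complex.re_sum]
  rw [h1]
  have h2 : ‖((N : ℂ)⁻¹)‖ = (N : ℝ)⁻¹ := by simp
  rw [h2]
  apply mul_le_mul_of_nonneg_left _ (by positivity)
  exact (norm_sum_le _ _).trans (Finset.sum_le_sum (fun i _ => h _))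

lemma mu_dom (N : ℕ) (f g : BF) (h : ∀ n, ‖f n‖ ≤ (g n).re) :
    ‖mu w N f‖ ≤ (mu w N g).re := by
  unfold mu
  have hpow : ∀ k : ℕ, ((2:ℂ)⁻¹)^k = ((((2:ℝ)⁻¹)^k : ℝ) : ℂ) := by intro k; push_cast; rfl
  rw [Complex.add_re, Complex.re_sum]
  refine (norm_add_le _ _).trans (add_le_add ((norm_sum_le _ _).trans (Finset.sum_le_sum ?_)) ?_)
  · intro k _
    rw [hpow, Complex.re_ofReal_mul, norm_mul, Complex.norm_real, Real.norm_of_nonneg (by positivity)]
    exact mul_le_mul_of_nonneg_left (avg_dom _ _ _ _ h) (by positivity)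
  · rw [hpow, Complex.re_ofReal_mul, norm_mul, Complex.norm_real, Real.norm_of_nonneg (by positivity)]
    exact mul_le_mul_of_nonneg_left (avg_dom _ _ _ _ h) (by positivity)

lemma avg_one (w N : ℕ) (hN : 1 ≤ N) : avg w N 1 = 1 := by
  have : (N : ℂ) ≠ 0 := by exact_mod_cast (by omega : N ≠ 0)
  simp [avg, this]

lemma geom_one (N : ℕ) : (∑ k ∈ Finset.range N, ((2:ℂ)⁻¹)^(k+1)) + ((2:ℂ)⁻¹)^N = 1 := by
  induction N with
  | zero => simp
  | succ n ih =>
    rw [Finset.sum_range_succ]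
    have : ((2:ℂ)⁻¹)^(n+1) + ((2:ℂ)⁻¹)^(n+1) = ((2:ℂ)⁻¹)^n := by rw [pow_succ]; ring
    rw [add_assoc, this, ih]

lemma mu_one (N : ℕ) (hN : 1 ≤ N) : mu w N 1 = 1 := by
  unfold mu
  simp only [avg_one _ _ hN, mul_one]
  exact geom_one N

lemma mu_bound (N : ℕ) (f : BF) (c : ℝ) (h : ∀ k, ‖avg (w k N) N f‖ ≤ c) : ‖mu w N f‖ ≤ c := by
  unfold mu
  have hpow : ∀ k : ℕ, ‖((2:ℂ)⁻¹)^k‖ = ((2:ℝ)⁻¹)^k := by intro k; simp
  have hg : (∑ k ∈ Finset.range N, ((2:ℝ)⁻¹)^(k+1)) + ((2:ℝ)⁻¹)^N = 1 := by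
    have := geom_one N
    have h2 : (((∑ k ∈ Finset.range N, ((2:ℝ)⁻¹)^(k+1)) + ((2:ℝ)⁻¹)^N : ℝ) : ℂ) = ((1:ℝ):ℂ) := by
      push_cast; exact_mod_cast this
    exact_mod_cast h2
  calc _ ≤ (∑ k ∈ Finset.range N, ((2:ℝ)⁻¹)^(k+1) * c) + ((2:ℝ)⁻¹)^N * c := by
        refine (norm_add_le _ _).trans (add_le_add ((norm_sum_le _ _).trans
          (Finset.sum_le_sum ?_)) ?_)
        · intro k _
          rw [norm_mul, hpow]
          exact mul_le_mul_of_nonneg_left (h k) (by positivity)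
        · rw [norm_mul, hpow]
          exact mul_le_mul_of_nonneg_left (h 0) (by positivity)
    _ = c := by rw [← Finset.sum_mul, ← add_mul, hg, one_mul]

lemma norm_le_bf (f : BF) (n : ℤ) : ‖f n‖ ≤ ‖f‖ := f.norm_coe_le_norm n

lemma avg_norm (w N : ℕ) (f : BF) : ‖avg w N f‖ ≤ ‖f‖ := by
  unfold avg
  rw [norm_mul]
  have h2 : ‖((N : ℂ)⁻¹)‖ = (N : ℝ)⁻¹ := by simp
  rw [h2]
  have : ‖∑ i ∈ Finset.range N, f ((w : ℤ) + i)‖ ≤ N * ‖f‖ := by
    refine (norm_sum_le _ _).trans ?_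
    calc _ ≤ ∑ i ∈ Finset.range N, ‖f‖ := Finset.sum_le_sum (fun i _ => norm_le_bf _ _)
      _ = N * ‖f‖ := by simp
  rcases Nat.eq_zero_or_pos N with h | h
  · subst h; simp
  · calc (N : ℝ)⁻¹ * _ ≤ (N : ℝ)⁻¹ * (N * ‖f‖) := mul_le_mul_of_nonneg_left this (by positivity)
      _ = ‖f‖ := by field_simp

lemma mu_norm (N : ℕ) (f : BF) : ‖mu w N f‖ ≤ ‖f‖ := mu_bound w N f _ (fun _ => avg_norm _ _ _)

lemma avg_shift (w N : ℕ) (f : BF) : ‖avg w N (sh 1 f - f)‖ ≤ 2 * ‖f‖ * (N : ℝ)⁻¹ := by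
  unfold avg
  have : ∑ i ∈ Finset.range N, (sh 1 f - f) ((w : ℤ) + i) = f (w + N) - f w := by
    have := Finset.sum_range_sub (fun i : ℕ => f ((w : ℤ) + i)) N
    simp only [Nat.cast_zero, add_zero] at this
    rw [← this]
    apply Finset.sum_congr rfl
    intro i _
    simp only [BoundedContinuousFunction.coe_sub, Pi.sub_apply, sh_apply]
    push_cast
    rw [add_assoc]
  rw [this, norm_mul]
  have h2 : ‖((N : ℂ)⁻¹)‖ = (N : ℝ)⁻¹ := by simp
  rw [h2]
  have h3 : ‖f (w + N) - f w‖ ≤ 2 * ‖f‖ := by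
    refine (norm_sub_le _ _).trans ?_
    have := norm_le_bf f (w + N); have := norm_le_bf f w; linarith
  rw [mul_comm]
  exact mul_le_mul_of_nonneg_right h3 (by positivity)

lemma avg_far (w N : ℕ) (D : ℕ) (f : BF) (h : ∀ n : ℤ, (D : ℤ) ≤ n → f n = 0) :
    ‖avg w N f‖ ≤ (D * ‖f‖) * (N : ℝ)⁻¹ := by
  unfold avg
  rw [norm_mul]
  have h2 : ‖((N : ℂ)⁻¹)‖ = (N : ℝ)⁻¹ := by simp
  rw [h2, mul_comm]
  apply mul_le_mul_of_nonneg_right _ (by positivity)
  calc ‖∑ i ∈ Finset.range N, f ((w : ℤ) + i)‖ ≤ ∑ i ∈ Finset.range N, ‖f ((w : ℤ) + i)‖ :=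
        norm_sum_le _ _
    _ ≤ ∑ i ∈ Finset.range N, (if i < D then ‖f‖ else 0) := by
        apply Finset.sum_le_sum
        intro i _
        split_ifs with hi
        · exact norm_le_bf _ _
        · rw [h _ (by omega)]; simp
    _ = ∑ i ∈ (Finset.range N).filter (fun i => i < D), ‖f‖ := by rw [Finset.sum_filter]
    _ ≤ ∑ i ∈ Finset.range D, ‖f‖ := by
        apply Finset.sum_le_sum_of_subset_of_nonneg
        · intro i; simp
        · intros; positivity
    _ = D * ‖f‖ := by simp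

/-- the limit functional -/
noncomputable def lim (f : BF) : ℂ := limUnder (hyperfilter ℕ : Filter ℕ) (fun N => mu w N f)

lemma tendsto_lim (f : BF) : Tendsto (fun N => mu w N f) (hyperfilter ℕ) (𝓝 (lim w f)) := by
  apply tendsto_nhds_limUnder
  have hc : IsCompact (Metric.closedBall (0:ℂ) ‖f‖) := isCompact_closedBall _ _
  obtain ⟨x, _, hx⟩ := hc.ultrafilter_le_nhds (Ultrafilter.map (fun N => mu w N f) (hyperfilter ℕ))
    (by
      rw [le_principal_iff]
      simp only [Ultrafilter.coe_map, mem_map]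
      apply Filter.univ_mem'
      intro N
      simp [mu_norm w N f])
  exact ⟨x, hx⟩

lemma tendsto_of_atTop {E : Type*} [TopologicalSpace E] {u : ℕ → E} {x : E}
    (h : Tendsto u atTop (𝓝 x)) : Tendsto u (hyperfilter ℕ) (𝓝 x) :=
  h.mono_left (by rw [← Nat.cofinite_eq_atTop]; exact hyperfilter_le_cofinite)

lemma lim_zero_of_bound (f : BF) (c : ℝ) (h : ∀ N k, ‖avg (w k N) N f‖ ≤ c * (N : ℝ)⁻¹) :
    lim w f = 0 := by
  have h1 : Tendsto (fun N => mu w N f) atTop (𝓝 0) := by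
    rw [tendsto_zero_iff_norm_tendsto_zero]
    have h2 : Tendsto (fun N : ℕ => c * (N : ℝ)⁻¹) atTop (𝓝 0) := by
      simpa using (tendsto_inv_atTop_nhds_zero_nat (𝕜 := ℝ)).const_mul c
    exact squeeze_zero (fun _ => norm_nonneg _) (fun N => mu_bound w N f _ (fun k => h N k)) h2
  exact tendsto_nhds_unique (tendsto_lim w f) (tendsto_of_atTop h1)

lemma lim_add (f g : BF) : lim w (f + g) = lim w f + lim w g := by
  apply tendsto_nhds_unique (tendsto_lim w (f + g))
  simp only [mu_add]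
  exact (tendsto_lim w f).add (tendsto_lim w g)

lemma lim_smul (c : ℂ) (f : BF) : lim w (c • f) = c * lim w f := by
  apply tendsto_nhds_unique (tendsto_lim w (c • f))
  simp only [mu_smul]
  exact (tendsto_lim w f).const_mul c

lemma lim_shift_one (f : BF) : lim w (sh 1 f) = lim w f := by
  have h := lim_zero_of_bound w (sh 1 f - f) (2 * ‖f‖) (fun N k => avg_shift _ _ _)
  have h2 := lim_add w (sh 1 f - f) f
  rw [sub_add_cancel, h, zero_add] at h2
  exact h2

lemma sh_sh (a b : ℤ) (f : BF) : sh a (sh b f) = sh (a + b) f := by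
  ext n; simp [add_assoc]

lemma sh_zero (f : BF) : sh 0 f = f := by ext n; simp

lemma lim_shift_nat (k : ℕ) (f : BF) : lim w (sh k f) = lim w f := by
  induction k with
  | zero => simp [sh_zero]
  | succ n ih =>
    have : sh ((n + 1 : ℕ) : ℤ) f = sh 1 (sh n f) := by rw [sh_sh]; congr 1; push_cast; ring
    rw [this, lim_shift_one, ih]

lemma lim_shift (k : ℤ) (f : BF) : lim w (sh k f) = lim w f := by
  rcases Int.eq_nat_or_neg k with ⟨n, h | h⟩
  · rw [h]; exact lim_shift_nat w n f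
  · rw [h, ← lim_shift_nat w n (sh (-(n:ℤ)) f), sh_sh]; simp [sh_zero]

/-- the mean built from windows -/
noncomputable def mean : Mean where
  m := { toFun := lim w, map_add' := lim_add w, map_smul' := by intro c f; simpa using lim_smul w c f }
  dom := by
    intro f g h
    have h1 := (tendsto_lim w f).norm
    have h2 := (Complex.continuous_re.tendsto _).comp (tendsto_lim w g)
    exact le_of_tendsto_of_tendsto h1 h2 (Eventually.of_forall (fun N => mu_dom w N f g h))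
  one := by
    apply tendsto_nhds_unique (tendsto_lim w 1)
    apply tendsto_of_atTop
    apply tendsto_const_nhds.congr'
    filter_upwards [eventually_ge_atTop 1] with N hN
    rw [mu_one w N hN]
  shift := lim_shift w
  far := by
    intro D f h
    apply lim_zero_of_bound w f (D.toNat * ‖f‖)
    intro N k
    apply avg_far
    intro n hn
    apply h
    have := Int.self_le_toNat D
    omega

lemma mean_pos (R : Set ℤ) (δ : ℝ) (hδ : 0 < δ) (k : ℕ)
    (h : ∀ N : ℕ, δ * N ≤ ∑ i ∈ Finset.range N, (ind R ((w k N : ℤ) + i)).re) :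
    0 < ((mean w).m (ind R)).re := by
  have hle : ((2:ℝ)⁻¹)^(k+1) * δ ≤ ((mean w).m (ind R)).re := by
    have h2 := (Complex.continuous_re.tendsto _).comp (tendsto_lim w (ind R))
    refine ge_of_tendsto h2 ?_
    have hmem : {N : ℕ | k + 1 ≤ N} ∈ (hyperfilter ℕ : Filter ℕ) := by
      have : {N : ℕ | k + 1 ≤ N} ∈ (atTop : Filter ℕ) := mem_atTop _
      exact (show (hyperfilter ℕ : Filter ℕ) ≤ atTop by
        rw [← Nat.cofinite_eq_atTop]; exact hyperfilter_le_cofinite) this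
    filter_upwards [hmem] with N hN'
    have hN : k + 1 ≤ N := hN'
    simp only [Function.comp_apply, mu]
    have hpow : ∀ k : ℕ, ((2:ℂ)⁻¹)^k = ((((2:ℝ)⁻¹)^k : ℝ) : ℂ) := by intro k; push_cast; rfl
    have hre : ∀ w : ℕ, (avg w N (ind R)).re = (N : ℝ)⁻¹ * ∑ i ∈ Finset.range N, (ind R ((w : ℤ) + i)).re := by
      intro w
      unfold avg
      rw [show ((N : ℂ)⁻¹) = (((N : ℝ)⁻¹ : ℝ) : ℂ) by push_cast; rfl, Complex.re_ofReal_mul,
        Complex.re_sum]
    have hnn : ∀ w : ℕ, 0 ≤ (avg w N (ind R)).re := by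
      intro w
      rw [hre]
      apply mul_nonneg (by positivity)
      apply Finset.sum_nonneg
      intro i _
      by_cases hi : ((w : ℤ) + i) ∈ R
      · rw [ind_mem hi]; simp
      · rw [ind_not_mem hi]; simp
    rw [Complex.add_re, Complex.re_sum, hpow N, Complex.re_ofReal_mul]
    have h3 : ((2:ℝ)⁻¹)^(k+1) * δ ≤ (((2:ℂ)⁻¹)^(k+1) * avg (w k N) N (ind R)).re := by
      rw [hpow, Complex.re_ofReal_mul, hre]
      apply mul_le_mul_of_nonneg_left _ (by positivity)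
      have hNpos : (0:ℝ) < N := by
        have : 0 < N := by omega
        exact_mod_cast this
      rw [le_inv_mul_iff₀ hNpos, mul_comm]
      exact h N
    have h4 : (((2:ℂ)⁻¹)^(k+1) * avg (w k N) N (ind R)).re ≤
        ∑ x ∈ Finset.range N, (((2:ℂ)⁻¹)^(x+1) * avg (w x N) N (ind R)).re := by
      apply Finset.single_le_sum (f := fun x => (((2:ℂ)⁻¹)^(x+1) * avg (w x N) N (ind R)).re)
      · intro x _
        rw [hpow, Complex.re_ofReal_mul]
        exact mul_nonneg (by positivity) (hnn _)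
      · simp; omega
    have h5 : 0 ≤ ((2:ℝ)⁻¹)^N * (avg (w 0 N) N (ind R)).re := mul_nonneg (by positivity) (hnn _)
    linarith
  exact lt_of_lt_of_le (by positivity) hle

end Build

/-- For countably many sets of positive upper Banach density there is an invariant mean giving
positive mass to all of them. -/
theorem exists_mean (R : ℕ → Set ℤ)
    (hR : ∀ k, ∃ δ : ℝ, 0 < δ ∧ ∀ N : ℕ, ∃ w : ℕ,
      δ * N ≤ ∑ i ∈ Finset.range N, (ind (R k) ((w : ℤ) + i)).re) :
    ∃ M : Mean, ∀ k, 0 < (M.m (ind (R k))).re := by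
  choose δ hδ w hw using hR
  exact ⟨Build.mean w, fun k => Build.mean_pos w (R k) (δ k) (hδ k) k (hw k)⟩

end Pool.Agent.W92_MP_94b3e1_an
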