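import Pool.Agent.W92_MP_94b3e1_an.Pair

set_option autoImplicit false

open Filter Topology TopologicalSpace

namespace Pool.Agent.W92_MP_94b3e1_an

/-- the coordinatewise dynamics on sequences -/
def Tom {X : Type*} (T : X → X) (v : ℕ → X) : ℕ → X := fun n => T (v n)

lemma Tom_iter {X : Type*} (T : X → X) (m : ℕ) (v : ℕ → X) (n : ℕ) :
    (Tom T)^[m] v n = T^[m] (v n) := by
  induction m generalizing v with
  | zero => rfl
  | succ m ih => rw [Function.iterate_succ_apply, Function.iterate_succ_apply, ih]; rfl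

lemma continuous_Tom {X : Type*} [TopologicalSpace X] {T : X → X} (hT : Continuous T) :
    Continuous (Tom T) := by
  unfold Tom
  exact continuous_pi (fun n => hT.comp (continuous_apply n))

section cyl

variable (X : Type*) [TopologicalSpace X] [SecondCountableTopology X]

/-- index of a cylinder set -/
abbrev CJ := Σ n : ℕ, (Fin n → countableBasis X)

variable {X}

/-- cylinder sets -/
def Cyl (j : CJ X) : Set (ℕ → X) := {v | ∀ k : Fin j.1, v k ∈ (j.2 k).1}

lemma isOpen_Cyl (j : CJ X) : IsOpen (Cyl j) := by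
  have : Cyl j = ⋂ k : Fin j.1, (fun v : ℕ → X => v k) ⁻¹' (j.2 k).1 := by
    ext v; simp [Cyl]
  rw [this]
  apply isOpen_iInter_of_finite
  intro k
  exact (isOpen_of_mem_countableBasis (j.2 k).2).preimage (continuous_apply _)

lemma exists_Cyl {w : ℕ → X} {G : Set (ℕ → X)} (hG : IsOpen G) (hw : w ∈ G) :
    ∃ j : CJ X, w ∈ Cyl j ∧ Cyl j ⊆ G := by
  classical
  obtain ⟨I, u, hu, hIu⟩ := isOpen_pi_iff.1 hG w hw
  have h1 : ∀ k : ℕ, ∃ B : countableBasis X, w k ∈ B.1 ∧ (k ∈ I → B.1 ⊆ u k) := by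
    intro k
    by_cases hk : k ∈ I
    · obtain ⟨B, hB, hwB, hBu⟩ := (isBasis_countableBasis X).exists_subset_of_mem_open
        (hu k hk).2 (hu k hk).1
      exact ⟨⟨B, hB⟩, hwB, fun _ => hBu⟩
    · obtain ⟨B, hB, hwB, _⟩ := (isBasis_countableBasis X).exists_subset_of_mem_open
        (Set.mem_univ (w k)) isOpen_univ
      exact ⟨⟨B, hB⟩, hwB, fun h => absurd h hk⟩
  choose B hwB hBu using h1
  refine ⟨⟨I.sup id + 1, fun k => B k⟩, fun k => hwB k, ?_⟩
  intro v hv
  apply hIu
  intro k hk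
  have hk' : k < I.sup id + 1 := Nat.lt_succ_of_le (Finset.le_sup (f := id) hk)
  exact hBu k hk (hv ⟨k, hk'⟩)

end cyl

lemma RRp.exists_eta {X : Type*} [TopologicalSpace X] [SecondCountableTopology X] {T : X → X}
    {w : ℕ → X} (h : RRp (Tom T) w) : ∃ η : CJ X → ℝ, (∀ j, 0 ≤ η j) ∧
      (∀ j, Win (Tom T) w (Cyl j) (η j)) ∧ ∀ j, w ∈ Cyl j → 0 < η j := by
  classical
  have h1 : ∀ j : CJ X, ∃ e : ℝ, 0 ≤ e ∧ Win (Tom T) w (Cyl j) e ∧ (w ∈ Cyl j → 0 < e) := by
    intro j
    by_cases hj : w ∈ Cyl j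
    · obtain ⟨δ, hδ, hw⟩ := h _ ((isOpen_Cyl j).mem_nhds hj)
      exact ⟨δ, hδ.le, hw, fun _ => hδ⟩
    · exact ⟨0, le_rfl, win_zero _ _ _, fun h => absurd h hj⟩
  choose η h0 h1 h2 using h1
  exact ⟨η, h0, h1, h2⟩

/-- **Theorem.** A continuous self map of a Polish space with dense set of reiteratively recurrent
points has a dense sequence of points all of whose finite subfamilies are jointly reiteratively
recurrent. -/
theorem outer {X : Type*} [TopologicalSpace X] [PolishSpace X] [Nonempty X] {T : X → X}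
    (hT : Continuous T) (hd : Dense {x | RRp T x}) :
    ∃ w : ℕ → X, DenseRange w ∧ RRp (Tom T) w := by
  classical
  have : Countable (countableBasis X) := (countable_countableBasis X).to_subtype
  obtain ⟨x₀, hx₀⟩ := hd.nonempty
  have hw₀ : RRp (Tom T) (fun _ : ℕ => x₀) :=
    RRp.map (fun x : X => fun _ : ℕ => x) (continuous_pi (fun _ => continuous_id)) (fun _ => rfl) hx₀
  obtain ⟨η₀, h0, h1, h2⟩ := hw₀.exists_eta
  have hTom := continuous_Tom hT
  obtain ⟨x, -, hx⟩ := generic (P := (ℕ → X) × (CJ X → ℝ))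
    (ι := (CJ X × ℕ × ℕ) ⊕ (CJ X ⊕ countableBasis X))
    {σ | (∀ j, 0 ≤ σ.2 j) ∧ (∀ j, Win (Tom T) σ.1 (Cyl j) (σ.2 j)) ∧ ∀ j, σ.1 ∈ Cyl j → 0 < σ.2 j}
    (fun i => Sum.elim
      (fun q => {x | ∃ m, (1 / ((q.2.2 : ℝ) + 1)) * q.2.1 ≤ cnt (Tom T) x.1 (Cyl q.1) m q.2.1})
      (fun i => Sum.elim (fun j => {x | 0 < x.2 j}) (fun V => {x | ∃ k, x.1 k ∈ V.1}) i) i)
    (fun i => Sum.elim (fun q => {x | 1 / ((q.2.2 : ℝ) + 1) < x.2 q.1})
      (fun i => Sum.elim (fun j => {x | x.1 ∈ Cyl j}) (fun _ => Set.univ) i) i)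
    (by
      rintro (q | j | V)
      · have : {x : (ℕ → X) × (CJ X → ℝ) | ∃ m, (1 / ((q.2.2 : ℝ) + 1)) * q.2.1 ≤
            cnt (Tom T) x.1 (Cyl q.1) m q.2.1} = ⋃ m, Prod.fst ⁻¹'
            {p | (1 / ((q.2.2 : ℝ) + 1)) * q.2.1 ≤ cnt (Tom T) p (Cyl q.1) m q.2.1} := by
          ext x; simp
        show IsOpen {x : (ℕ → X) × (CJ X → ℝ) | ∃ m, (1 / ((q.2.2 : ℝ) + 1)) * q.2.1 ≤
            cnt (Tom T) x.1 (Cyl q.1) m q.2.1}
        rw [this]
        apply isOpen_iUnion
        intro m
        exact (isOpen_cnt hTom (isOpen_Cyl _) _ _ _).preimage continuous_fst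
      · show IsOpen {x : (ℕ → X) × (CJ X → ℝ) | 0 < x.2 j}
        exact isOpen_lt continuous_const ((continuous_apply j).comp continuous_snd)
      · have : {x : (ℕ → X) × (CJ X → ℝ) | ∃ k, x.1 k ∈ V.1} = ⋃ k, (fun x => x.1 k) ⁻¹' V.1 := by
          ext x; simp
        show IsOpen {x : (ℕ → X) × (CJ X → ℝ) | ∃ k, x.1 k ∈ V.1}
        rw [this]
        apply isOpen_iUnion
        intro k
        exact (isOpen_of_mem_countableBasis V.2).preimage ((continuous_apply k).comp continuous_fst))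
    (by
      rintro (q | j | V)
      · show IsOpen {x : (ℕ → X) × (CJ X → ℝ) | 1 / ((q.2.2 : ℝ) + 1) < x.2 q.1}
        exact isOpen_lt continuous_const ((continuous_apply _).comp continuous_snd)
      · exact (isOpen_Cyl j).preimage continuous_fst
      · exact isOpen_univ)
    (by
      rintro (q | j | V) ⟨w, η⟩ ⟨hη0, hηw, hηp⟩ hC G hG hσG
      · refine ⟨(w, η), ⟨hη0, hηw, hηp⟩, hσG, ?_⟩
        have hC' : 1 / ((q.2.2 : ℝ) + 1) < η q.1 := hC
        exact (hηw q.1).mono subset_rfl hC'.le q.2.1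
      · refine ⟨(w, η), ⟨hη0, hηw, hηp⟩, hσG, ?_⟩
        exact hηp j hC
      · obtain ⟨G', E, hG', hE, hG'm, hEm, hGE⟩ := isOpen_prod_iff.1 hG _ _ hσG
        obtain ⟨IN, v, hv, hINv⟩ := isOpen_pi_iff.1 hG' _ hG'm
        obtain ⟨IJ, u, hu, hIJu⟩ := isOpen_pi_iff.1 hE _ hEm
        obtain ⟨K, hK1, hK2⟩ : ∃ K : ℕ, (∀ i ∈ IN, i < K) ∧ ∀ j ∈ IJ, j.1 ≤ K := by
          refine ⟨(IN.sup id + 1) + IJ.sup (fun j => j.1), ?_, ?_⟩
          · intro i hi
            have := Finset.le_sup (f := id) hi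
            simp only [id] at this
            omega
          · intro j hj
            have : j.1 ≤ IJ.sup (fun j : CJ X => j.1) := Finset.le_sup (f := fun j : CJ X => j.1) hj
            omega
        obtain ⟨y, hyV, hy⟩ := hd.inter_open_nonempty V.1 (isOpen_of_mem_countableBasis V.2)
          (nonempty_of_mem_countableBasis V.2)
        have hwR : RRp (Tom T) w := by
          intro W hW
          obtain ⟨W', hW', hWo, hwW'⟩ := mem_nhds_iff.1 hW
          obtain ⟨j, hj, hjW⟩ := exists_Cyl hWo hwW'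
          exact ⟨η j, hηp j hj, (hηw j).mono (hjW.trans hW') le_rfl⟩
        obtain ⟨p, hpG, hpR, hpw⟩ := pair hTom hT hwR hy (U := fun j : CJ X => Cyl j)
          (fun j => isOpen_Cyl j) η hηw
          ((IN : Set ℕ).pi v ×ˢ V.1) ((isOpen_set_pi IN.finite_toSet (fun i hi => (hv i hi).1)).prod
            (isOpen_of_mem_countableBasis V.2)) ⟨fun i hi => (hv i hi).2, hyV⟩
        set w' : ℕ → X := Function.update p.1 K p.2 with hw'
        have hw'R : RRp (Tom T) w' := by
          refine RRp.map (S := Prod.map (Tom T) T)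
            (fun p : (ℕ → X) × X => (Function.update p.1 K p.2 : ℕ → X)) ?_ ?_ hpR
          · exact continuous_fst.update K continuous_snd
          · intro q
            funext n
            show Function.update (Tom T q.1) K (T q.2) n = T (Function.update q.1 K q.2 n)
            by_cases hn : n = K
            · subst hn; simp
            · rw [Function.update_of_ne hn, Function.update_of_ne hn]; rfl
        have hcyl : ∀ j : CJ X, j.1 ≤ K → ∀ m, ((Tom T)^[m] w' ∈ Cyl j ↔ (Tom T)^[m] p.1 ∈ Cyl j) := by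
          intro j hj m
          have h3 : ∀ k : Fin j.1, (Tom T)^[m] w' k = (Tom T)^[m] p.1 k := by
            intro k
            rw [Tom_iter, Tom_iter, hw', Function.update_of_ne (by have := k.2; omega)]
          constructor
          · intro h k
            rw [← h3]; exact h k
          · intro h k
            rw [h3]; exact h k
        have hex : ∀ j : CJ X, ∃ e : ℝ, 0 ≤ e ∧ Win (Tom T) w' (Cyl j) e ∧ (w' ∈ Cyl j → 0 < e) ∧
            (j ∈ IJ → e ∈ u j) := by
          intro j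
          by_cases hj : j ∈ IJ
          · have hwin : Win (Tom T) w' (Cyl j) (η j) := by
              intro N
              obtain ⟨m, hm⟩ := hpw j N
              refine ⟨m, ?_⟩
              rw [cnt_congr (Tom T) (Tom T) w' p.1 (Cyl j) (Cyl j) m m N
                (fun i _ => hcyl j (hK2 j hj) _)]
              exact hm
            rcases (hη0 j).lt_or_eq with hpos | hzero
            · exact ⟨η j, hpos.le, hwin, fun _ => hpos, fun _ => (hu j hj).2⟩
            · by_cases hw'j : w' ∈ Cyl j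
              · obtain ⟨δ, hδ, hδw⟩ := hw'R _ ((isOpen_Cyl j).mem_nhds hw'j)
                obtain ⟨ε, hε, hball⟩ := Metric.isOpen_iff.1 (hu j hj).1 _ (hu j hj).2
                refine ⟨min δ (ε / 2), (lt_min hδ (by linarith)).le,
                  hδw.mono subset_rfl (min_le_left _ _), fun _ => lt_min hδ (by linarith), fun _ => ?_⟩
                apply hball
                have h5 : η j = 0 := hzero.symm
                show dist _ (η j) < ε
                rw [Real.dist_eq, h5, sub_zero, abs_of_pos (lt_min hδ (by linarith))]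
                exact (min_le_right _ _).trans_lt (by linarith)
              · refine ⟨η j, hη0 j, hwin, fun h => absurd h hw'j, fun _ => (hu j hj).2⟩
          · by_cases hw'j : w' ∈ Cyl j
            · obtain ⟨δ, hδ, hδw⟩ := hw'R _ ((isOpen_Cyl j).mem_nhds hw'j)
              exact ⟨δ, hδ.le, hδw, fun _ => hδ, fun h => absurd h hj⟩
            · exact ⟨0, le_rfl, win_zero _ _ _, fun h => absurd h hw'j, fun h => absurd h hj⟩
        choose η' hη'0 hη'w hη'p hη'u using hex
        refine ⟨(w', η'), ⟨hη'0, hη'w, hη'p⟩, ?_, K, ?_⟩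
        · apply hGE
          refine ⟨hINv ?_, hIJu ?_⟩
          · intro i hi
            have h3 : i ≠ K := by have := hK1 i hi; omega
            show Function.update p.1 K p.2 i ∈ v i
            rw [Function.update_of_ne h3]
            exact hpG.1 i hi
          · intro j hj
            exact hη'u j hj
        · show Function.update p.1 K p.2 K ∈ V.1
          rw [Function.update_self]
          exact hpG.2)
    ((fun _ => x₀), η₀) ⟨h0, h1, h2⟩ Set.univ isOpen_univ (Set.mem_univ _)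
  refine ⟨x.1, ?_, ?_⟩
  · rw [DenseRange, (isBasis_countableBasis X).dense_iff]
    intro V hV _
    obtain ⟨k, hk⟩ := hx (Sum.inr (Sum.inr ⟨V, hV⟩)) (Set.mem_univ _)
    exact ⟨x.1 k, hk, k, rfl⟩
  · intro W hW
    obtain ⟨W', hW', hWo, hwW'⟩ := mem_nhds_iff.1 hW
    obtain ⟨j, hj, hjW⟩ := exists_Cyl hWo hwW'
    have h3 : 0 < x.2 j := hx (Sum.inr (Sum.inl j)) hj
    obtain ⟨i, hi⟩ := exists_nat_one_div_lt h3
    refine ⟨1 / ((i : ℝ) + 1), by positivity, ?_⟩
    intro N
    obtain ⟨m, hm⟩ := hx (Sum.inl (j, N, i)) hi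
    refine ⟨m, hm.trans ?_⟩
    exact_mod_cast cnt_mono _ _ (hjW.trans hW') _ _

end Pool.Agent.W92_MP_94b3e1_an
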