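import Pool.Agent.W92_MP_94b3e1_an.Stage
import Pool.Agent.W92_MP_94b3e1_an.Generic

set_option autoImplicit false

open Filter Topology TopologicalSpace
open scoped ComplexConjugate InnerProductSpace

namespace Pool.Agent.W92_MP_94b3e1_an

section mean

variable (M : Mean)

lemma pos_near {Z : Type*} [TopologicalSpace Z] {S : Z → Z} (hS : Continuous S) {z : Z}
    (hz : ∀ W ∈ 𝓝 z, 0 < (M.m (ind (Ret S z W))).re) (a : ℕ) (G : Set Z) (hG : IsOpen G)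
    (ha : S^[a] z ∈ G) (F : Finset Circle) (η : ℝ) (hη : 0 < η) :
    0 < (M.m (ind (Ret S z G ∩ {n | n - a ∈ Bohr F η}))).re := by
  have hW : (S^[a]) ⁻¹' G ∈ 𝓝 z := (hS.iterate a).continuousAt (hG.mem_nhds ha)
  refine m_pos_of_shift M (a : ℤ) (bohr_returns M hS hz F η hη _ hW) ?_
  intro n hn
  obtain ⟨n, rfl⟩ := Int.eq_ofNat_of_zero_le hn.1.1
  refine ⟨?_, ?_⟩
  · have : ((n : ℤ) + a) = ((a + n : ℕ) : ℤ) := by push_cast; ring
    rw [this, mem_Ret_nat, Function.iterate_add_apply]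
    have h5 := mem_Ret_nat.1 hn.1
    exact h5
  · show (n : ℤ) + a - a ∈ Bohr F η
    rw [add_sub_cancel_right]
    exact hn.2

/-- positivity of the correlation can be achieved near every pair of orbit points -/
theorem level {Z Y : Type*} [TopologicalSpace Z] [TopologicalSpace Y] {S : Z → Z} {R : Y → Y}
    (hS : Continuous S) (hR : Continuous R) {z : Z} {y : Y}
    (hz : ∀ W ∈ 𝓝 z, 0 < (M.m (ind (Ret S z W))).re)
    (hy : ∀ W ∈ 𝓝 y, 0 < (M.m (ind (Ret R y W))).re)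
    (a b : ℕ) (G₁ : Set Z) (hG₁ : IsOpen G₁) (ha : S^[a] z ∈ G₁)
    (G₂ : Set Y) (hG₂ : IsOpen G₂) (hb : R^[b] y ∈ G₂)
    (U : Set Z) (hU : IsOpen U) (haU : S^[a] z ∈ U) (V : Set Y) (hV : IsOpen V) (hbV : R^[b] y ∈ V)
    (Fb : Finset Circle) (ηb : ℝ) (hηb : 0 < ηb) :
    ∃ a' b' : ℕ, S^[a'] z ∈ G₁ ∧ R^[b'] y ∈ G₂ ∧
      ((a' : ℤ) - b') - ((a : ℤ) - b) ∈ Bohr Fb ηb ∧
      0 < hh M (ind (Ret S z U)) (ind (Ret R y V)) ((a' : ℤ) - b') := by
  have h1 := pos_near M hS hz a (U ∩ G₁) (hU.inter hG₁) ⟨haU, ha⟩ Fb (ηb / 2) (by linarith)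
  have h2 := pos_near M hR hy b (V ∩ G₂) (hV.inter hG₂) ⟨hbV, hb⟩ Fb (ηb / 2) (by linarith)
  obtain ⟨u, hu, v, hv, huv⟩ := exists_hh_pos M _ _ h1 h2
  obtain ⟨u, rfl⟩ := Int.eq_ofNat_of_zero_le hu.1.1
  obtain ⟨v, rfl⟩ := Int.eq_ofNat_of_zero_le hv.1.1
  refine ⟨u, v, (mem_Ret_nat.1 hu.1).2, (mem_Ret_nat.1 hv.1).2, ?_, ?_⟩
  · have h3 := Bohr_sub hu.2 hv.2
    rw [add_halves] at h3
    have h4 : (u : ℤ) - a - ((v : ℤ) - b) = (u : ℤ) - v - (a - b) := by ring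
    rwa [h4] at h3
  · refine huv.trans_le (hh_mono M _ _ _ _ ?_ ?_ _)
    · intro n hn; exact Ret_mono Set.inter_subset_left hn.1
    · intro n hn; exact Ret_mono Set.inter_subset_left hn.1

end mean

lemma sum_ind_eq_cnt {Z : Type*} (S : Z → Z) (z : Z) (U : Set Z) (m N : ℕ) :
    ∑ i ∈ Finset.range N, (ind (Ret S z U) ((m : ℤ) + i)).re = cnt S z U m N := by
  classical
  unfold cnt
  rw [Finset.card_filter]
  push_cast
  apply Finset.sum_congr rfl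
  intro i _
  have h0 : ((m : ℤ) + i) = ((m + i : ℕ) : ℤ) := by push_cast; rfl
  by_cases h : S^[m + i] z ∈ U
  · rw [h0, ind_mem (mem_Ret_nat.2 h), if_pos h]; simp
  · rw [h0, ind_not_mem (fun h' => h (mem_Ret_nat.1 h')), if_neg h]; simp

/-- a common mean for two reiteratively recurrent points -/
theorem exists_common_mean {Z Y : Type*} [TopologicalSpace Z] [TopologicalSpace Y]
    [SecondCountableTopology Z] [SecondCountableTopology Y] {S : Z → Z} {R : Y → Y} {z : Z} {y : Y}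
    (hz : RRp S z) (hy : RRp R y) :
    ∃ M : Mean, (∀ W ∈ 𝓝 z, 0 < (M.m (ind (Ret S z W))).re) ∧
      (∀ W ∈ 𝓝 y, 0 < (M.m (ind (Ret R y W))).re) := by
  have : Countable (countableBasis Z) := (countable_countableBasis Z).to_subtype
  have : Countable (countableBasis Y) := (countable_countableBasis Y).to_subtype
  obtain ⟨U₀, hU₀, hzU₀, _⟩ := (isBasis_countableBasis Z).exists_subset_of_mem_open
    (Set.mem_univ z) isOpen_univ
  have : Nonempty ({U : countableBasis Z // z ∈ U.1} ⊕ {V : countableBasis Y // y ∈ V.1}) :=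
    ⟨Sum.inl ⟨⟨U₀, hU₀⟩, hzU₀⟩⟩
  obtain ⟨e, he⟩ := exists_surjective_nat
    ({U : countableBasis Z // z ∈ U.1} ⊕ {V : countableBasis Y // y ∈ V.1})
  set RR : ({U : countableBasis Z // z ∈ U.1} ⊕ {V : countableBasis Y // y ∈ V.1}) → Set ℤ :=
    fun i => Sum.elim (fun U => Ret S z U.1.1) (fun V => Ret R y V.1.1) i with hRR
  obtain ⟨M, hM⟩ := exists_mean (fun k => RR (e k)) (by
    intro k
    rcases hk : e k with U | V
    · obtain ⟨δ, hδ, hw⟩ := hz U.1.1 ((isOpen_of_mem_countableBasis U.1.2).mem_nhds U.2)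
      refine ⟨δ, hδ, fun N => ?_⟩
      obtain ⟨m, hm⟩ := hw N
      refine ⟨m, ?_⟩
      rw [← sum_ind_eq_cnt] at hm
      exact hm
    · obtain ⟨δ, hδ, hw⟩ := hy V.1.1 ((isOpen_of_mem_countableBasis V.1.2).mem_nhds V.2)
      refine ⟨δ, hδ, fun N => ?_⟩
      obtain ⟨m, hm⟩ := hw N
      refine ⟨m, ?_⟩
      rw [← sum_ind_eq_cnt] at hm
      exact hm)
  refine ⟨M, ?_, ?_⟩
  · intro W hW
    obtain ⟨U, hU, hzU, hUW⟩ := (isBasis_countableBasis Z).mem_nhds_iff.1 hW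
    obtain ⟨k, hk⟩ := he (Sum.inl ⟨⟨U, hU⟩, hzU⟩)
    have := hM k
    rw [hk] at this
    exact this.trans_le (m_ind_mono M (Ret_mono hUW))
  · intro W hW
    obtain ⟨U, hU, hzU, hUW⟩ := (isBasis_countableBasis Y).mem_nhds_iff.1 hW
    obtain ⟨k, hk⟩ := he (Sum.inr ⟨⟨U, hU⟩, hzU⟩)
    have := hM k
    rw [hk] at this
    exact this.trans_le (m_ind_mono M (Ret_mono hUW))

lemma bohr_finset {J : Type*} (I : Finset J) (Q : J → ℤ → Prop)
    (h : ∀ j ∈ I, ∃ (F : Finset Circle) (η : ℝ), 0 < η ∧ ∀ k ∈ Bohr F η, Q j k) :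
    ∃ (F : Finset Circle) (η : ℝ), 0 < η ∧ ∀ k ∈ Bohr F η, ∀ j ∈ I, Q j k := by
  classical
  induction I using Finset.induction_on with
  | empty => exact ⟨∅, 1, one_pos, by simp⟩
  | insert j I _ ih =>
    obtain ⟨F, η, hη, hF⟩ := ih (fun j' hj' => h j' (Finset.mem_insert_of_mem hj'))
    obtain ⟨F', η', hη', hF'⟩ := h j (Finset.mem_insert_self _ _)
    refine ⟨F ∪ F', min η η', lt_min hη hη', ?_⟩
    intro k hk j' hj'
    rcases Finset.mem_insert.1 hj' with rfl | hj'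
    · exact hF' k (Bohr_mono Finset.subset_union_right (min_le_right _ _) hk)
    · exact hF k (Bohr_mono Finset.subset_union_left (min_le_left _ _) hk) j' hj'

/-- the pair theorem -/
theorem pair {Z Y : Type*} [TopologicalSpace Z] [TopologicalSpace Y]
    [PolishSpace Z] [PolishSpace Y] {S : Z → Z} (hS : Continuous S) {R : Y → Y} (hR : Continuous R)
    {z : Z} {y : Y} (hz : RRp S z) (hy : RRp R y) {L : Type*} [Countable L] (U : L → Set Z)
    (hU : ∀ l, IsOpen (U l)) (δ : L → ℝ) (hw : ∀ l, Win S z (U l) (δ l))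
    (G : Set (Z × Y)) (hG : IsOpen G) (hzyG : (z, y) ∈ G) :
    ∃ p ∈ G, RRp (Prod.map S R) p ∧ ∀ l, Win S p.1 (U l) (δ l) := by
  obtain ⟨M, hMz, hMy⟩ := exists_common_mean hz hy
  have : Countable (countableBasis Z) := (countable_countableBasis Z).to_subtype
  have : Countable (countableBasis Y) := (countable_countableBasis Y).to_subtype
  set J := (countableBasis Z) × (countableBasis Y) with hJ
  set h : J → ℤ → ℝ := fun j n => hh M (ind (Ret S z j.1.1)) (ind (Ret R y j.2.1)) n with hh'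
  set pt : ℕ → ℕ → (Z × Y) × (J → ℝ) := fun a b => ((S^[a] z, R^[b] y), fun j => h j ((a : ℤ) - b))
    with hpt
  have hSR : Continuous (Prod.map S R) := hS.prodMap hR
  -- neighbourhoods
  have hnb : ∀ (a b : ℕ) (G : Set ((Z × Y) × (J → ℝ))), IsOpen G → pt a b ∈ G →
      ∃ (G₁ : Set Z) (G₂ : Set Y) (F : Finset Circle) (η : ℝ), IsOpen G₁ ∧ S^[a] z ∈ G₁ ∧
        IsOpen G₂ ∧ R^[b] y ∈ G₂ ∧ 0 < η ∧ ∀ a' b' : ℕ, S^[a'] z ∈ G₁ → R^[b'] y ∈ G₂ →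
          ((a' : ℤ) - b') - ((a : ℤ) - b) ∈ Bohr F η → pt a' b' ∈ G := by
    intro a b G hG hab
    obtain ⟨G', E, hG', hE, hG'm, hEm, hGE⟩ := isOpen_prod_iff.1 hG _ _ hab
    obtain ⟨G₁, G₂, hG₁, hG₂, h1m, h2m, h12⟩ := isOpen_prod_iff.1 hG' _ _ hG'm
    obtain ⟨I, u, hu, hIu⟩ := isOpen_pi_iff.1 hE _ hEm
    obtain ⟨F, η, hη, hF⟩ := bohr_finset I (fun j k => h j (((a : ℤ) - b) + k) ∈ u j) (by
      intro j hj
      obtain ⟨hjo, hjm⟩ := hu j hj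
      obtain ⟨ε, hε, hball⟩ := Metric.isOpen_iff.1 hjo _ hjm
      obtain ⟨F, η, hη, hF⟩ := hh_cont M (ind (Ret S z j.1.1)) (ind (Ret R y j.2.1)) (ε / 2)
        (by linarith)
      refine ⟨F, η, hη, ?_⟩
      intro k hk
      apply hball
      rw [Metric.mem_ball, Real.dist_eq]
      have := hF k hk ((a : ℤ) - b)
      exact lt_of_le_of_lt this (by linarith))
    refine ⟨G₁, G₂, F, η, hG₁, h1m, hG₂, h2m, hη, ?_⟩
    intro a' b' ha' hb' hab'
    apply hGE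
    refine ⟨h12 ⟨ha', hb'⟩, hIu ?_⟩
    intro j hj
    have := hF _ hab' j hj
    have h3 : ((a : ℤ) - b) + (((a' : ℤ) - b') - ((a : ℤ) - b)) = (a' : ℤ) - b' := by ring
    rw [h3] at this
    exact this
  have hbas : ∀ j : J, IsOpen j.1.1 ∧ IsOpen j.2.1 := fun j =>
    ⟨isOpen_of_mem_countableBasis j.1.2, isOpen_of_mem_countableBasis j.2.2⟩
  obtain ⟨x, hxG, hx⟩ := generic (P := (Z × Y) × (J → ℝ)) (ι := (J × ℕ × ℕ) ⊕ (J ⊕ (L × ℕ)))
    {σ | ∃ a b, σ = pt a b}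
    (fun i => Sum.elim
      (fun q => {x | ∃ m, (1 / ((q.2.2 : ℝ) + 1)) * q.2.1 ≤
        cnt (Prod.map S R) x.1 (q.1.1.1 ×ˢ q.1.2.1) m q.2.1})
      (fun i => Sum.elim (fun j => {x | 0 < x.2 j})
        (fun l => {x | ∃ m, δ l.1 * l.2 ≤ cnt S x.1.1 (U l.1) m l.2}) i) i)
    (fun i => Sum.elim (fun q => {x | 1 / ((q.2.2 : ℝ) + 1) < x.2 q.1})
      (fun i => Sum.elim (fun j => {x | x.1.1 ∈ j.1.1 ∧ x.1.2 ∈ j.2.1}) (fun _ => Set.univ) i) i)
    (by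
      rintro (q | j | l)
      · have : {x : (Z × Y) × (J → ℝ) | ∃ m, (1 / ((q.2.2 : ℝ) + 1)) * q.2.1 ≤
            cnt (Prod.map S R) x.1 (q.1.1.1 ×ˢ q.1.2.1) m q.2.1} = ⋃ m, Prod.fst ⁻¹'
            {p | (1 / ((q.2.2 : ℝ) + 1)) * q.2.1 ≤
              cnt (Prod.map S R) p (q.1.1.1 ×ˢ q.1.2.1) m q.2.1} := by
          ext x; simp
        show IsOpen {x : (Z × Y) × (J → ℝ) | ∃ m, (1 / ((q.2.2 : ℝ) + 1)) * q.2.1 ≤
            cnt (Prod.map S R) x.1 (q.1.1.1 ×ˢ q.1.2.1) m q.2.1}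
        rw [this]
        apply isOpen_iUnion
        intro m
        exact (isOpen_cnt hSR ((hbas q.1).1.prod (hbas q.1).2) _ _ _).preimage continuous_fst
      · show IsOpen {x : (Z × Y) × (J → ℝ) | 0 < x.2 j}
        exact isOpen_lt continuous_const ((continuous_apply j).comp continuous_snd)
      · have : {x : (Z × Y) × (J → ℝ) | ∃ m, δ l.1 * l.2 ≤ cnt S x.1.1 (U l.1) m l.2}
            = ⋃ m, (fun x => x.1.1) ⁻¹' {p | δ l.1 * l.2 ≤ cnt S p (U l.1) m l.2} := by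
          ext x; simp
        show IsOpen {x : (Z × Y) × (J → ℝ) | ∃ m, δ l.1 * l.2 ≤ cnt S x.1.1 (U l.1) m l.2}
        rw [this]
        apply isOpen_iUnion
        intro m
        exact (isOpen_cnt hS (hU l.1) _ _ _).preimage (continuous_fst.comp continuous_fst))
    (by
      rintro (q | j | l)
      · show IsOpen {x : (Z × Y) × (J → ℝ) | 1 / ((q.2.2 : ℝ) + 1) < x.2 q.1}
        exact isOpen_lt continuous_const ((continuous_apply _).comp continuous_snd)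
      · show IsOpen {x : (Z × Y) × (J → ℝ) | x.1.1 ∈ j.1.1 ∧ x.1.2 ∈ j.2.1}
        exact ((hbas j).1.preimage (continuous_fst.comp continuous_fst)).inter
          ((hbas j).2.preimage (continuous_snd.comp continuous_fst))
      · exact isOpen_univ)
    (by
      rintro (q | j | l) σ ⟨a, b, rfl⟩ hC G hG hσG
      · have hC' : 1 / ((q.2.2 : ℝ) + 1) < h q.1 ((a : ℤ) - b) := hC
        obtain ⟨G₁, G₂, F, η, hG₁, h1m, hG₂, h2m, hη, hpt'⟩ := hnb a b G hG hσG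
        obtain ⟨a', b', ha', hb', hab', m, hm⟩ := stage M hS hR hMz hMy a b G₁ hG₁ h1m G₂ hG₂ h2m
          q.1.1.1 q.1.2.1 (hbas q.1).2 _ hC' F η hη q.2.1
        exact ⟨pt a' b', ⟨a', b', rfl⟩, hpt' a' b' ha' hb' hab', m, hm⟩
      · have hC' : S^[a] z ∈ j.1.1 ∧ R^[b] y ∈ j.2.1 := hC
        obtain ⟨G₁, G₂, F, η, hG₁, h1m, hG₂, h2m, hη, hpt'⟩ := hnb a b G hG hσG
        obtain ⟨a', b', ha', hb', hab', hpos⟩ := level M hS hR hMz hMy a b G₁ hG₁ h1m G₂ hG₂ h2m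
          j.1.1 (hbas j).1 hC'.1 j.2.1 (hbas j).2 hC'.2 F η hη
        exact ⟨pt a' b', ⟨a', b', rfl⟩, hpt' a' b' ha' hb' hab', hpos⟩
      · refine ⟨pt a b, ⟨a, b, rfl⟩, hσG, ?_⟩
        obtain ⟨m, hm, hm'⟩ := (hw l.1).far l.2 a
        refine ⟨m - a, ?_⟩
        show δ l.1 * l.2 ≤ cnt S (S^[a] z) (U l.1) (m - a) l.2
        rw [cnt_iter, Nat.add_sub_cancel' hm]
        exact hm')
    (pt 0 0) ⟨0, 0, rfl⟩ (Prod.fst ⁻¹' G) (hG.preimage continuous_fst) hzyG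
  refine ⟨x.1, hxG, ?_, ?_⟩
  · intro W hW
    obtain ⟨W₁, hW₁, W₂, hW₂, hWW⟩ := mem_nhds_prod_iff.1 hW
    obtain ⟨U₁, hU₁, hx1, hUW₁⟩ := (isBasis_countableBasis Z).mem_nhds_iff.1 hW₁
    obtain ⟨U₂, hU₂, hx2, hUW₂⟩ := (isBasis_countableBasis Y).mem_nhds_iff.1 hW₂
    set j : J := (⟨U₁, hU₁⟩, ⟨U₂, hU₂⟩) with hj
    have h1 : 0 < x.2 j := hx (Sum.inr (Sum.inl j)) ⟨hx1, hx2⟩
    obtain ⟨i, hi⟩ := exists_nat_one_div_lt h1
    refine ⟨1 / ((i : ℝ) + 1), by positivity, ?_⟩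
    intro N
    obtain ⟨m, hm⟩ := hx (Sum.inl (j, N, i)) hi
    refine ⟨m, hm.trans ?_⟩
    exact_mod_cast cnt_mono _ _ ((Set.prod_mono hUW₁ hUW₂).trans hWW) _ _
  · intro l N
    exact hx (Sum.inr (Sum.inr (l, N))) (Set.mem_univ _)

end Pool.Agent.W92_MP_94b3e1_an
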