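import Pool.Agent.W92_MP_94b3e1_an.Hpos

set_option autoImplicit false

open Filter Topology
open scoped ComplexConjugate InnerProductSpace

namespace Pool.Agent.W92_MP_94b3e1_an

variable (M : Mean)

lemma m_ind_mono {A B : Set ℤ} (h : A ⊆ B) : (M.m (ind A)).re ≤ (M.m (ind B)).re := by
  apply M.mono
  intro n
  by_cases hA : n ∈ A
  · rw [ind_mem hA, ind_mem (h hA)]
  · rw [ind_not_mem hA]; exact (isNN_ind B n).2

lemma m_ind_shift (A : Set ℤ) (k : ℤ) : M.m (ind {n | n + k ∈ A}) = M.m (ind A) := by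
  rw [← M.shift k (ind A)]
  have : ind {n | n + k ∈ A} = sh k (ind A) := by
    ext n
    rw [sh_apply]
    by_cases h : n + k ∈ A
    · rw [ind_mem h, ind_mem (show n ∈ {n | n + k ∈ A} from h)]
    · rw [ind_not_mem h, ind_not_mem (show n ∉ {n | n + k ∈ A} from h)]
  rw [this]

/-- translating a set keeps its mean -/
lemma m_pos_of_shift {A B : Set ℤ} (k : ℤ) (hA : 0 < (M.m (ind A)).re) (h : ∀ n ∈ A, n + k ∈ B) :
    0 < (M.m (ind B)).re := by
  rw [← m_ind_shift M B k]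
  exact hA.trans_le (m_ind_mono M h)

lemma exists_large {A : Set ℤ} (hA : 0 < (M.m (ind A)).re) (D : ℤ) : ∃ n ∈ A, D ≤ n := by
  by_contra hcon
  push Not at hcon
  have := M.far D (ind A) (by
    intro n hn
    by_cases h : n ∈ A
    · exact absurd (hcon n h) (by omega)
    · exact ind_not_mem h)
  rw [this] at hA
  simp at hA

lemma m_ind_cover {A : Set ℤ} {ι : Type*} (t : Finset ι) (B : ι → Set ℤ) (h : ∀ n ∈ A, ∃ k ∈ t, n ∈ B k) :
    (M.m (ind A)).re ≤ ∑ k ∈ t, (M.m (ind (B k))).re := by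
  rw [← Complex.re_sum, ← map_sum]
  apply M.mono
  intro n
  rw [BoundedContinuousFunction.coe_sum, Finset.sum_apply, Complex.re_sum]
  by_cases hn : n ∈ A
  · obtain ⟨k, hk, hkn⟩ := h n hn
    have h3 : (ind (B k) n).re ≤ ∑ c ∈ t, (ind (B c) n).re :=
      Finset.single_le_sum (f := fun c => (ind (B c) n).re) (fun c _ => (isNN_ind (B c) n).2) hk
    refine le_trans ?_ h3
    rw [ind_mem hn, ind_mem hkn]
  · rw [ind_not_mem hn, Complex.zero_re]
    exact Finset.sum_nonneg (fun c _ => (isNN_ind (B c) n).2)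

/-- Dirichlet: bounded multiples enter a Bohr set -/
lemma exists_mul_Bohr (F : Finset Circle) (η : ℝ) (hη : 0 < η) :
    ∃ P : ℕ, ∀ k : ℤ, ∃ p : ℕ, 1 ≤ p ∧ p ≤ P ∧ (p : ℤ) * k ∈ Bohr F η := by
  classical
  obtain ⟨t, ht⟩ := Bohr_cover F (η / 2) (by linarith)
  refine ⟨t.card, ?_⟩
  intro k
  choose c hct hcB using ht
  have hcard : t.card < (Finset.range (t.card + 1)).card := by simp
  obtain ⟨i, hi, j, hj, hij, hc⟩ := Finset.exists_ne_map_eq_of_card_lt_of_maps_to hcard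
    (f := fun j : ℕ => c ((j : ℤ) * k)) (fun j _ => hct _)
  rw [Finset.mem_range] at hi hj
  have key : ∀ i j : ℕ, i < j → j < t.card + 1 → c ((i : ℤ) * k) = c ((j : ℤ) * k) →
      ∃ p : ℕ, 1 ≤ p ∧ p ≤ t.card ∧ (p : ℤ) * k ∈ Bohr F η := by
    intro i j hij hj hc
    refine ⟨j - i, by omega, by omega, ?_⟩
    have h1 := Bohr_sub (hcB ((j : ℤ) * k)) (hcB ((i : ℤ) * k))
    rw [hc, add_halves] at h1
    have h2 : (j : ℤ) * k - c ((j : ℤ) * k) - ((i : ℤ) * k - c ((j : ℤ) * k)) = ((j - i : ℕ) : ℤ) * k := by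
      rw [Nat.cast_sub hij.le]; ring
    rwa [h2] at h1
  rcases lt_or_gt_of_ne hij with h | h
  · exact key i j h hj hc
  · exact key j i h hi hc.symm

/-- return times as a set of integers -/
def Ret {Z : Type*} (S : Z → Z) (z : Z) (W : Set Z) : Set ℤ := {n | 0 ≤ n ∧ S^[n.toNat] z ∈ W}

lemma mem_Ret_nat {Z : Type*} {S : Z → Z} {z : Z} {W : Set Z} {n : ℕ} :
    (n : ℤ) ∈ Ret S z W ↔ S^[n] z ∈ W := by
  show (0 ≤ (n : ℤ) ∧ S^[((n : ℤ)).toNat] z ∈ W) ↔ _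
  simp

lemma Ret_mono {Z : Type*} {S : Z → Z} {z : Z} {W W' : Set Z} (h : W ⊆ W') :
    Ret S z W ⊆ Ret S z W' := fun _ hn => ⟨hn.1, h hn.2⟩

variable {Z : Type*} [TopologicalSpace Z]

lemma ret_cell {S : Z → Z} {z : Z} (hpos : ∀ W ∈ 𝓝 z, 0 < (M.m (ind (Ret S z W))).re)
    (F : Finset Circle) (η : ℝ) (hη : 0 < η) :
    ∃ k : ℤ, ∀ W ∈ 𝓝 z, 0 < (M.m (ind (Ret S z W ∩ {n | n - k ∈ Bohr F η}))).re := by
  classical
  obtain ⟨t, ht⟩ := Bohr_cover F η hη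
  by_contra hcon
  push Not at hcon
  choose W hW hneg using hcon
  set V : Set Z := ⋂ k ∈ t, W k with hV
  have hVn : V ∈ 𝓝 z := (Filter.biInter_finset_mem t).2 (fun k _ => hW k)
  have h1 := hpos V hVn
  have h2 := m_ind_cover M (A := Ret S z V) t (fun k => Ret S z (W k) ∩ {n | n - k ∈ Bohr F η}) (by
    intro n hn
    obtain ⟨k, hk, hkn⟩ := ht n
    refine ⟨k, hk, Ret_mono ?_ hn, hkn⟩
    exact Set.biInter_subset_of_mem (s := (t : Set ℤ)) (t := fun k => W k) hk)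
  have h3 : ∑ k ∈ t, (M.m (ind (Ret S z (W k) ∩ {n | n - k ∈ Bohr F η}))).re ≤ 0 :=
    Finset.sum_nonpos (fun k _ => hneg k)
  linarith

/-- returns in Bohr sets -/
theorem bohr_returns {S : Z → Z} (hS : Continuous S) {z : Z}
    (hpos : ∀ W ∈ 𝓝 z, 0 < (M.m (ind (Ret S z W))).re)
    (F : Finset Circle) (η : ℝ) (hη : 0 < η) (W : Set Z) (hW : W ∈ 𝓝 z) :
    0 < (M.m (ind (Ret S z W ∩ Bohr F η))).re := by
  obtain ⟨P, hP⟩ := exists_mul_Bohr F (η / 2) (by linarith)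
  set η₁ := η / (2 * (P + 1)) with hη₁
  have hη₁0 : 0 < η₁ := by positivity
  obtain ⟨k, hk⟩ := ret_cell M hpos F η₁ hη₁0
  obtain ⟨p, hp1, hpP, hpk⟩ := hP k
  have chain : ∀ j : ℕ, ∀ V : Set Z, IsOpen V → z ∈ V → ∃ n : ℕ, S^[n] z ∈ V ∧
      (n : ℤ) - j * k ∈ Bohr F ((j + 1) * η₁) := by
    intro j
    induction j with
    | zero =>
      intro V _ hzV
      refine ⟨0, hzV, ?_⟩
      simpa using Bohr_zero F hη₁0
    | succ j ih =>
      intro V hV hzV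
      obtain ⟨n, hn, hnB⟩ := ih V hV hzV
      have hV' : (S^[n]) ⁻¹' V ∈ 𝓝 z := (hS.iterate n).continuousAt (hV.mem_nhds hn)
      obtain ⟨q, hq, hq0⟩ := exists_large M (hk _ hV') 0
      obtain ⟨q, rfl⟩ := Int.eq_ofNat_of_zero_le hq0
      refine ⟨n + q, ?_, ?_⟩
      · rw [Function.iterate_add_apply]
        have := mem_Ret_nat.1 hq.1
        exact this
      · have h1 := Bohr_add hnB hq.2
        have h2 : (n : ℤ) - j * k + ((q : ℤ) - k) = ((n + q : ℕ) : ℤ) - ((j + 1 : ℕ) : ℤ) * k := by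
          push_cast; ring
        rw [h2] at h1
        have h3 : ((j : ℝ) + 1) * η₁ + η₁ = (((j + 1 : ℕ) : ℝ) + 1) * η₁ := by push_cast; ring
        rwa [h3] at h1
  obtain ⟨V, hVW, hVo, hzV⟩ := mem_nhds_iff.1 hW
  obtain ⟨n, hn, hnB⟩ := chain (p - 1) V hVo hzV
  have hV' : (S^[n]) ⁻¹' V ∈ 𝓝 z := (hS.iterate n).continuousAt (hVo.mem_nhds hn)
  refine m_pos_of_shift M (n : ℤ) (hk _ hV') ?_
  intro q hq
  have hq0 : 0 ≤ q := hq.1.1
  obtain ⟨q, rfl⟩ := Int.eq_ofNat_of_zero_le hq0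
  refine ⟨?_, ?_⟩
  · have : ((q : ℤ) + n) = ((n + q : ℕ) : ℤ) := by push_cast; ring
    rw [this, mem_Ret_nat, Function.iterate_add_apply]
    have h5 := mem_Ret_nat.1 hq.1
    exact hVW h5
  · have h1 := Bohr_add hpk (Bohr_add hnB hq.2)
    have h2 : (p : ℤ) * k + ((n : ℤ) - ((p - 1 : ℕ) : ℤ) * k + ((q : ℤ) - k)) = (q : ℤ) + n := by
      rw [Nat.cast_sub hp1]; push_cast; ring
    rw [h2] at h1
    refine Bohr_mono subset_rfl ?_ h1
    have h3 : (((p - 1 : ℕ) : ℝ) + 1) * η₁ + η₁ ≤ (P + 1) * η₁ := by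
      rw [Nat.cast_sub hp1]
      have : (p : ℝ) ≤ P := by exact_mod_cast hpP
      push_cast
      nlinarith
    have h4 : (P + 1) * η₁ = η / 2 := by rw [hη₁]; field_simp
    linarith

end Pool.Agent.W92_MP_94b3e1_an
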