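import Pool.Agent.W92_MP_94b3e1_an.Hilb

set_option autoImplicit false

open Filter Topology UniformSpace UniformSpace.Completion
open scoped ComplexConjugate InnerProductSpace

namespace Pool.Agent.W92_MP_94b3e1_an

variable (M : Mean)

/-- the correlation function `n ↦ ⟪T n f, g⟫` -/
noncomputable def cf (f g : H M) : BF :=
  bf (fun n => ⟪T M n f, g⟫_ℂ) (‖f‖ * ‖g‖) (by
    intro n
    refine (norm_inner_le_norm _ _).trans ?_
    rw [norm_T])

@[simp] lemma cf_apply (f g : H M) (n : ℤ) : cf M f g n = ⟪T M n f, g⟫_ℂ := rfl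

lemma norm_cf (f g : H M) : ‖cf M f g‖ ≤ ‖f‖ * ‖g‖ := by
  rw [BoundedContinuousFunction.norm_le (by positivity)]
  intro n
  rw [cf_apply]
  refine (norm_inner_le_norm _ _).trans ?_
  rw [norm_T]

/-- The operator `g ↦ [n ↦ ⟪T n f, g⟫]`. -/
noncomputable def Phi (f : H M) : H M →L[ℂ] H M :=
  LinearMap.mkContinuous
    { toFun := fun g => emb M (cf M f g)
      map_add' := by
        intro g h
        rw [← map_add]; congr 1
        ext n; simp [inner_add_right]
      map_smul' := by
        intro c g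
        rw [RingHom.id_apply, ← map_smul]; congr 1
        ext n; simp [inner_smul_right] } ‖f‖ (by
    intro g
    exact (norm_emb_le M _).trans (norm_cf M f g))

lemma Phi_apply (f g : H M) : Phi M f g = emb M (cf M f g) := rfl

lemma Phi_T (f g : H M) (k : ℤ) : Phi M f (T M k g) = T M (-k) (Phi M f g) := by
  rw [Phi_apply, Phi_apply, T_emb]; congr 1
  ext n
  simp only [cf_apply, sh_apply]
  rw [inner_T_right, T_add, show -k + n = n + -k by ring]

/-- Hilbert-Schmidt bound -/
lemma hs_bound (f : H M) (s : Finset (H M)) (hs : Orthonormal ℂ (fun v : s => (v : H M))) :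
    ∑ v ∈ s, ‖Phi M f v‖ ^ 2 ≤ ‖f‖ ^ 2 := by
  have h1 : ∑ v ∈ s, ‖Phi M f v‖ ^ 2 = (M.m (∑ v ∈ s, star (cf M f v) * cf M f v)).re := by
    rw [map_sum, Complex.re_sum]
    apply Finset.sum_congr rfl
    intro v _
    rw [Phi_apply, norm_emb_sq]
  rw [h1]
  have h2 : (‖M.m (∑ v ∈ s, star (cf M f v) * cf M f v)‖ : ℝ) ≤
      (M.m (((‖f‖^2 : ℝ) : ℂ) • (1 : BF))).re := by
    apply M.dom
    intro n
    have : (∑ v ∈ s, star (cf M f v) * cf M f v) n = ((∑ v ∈ s, ‖⟪T M n f, v⟫_ℂ‖ ^ 2 : ℝ) : ℂ) := by
      rw [BoundedContinuousFunction.coe_sum, Finset.sum_apply]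
      push_cast
      apply Finset.sum_congr rfl
      intro v _
      simp only [BoundedContinuousFunction.coe_mul, Pi.mul_apply,
        BoundedContinuousFunction.coe_star, Pi.star_apply, cf_apply]
      rw [← Complex.conj_mul']; rfl
    rw [this, Complex.norm_real, Real.norm_of_nonneg (by positivity)]
    have hb : ∑ v ∈ s, ‖⟪T M n f, v⟫_ℂ‖ ^ 2 ≤ ‖T M n f‖ ^ 2 := by
      have := hs.sum_inner_products_le (x := T M n f) (s := Finset.univ)
      rw [Finset.sum_coe_sort s (fun v => ‖⟪(v : H M), T M n f⟫_ℂ‖ ^ 2)] at this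
      refine le_trans (le_of_eq ?_) this
      apply Finset.sum_congr rfl
      intro v _
      rw [← inner_conj_symm, Complex.norm_conj]
    rw [norm_T] at hb
    refine hb.trans (le_of_eq ?_)
    rw [BoundedContinuousFunction.coe_smul]
    show _ = ((((‖f‖^2 : ℝ) : ℂ)) * 1).re
    rw [mul_one, Complex.ofReal_re]
  rw [map_smul, M.one] at h2
  refine (Complex.re_le_norm _).trans (h2.trans (le_of_eq ?_))
  rw [smul_eq_mul, mul_one, Complex.ofReal_re]

lemma Phi_compact (f : H M) : IsCompactOperator (Phi M f) := by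
  -- near maximal orthonormal families
  set S : Set ℝ := {x | ∃ s : Finset (H M), Orthonormal ℂ (fun v : s => (v : H M)) ∧
    x = ∑ v ∈ s, ‖Phi M f v‖ ^ 2} with hS
  have hne : S.Nonempty := ⟨0, ∅, ⟨fun v => absurd v.2 (Finset.notMem_empty _),
    fun v => absurd v.2 (Finset.notMem_empty _)⟩,
    by simp⟩
  have hbdd : BddAbove S := ⟨‖f‖ ^ 2, by
    rintro x ⟨s, hs, rfl⟩
    exact hs_bound M f s hs⟩
  have key : ∀ ε : ℝ, 0 < ε → ∃ A : H M →L[ℂ] H M, IsCompactOperator A ∧ ‖Phi M f - A‖ ≤ ε := by
    intro ε hε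
    obtain ⟨x, ⟨s, hs, rfl⟩, hx⟩ := exists_lt_of_lt_csSup hne
      (show sSup S - ε ^ 2 < sSup S by nlinarith [sq_nonneg ε, pow_pos hε 2])
    set V : Submodule ℂ (H M) := Submodule.span ℂ (s : Set (H M)) with hV
    have : FiniteDimensional ℂ V := FiniteDimensional.span_finset ℂ s
    -- small on the orthogonal complement
    have hsmall : ∀ u ∈ Vᗮ, ‖Phi M f u‖ ≤ ε * ‖u‖ := by
      have hunit : ∀ u ∈ Vᗮ, ‖u‖ = 1 → ‖Phi M f u‖ ≤ ε := by
        intro u hu hu1
        have hus : u ∉ s := by
          intro h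
          have h1 : u ∈ V := Submodule.subset_span h
          have h2 : ⟪u, u⟫_ℂ = 0 := Submodule.inner_right_of_mem_orthogonal h1 hu
          rw [inner_self_eq_norm_sq_to_K, hu1] at h2
          simp at h2
        classical
        have hort : Orthonormal ℂ (fun v : ((insert u s : Finset (H M))) => (v : H M)) := by
          constructor
          · rintro ⟨v, hv⟩
            rcases Finset.mem_insert.1 hv with h | h
            · subst h; exact hu1
            · exact hs.1 ⟨v, h⟩
          · rintro ⟨v, hv⟩ ⟨v', hv'⟩ hne'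
            have hne2 : v ≠ v' := fun h => hne' (Subtype.ext h)
            rcases Finset.mem_insert.1 hv with h | h <;> rcases Finset.mem_insert.1 hv' with h' | h'
            · exact absurd (h.trans h'.symm) hne2
            · subst h
              exact Submodule.inner_left_of_mem_orthogonal (Submodule.subset_span h') hu
            · subst h'
              exact Submodule.inner_right_of_mem_orthogonal (Submodule.subset_span h) hu
            · exact hs.2 (i := ⟨v, h⟩) (j := ⟨v', h'⟩) (fun e => hne2 (congrArg Subtype.val e))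
        have hle : ∑ v ∈ insert u s, ‖Phi M f v‖ ^ 2 ≤ sSup S :=
          le_csSup hbdd ⟨_, hort, rfl⟩
        rw [Finset.sum_insert hus] at hle
        have : ‖Phi M f u‖ ^ 2 ≤ ε ^ 2 := by linarith
        exact (abs_le_of_sq_le_sq' this hε.le).2
      intro u hu
      rcases eq_or_ne u 0 with h | h
      · subst h; simp
      · have hn : ‖u‖ ≠ 0 := norm_ne_zero_iff.2 h
        have h1 := hunit (((‖u‖⁻¹ : ℝ) : ℂ) • u) (Submodule.smul_mem _ _ hu) (by
          rw [norm_smul, Complex.norm_real, norm_inv, norm_norm, inv_mul_cancel₀ hn])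
        rw [map_smul, norm_smul, Complex.norm_real, norm_inv, norm_norm,
          inv_mul_le_iff₀ (by positivity)] at h1
        linarith
    refine ⟨Phi M f ∘L V.starProjection, ?_, ?_⟩
    · have h1 : IsCompactOperator (V.orthogonalProjectionOnto : H M →L[ℂ] V) :=
        isCompactOperator_of_locallyCompactSpace_dom _
      exact h1.clm_comp (Phi M f ∘L V.subtypeL)
    · apply ContinuousLinearMap.opNorm_le_bound _ hε.le
      intro x
      have h1 : (Phi M f - Phi M f ∘L V.starProjection) x
          = Phi M f (x - V.starProjection x) := by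
        simp
      rw [h1]
      refine (hsmall _ (Submodule.sub_starProjection_mem_orthogonal x)).trans ?_
      apply mul_le_mul_of_nonneg_left _ hε.le
      have h2 : x - V.starProjection x = Vᗮ.starProjection x := by
        rw [Submodule.starProjection_orthogonal]; simp
      rw [h2]
      exact Submodule.norm_starProjection_apply_le _ _
  have hcl : Phi M f ∈ closure {A : H M →L[ℂ] H M | IsCompactOperator A} := by
    rw [Metric.mem_closure_iff]
    intro ε hε
    obtain ⟨A, hA, hA2⟩ := key (ε / 2) (by positivity)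
    exact ⟨A, hA, by rw [dist_eq_norm]; linarith⟩
  rw [(isClosed_setOfPred_isCompactOperator (𝕜₁ := ℂ) (𝕜₂ := ℂ) (σ₁₂ := RingHom.id ℂ)
    (M₁ := H M) (M₂ := H M)).closure_eq] at hcl
  exact hcl

/-- `R = Φ† Φ` -/
noncomputable def Rop (f : H M) : H M →L[ℂ] H M := (Phi M f).adjoint ∘L Phi M f

lemma inner_Rop (f g h : H M) : ⟪g, Rop M f h⟫_ℂ = ⟪Phi M f g, Phi M f h⟫_ℂ := by
  rw [Rop, ContinuousLinearMap.comp_apply, ContinuousLinearMap.adjoint_inner_right]

lemma Rop_compact (f : H M) : IsCompactOperator (Rop M f) :=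
  (Phi_compact M f).clm_comp (Phi M f).adjoint

lemma Rop_symm (f : H M) : (Rop M f).IsSymmetric := by
  intro g h
  show ⟪Rop M f g, h⟫_ℂ = ⟪g, Rop M f h⟫_ℂ
  rw [inner_Rop, ← inner_conj_symm, inner_Rop, inner_conj_symm]

lemma Rop_T (f g : H M) (k : ℤ) : Rop M f (T M k g) = T M k (Rop M f g) := by
  apply ext_inner_left ℂ
  intro h
  rw [inner_Rop, Phi_T, inner_T_right, neg_neg]
  have : T M k (Phi M f h) = Phi M f (T M (-k) h) := by rw [Phi_T, neg_neg]
  rw [this, ← inner_Rop, inner_T_left, neg_neg]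

lemma T_Cc (k : ℤ) {x : H M} (hx : x ∈ Cc M) : T M k x ∈ Cc M := by
  unfold Cc at hx ⊢
  rw [← SetLike.mem_coe, Submodule.topologicalClosure_coe] at hx ⊢
  refine map_mem_closure (T M k).continuous hx ?_
  intro y hy
  induction hy using Submodule.span_induction with
  | mem y hy =>
    obtain ⟨θ, rfl⟩ := hy
    show T M k (emb M (ch θ)) ∈ _
    rw [T_emb, sh_ch, map_smul]
    exact Submodule.smul_mem _ _ (Submodule.subset_span ⟨θ, rfl⟩)
  | zero => simp
  | add a b _ _ ha hb => rw [map_add]; exact Submodule.add_mem _ ha hb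
  | smul c a _ ha => rw [map_smul]; exact Submodule.smul_mem _ _ ha

/-- the closed subspace of the vectors mapped into the span of the characters -/
noncomputable def Dd (f : H M) : Submodule ℂ (H M) := (Cc M).comap (Phi M f).toLinearMap

lemma mem_Dd {f g : H M} : g ∈ Dd M f ↔ Phi M f g ∈ Cc M := Iff.rfl

lemma isClosed_Dd (f : H M) : IsClosed (Dd M f : Set (H M)) := by
  have h : IsClosed (Cc M : Set (H M)) := Submodule.isClosed_topologicalClosure _
  exact h.preimage (Phi M f).continuous

lemma T_pow_eig {v : H M} {c : ℂ} (h : T M 1 v = c • v) (n : ℕ) : T M n v = c ^ n • v := by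
  induction n with
  | zero => simp [T_zero]
  | succ n ih =>
    have : T M ((n + 1 : ℕ) : ℤ) v = T M 1 (T M n v) := by rw [T_add]; congr 2; push_cast; ring
    rw [this, ih, map_smul, h, smul_smul, pow_succ]

lemma eig_mem_Dd (f : H M) {v : H M} {c : ℂ} (h : T M 1 v = c • v) : v ∈ Dd M f := by
  rcases eq_or_ne v 0 with h0 | h0
  · subst h0; exact Submodule.zero_mem _
  have hc : ‖c‖ = 1 := by
    have := norm_T M 1 v
    rw [h, norm_smul] at this
    have hv : ‖v‖ ≠ 0 := norm_ne_zero_iff.2 h0
    field_simp at this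
    exact this
  have hc0 : c ≠ 0 := by rw [← norm_ne_zero_iff, hc]; norm_num
  have hz : ∀ n : ℤ, T M n v = c ^ n • v := by
    intro n
    rcases Int.eq_nat_or_neg n with ⟨k, hk | hk⟩
    · rw [hk, T_pow_eig M h, zpow_natCast]
    · rw [hk]
      have h1 := T_pow_eig M h k
      have h2 : T M (-(k:ℤ)) (T M k v) = v := by rw [T_add]; simp [T_zero]
      rw [h1, map_smul] at h2
      rw [zpow_neg, zpow_natCast]
      have h3 : (c ^ k)⁻¹ • (c ^ k • T M (-(k:ℤ)) v) = T M (-(k:ℤ)) v := by
        rw [smul_smul, inv_mul_cancel₀ (pow_ne_zero _ hc0), one_smul]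
      rw [← h3, h2]
  obtain ⟨θ, hθ⟩ : ∃ θ : Circle, (θ : ℂ) = c := ⟨⟨c, mem_sphere_zero_iff_norm.2 hc⟩, rfl⟩
  rw [mem_Dd, Phi_apply]
  have : cf M f v = ⟪f, v⟫_ℂ • ch θ⁻¹ := by
    ext n
    rw [cf_apply, inner_T_left, hz, inner_smul_right]
    show _ = ⟪f, v⟫_ℂ * (((θ⁻¹ : Circle) : ℂ)) ^ n
    rw [Circle.coe_inv, hθ, zpow_neg, inv_zpow, mul_comm]
  rw [this, map_smul]
  refine Submodule.smul_mem _ _ ?_
  exact Submodule.le_topologicalClosure _ (Submodule.subset_span ⟨θ⁻¹, rfl⟩)

lemma T_mem_Dd (f : H M) (k : ℤ) {g : H M} (h : g ∈ Dd M f) : T M k g ∈ Dd M f := by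
  rw [mem_Dd] at h ⊢
  rw [Phi_T]; exact T_Cc M _ h

/-- **Correlation functions lie in the closed span of the characters.** -/
theorem Phi_mem (f g : H M) : Phi M f g ∈ Cc M := by
  rw [← mem_Dd]
  have heig : ∀ μ : ℂ, Module.End.eigenspace (Rop M f).toLinearMap μ ≤ Dd M f := by
    intro μ
    rcases eq_or_ne μ 0 with h0 | h0
    · intro x hx
      rw [Module.End.mem_eigenspace_iff, h0, zero_smul] at hx
      have h1 : ⟪x, Rop M f x⟫_ℂ = 0 := by
        have : Rop M f x = 0 := hx
        rw [this, inner_zero_right]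
      rw [inner_Rop, inner_self_eq_zero] at h1
      rw [mem_Dd, h1]; exact Submodule.zero_mem _
    · set E := Module.End.eigenspace (Rop M f).toLinearMap μ with hE
      have hfd : FiniteDimensional ℂ E :=
        ContinuousLinearMap.finite_dimensional_eigenspace (Rop_compact M f) μ h0
      have hTE : ∀ k : ℤ, ∀ x ∈ E, T M k x ∈ E := by
        intro k x hx
        rw [hE, Module.End.mem_eigenspace_iff] at hx ⊢
        show Rop M f (T M k x) = μ • T M k x
        have hx' : Rop M f x = μ • x := hx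
        rw [Rop_T, hx', map_smul]
      set K₁ := E ⊓ Dd M f with hK₁
      have hK1fd : FiniteDimensional ℂ K₁ := Submodule.finiteDimensional_inf_left _ _
      have hTK : ∀ k : ℤ, ∀ x ∈ K₁, T M k x ∈ K₁ := fun k x hx =>
        ⟨hTE k x hx.1, T_mem_Dd M f k hx.2⟩
      have hbot : K₁ᗮ ⊓ E = ⊥ := by
        by_contra hne
        set F := K₁ᗮ ⊓ E with hF
        have hFfd : FiniteDimensional ℂ F := Submodule.finiteDimensional_inf_right _ _
        have hnt : Nontrivial F := (Submodule.nontrivial_iff_ne_bot).2 hne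
        have hTF : ∀ x ∈ F, (T M 1).toLinearMap x ∈ F := by
          intro x hx
          refine Submodule.mem_inf.2 ⟨?_, hTE 1 x hx.2⟩
          rw [Submodule.mem_orthogonal]
          intro y hy
          show ⟪y, T M 1 x⟫_ℂ = 0
          rw [inner_T_right]
          exact Submodule.inner_right_of_mem_orthogonal (hTK (-1) y hy) hx.1
        obtain ⟨c, hc⟩ := Module.End.exists_eigenvalue ((T M 1).toLinearMap.restrict hTF)
        obtain ⟨v, hv⟩ := hc.exists_hasEigenvector
        have hv1 : T M 1 (v : H M) = c • (v : H M) := by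
          have := hv.apply_eq_smul
          exact congrArg Subtype.val this
        have hvD := eig_mem_Dd M f hv1
        have hvE : (v : H M) ∈ E := v.2.2
        have h5 : ⟪(v : H M), (v : H M)⟫_ℂ = 0 :=
          Submodule.inner_right_of_mem_orthogonal (K := K₁) ⟨hvE, hvD⟩ v.2.1
        rw [inner_self_eq_zero] at h5
        exact hv.2 (Subtype.ext h5)
      have := Submodule.sup_orthogonal_inf_of_hasOrthogonalProjection
        (show K₁ ≤ E from inf_le_left)
      rw [hbot, sup_bot_eq] at this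
      rw [← this]; exact inf_le_right
  have h1 := ContinuousLinearMap.orthogonalComplement_iSup_eigenspaces_eq_bot
    (Rop_compact M f) (Rop_symm M f)
  have h2 : (Dd M f)ᗮ = ⊥ := by
    rw [eq_bot_iff, ← h1]
    apply Submodule.orthogonal_le
    exact iSup_le heig
  have hcl : IsClosed (Dd M f : Set (H M)) := isClosed_Dd M f
  have : CompleteSpace (Dd M f) := hcl.completeSpace_coe
  have h3 : Dd M f = ⊤ := (Submodule.orthogonal_eq_bot_iff).1 h2
  rw [h3]; exact Submodule.mem_top

end Pool.Agent.W92_MP_94b3e1_an
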