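import Pool.Agent.W92_MP_94b3e1_an.Ret
import Pool.Agent.W92_MP_94b3e1_an.Dyn

set_option autoImplicit false

open Filter Topology
open scoped ComplexConjugate InnerProductSpace

namespace Pool.Agent.W92_MP_94b3e1_an

variable (M : Mean)

lemma Mean.re_le_far (f : BF) (C : ℝ) (D : ℤ) (h : ∀ n, D ≤ n → (f n).re ≤ C) :
    (M.m f).re ≤ C := by
  set g : BF := f * ind {n | D ≤ n} + ((C : ℝ) : ℂ) • ind {n | n < D} with hg
  have h1 : M.m (f - g) = 0 := by
    apply M.far D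
    intro n hn
    show f n - (f n * ind {n | D ≤ n} n + (C : ℂ) * ind {n | n < D} n) = 0
    rw [ind_mem (show n ∈ {n | D ≤ n} from hn), ind_not_mem (show n ∉ {n | n < D} from fun h => by
      have : n < D := h
      omega)]
    ring
  rw [map_sub, sub_eq_zero] at h1
  rw [h1]
  apply M.re_le_const
  intro n
  show (f n * ind {n | D ≤ n} n + (C : ℂ) * ind {n | n < D} n).re ≤ C
  by_cases hn : D ≤ n
  · rw [ind_mem (show n ∈ {n | D ≤ n} from hn), ind_not_mem (show n ∉ {n | n < D} from fun h => by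
      have : n < D := h
      omega)]
    rw [mul_one, mul_zero, add_zero]
    exact h n hn
  · rw [ind_not_mem (show n ∉ {n | D ≤ n} from hn), ind_mem (show n ∈ {n | n < D} from by
      show n < D
      omega)]
    simp

lemma Mean.mono_far (f g : BF) (D : ℤ) (h : ∀ n, D ≤ n → (f n).re ≤ (g n).re) :
    (M.m f).re ≤ (M.m g).re := by
  have := M.re_le_far (f - g) 0 D (by
    intro n hn
    show (f n - g n).re ≤ 0
    rw [Complex.sub_re]
    linarith [h n hn])
  rw [map_sub, Complex.sub_re] at this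
  linarith

lemma exists_window (φ : BF) (c : ℝ) (hc : c < (M.m φ).re) (N : ℕ) :
    ∃ w : ℕ, c * N ≤ ∑ i ∈ Finset.range N, (φ ((w : ℤ) + i)).re := by
  by_contra hcon
  push Not at hcon
  have hN : 0 < (N : ℝ) := by
    rcases Nat.eq_zero_or_pos N with h | h
    · subst h
      have := hcon 0
      simp at this
    · exact_mod_cast h
  set ψ : BF := ∑ i ∈ Finset.range N, sh (i : ℤ) φ with hψ
  have h1 : (M.m ψ).re = N * (M.m φ).re := by
    rw [hψ, map_sum, Complex.re_sum]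
    simp only [M.shift, Finset.sum_const, Finset.card_range, nsmul_eq_mul]
  have h2 : (M.m ψ).re ≤ c * N := by
    apply M.re_le_far ψ _ 0
    intro n hn
    obtain ⟨n, rfl⟩ := Int.eq_ofNat_of_zero_le hn
    rw [hψ, BoundedContinuousFunction.coe_sum, Finset.sum_apply, Complex.re_sum]
    exact (hcon n).le
  rw [h1] at h2
  nlinarith

set_option maxHeartbeats 1000000 in
/-- the stage of the construction -/
theorem stage {Z Y : Type*} [TopologicalSpace Z] [TopologicalSpace Y] {S : Z → Z} {R : Y → Y}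
    (hS : Continuous S) (hR : Continuous R) {z : Z} {y : Y}
    (hz : ∀ W ∈ 𝓝 z, 0 < (M.m (ind (Ret S z W))).re)
    (hy : ∀ W ∈ 𝓝 y, 0 < (M.m (ind (Ret R y W))).re)
    (a b₀ : ℕ) (G₁ : Set Z) (hG₁ : IsOpen G₁) (ha : S^[a] z ∈ G₁)
    (G₂ : Set Y) (hG₂ : IsOpen G₂) (hb : R^[b₀] y ∈ G₂)
    (U : Set Z) (V : Set Y) (hV : IsOpen V) (δ : ℝ)
    (hδ : δ < hh M (ind (Ret S z U)) (ind (Ret R y V)) ((a : ℤ) - b₀))
    (Fb : Finset Circle) (ηb : ℝ) (hηb : 0 < ηb) (N : ℕ) :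
    ∃ a' b' : ℕ, S^[a'] z ∈ G₁ ∧ R^[b'] y ∈ G₂ ∧
      ((a' : ℤ) - b') - ((a : ℤ) - b₀) ∈ Bohr Fb ηb ∧
      ∃ p : ℕ, δ * N ≤ cnt (Prod.map S R) (S^[a'] z, R^[b'] y) (U ×ˢ V) p N := by
  classical
  rcases Nat.eq_zero_or_pos N with hN0 | hNpos
  · subst hN0
    refine ⟨a, b₀, ha, hb, ?_, 0, by simp⟩
    rw [sub_self]; exact Bohr_zero Fb hηb
  set A := Ret S z U with hA
  set B := Ret R y V with hB
  set f := ind A with hf
  set g := ind B with hg
  set Hv := hh M f g ((a : ℤ) - b₀) with hHv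
  set ε := (Hv - δ) / 6 with hε
  have hε0 : 0 < ε := by rw [hε]; linarith
  obtain ⟨F₁, η₁, hη₁, hcont⟩ := hh_cont M f g ε hε0
  set F₂ := Fb ∪ F₁ with hF₂
  set η₂ := min ηb η₁ / 2 with hη₂
  have hη₂0 : 0 < η₂ := by rw [hη₂]; have := lt_min hηb hη₁; linarith
  set S₀ : Set ℤ := Ret S z G₁ ∩ {u | u - a ∈ Bohr F₂ η₂} with hS₀
  have hS₀pos : 0 < (M.m (ind S₀)).re := by
    have hW : (S^[a]) ⁻¹' G₁ ∈ 𝓝 z := (hS.iterate a).continuousAt (hG₁.mem_nhds ha)
    refine m_pos_of_shift M (a : ℤ) (bohr_returns M hS hz F₂ η₂ hη₂0 _ hW) ?_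
    intro n hn
    obtain ⟨n, rfl⟩ := Int.eq_ofNat_of_zero_le hn.1.1
    refine ⟨?_, ?_⟩
    · have : ((n : ℤ) + a) = ((a + n : ℕ) : ℤ) := by push_cast; ring
      rw [this, mem_Ret_nat, Function.iterate_add_apply]
      have h5 := mem_Ret_nat.1 hn.1
      exact h5
    · show (n : ℤ) + a - a ∈ Bohr F₂ η₂
      rw [add_sub_cancel_right]
      exact hn.2
  set σ := (M.m (ind S₀)).re with hσ
  set s₀ := ind S₀ with hs₀
  have hσ1 : σ ≤ 1 := by
    apply M.re_le_const
    intro n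
    refine (Complex.re_le_norm _).trans ((s₀.norm_coe_le_norm n).trans (norm_ind_le _))
  have hsq1 : Real.sqrt σ ≤ 1 := by rw [Real.sqrt_le_one]; exact hσ1
  have hsq0 : 0 < Real.sqrt σ := Real.sqrt_pos.2 hS₀pos
  have hsq : Real.sqrt σ * Real.sqrt σ = σ := Real.mul_self_sqrt hS₀pos.le
  obtain ⟨F₃, c, hc⟩ := exists_tp M _ (pr_mem M (emb M f)) (ε * Real.sqrt σ) (by positivity)
  set Cs := ∑ θ ∈ F₃, ‖c θ‖ with hCs
  have hCs0 : 0 ≤ Cs := by positivity
  set η₃ := ε * σ / (Cs + 1) with hη₃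
  have hη₃0 : 0 < η₃ := by positivity
  have hη₃C : η₃ * Cs ≤ ε * σ := by
    rw [hη₃, div_mul_eq_mul_div, div_le_iff₀ (by positivity)]
    nlinarith [mul_pos hε0 hS₀pos]
  -- the trigonometric polynomials
  set q : BF := tp F₃ (fun θ => c θ * (θ : ℂ) ^ (-(b₀ : ℤ)) * M.m (s₀ * ch θ)) with hq
  set q' : BF := tp F₃ (fun θ => c θ * (θ : ℂ) ^ (-(b₀ : ℤ)) * M.m (g * ch θ)) with hq'
  have hqv : ∀ n : ℤ, q n = M.m (s₀ * sh (n - b₀) (tp F₃ c)) := by
    intro n
    have : sh (n - b₀) (tp F₃ c) = ∑ θ ∈ F₃, c θ • sh (n - b₀) (ch θ) := by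
      ext k
      simp [tp, BoundedContinuousFunction.coe_sum, Finset.sum_apply]
    rw [this, Finset.mul_sum, map_sum, hq, tp_apply]
    apply Finset.sum_congr rfl
    intro θ _
    rw [sh_ch, mul_smul_comm, mul_smul_comm, map_smul, map_smul, smul_eq_mul, smul_eq_mul,
      sub_eq_add_neg, zpow_add₀ (Circle.coe_ne_zero θ)]
    ring
  have hswap : M.m (g * q) = M.m (s₀ * q') := by
    rw [hq, hq', tp, tp, Finset.mul_sum, Finset.mul_sum, map_sum, map_sum]
    apply Finset.sum_congr rfl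
    intro θ _
    rw [mul_smul_comm, mul_smul_comm, map_smul, map_smul, smul_eq_mul, smul_eq_mul]
    ring
  have hq'v : ∀ u : ℤ, q' u = ⟪emb M g, T M (u - b₀) (emb M (tp F₃ c))⟫_ℂ := by
    intro u
    rw [inner_T_tp, hq', tp_apply]
    apply Finset.sum_congr rfl
    intro θ _
    rw [inner_emb, (isNN_ind B).star_eq, sub_eq_add_neg, zpow_add₀ (Circle.coe_ne_zero θ), hg]
    ring
  have hgn : ‖emb M g‖ ≤ 1 := (norm_emb_le M _).trans (norm_ind_le B)
  have hq'low : ∀ u ∈ S₀, Hv - 2 * ε ≤ (q' u).re := by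
    intro u hu
    rw [hq'v]
    have h1 := hh_approx M f g F₃ c _ hc.le (u - b₀)
    have h2 : u - a ∈ Bohr F₁ η₁ := by
      refine Bohr_mono (Finset.subset_union_right) ?_ hu.2
      rw [hη₂]; have := min_le_right ηb η₁; linarith
    have h3 := hcont _ h2 ((a : ℤ) - b₀)
    have h4 : (a : ℤ) - b₀ + (u - a) = u - b₀ := by ring
    rw [h4, ← hHv] at h3
    have h5 : ‖emb M g‖ * (ε * Real.sqrt σ) ≤ ε := by
      have : ε * Real.sqrt σ ≤ ε := by nlinarith
      nlinarith [norm_nonneg (emb M g), mul_pos hε0 hsq0]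
    have h6 := (abs_le.1 h1).2
    have h7 := (abs_le.1 h3).1
    linarith
  have hmean : σ * (Hv - 2 * ε) ≤ (M.m (g * q)).re := by
    rw [hswap]
    have h1 : (M.m (((Hv - 2 * ε : ℝ) : ℂ) • s₀)).re ≤ (M.m (s₀ * q')).re := by
      apply M.mono
      intro u
      show (((Hv - 2 * ε : ℝ) : ℂ) * s₀ u).re ≤ (s₀ u * q' u).re
      by_cases hu : u ∈ S₀
      · rw [hs₀, ind_mem hu, mul_one, one_mul, Complex.ofReal_re]
        exact hq'low u hu
      · rw [hs₀, ind_not_mem hu]; simp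
    rw [map_smul, smul_eq_mul, Complex.re_ofReal_mul] at h1
    linarith
  obtain ⟨w, hw⟩ := exists_window M (g * q) (σ * (Hv - 3 * ε)) (by
    have : σ * (Hv - 3 * ε) < σ * (Hv - 2 * ε) := by
      apply mul_lt_mul_of_pos_left _ hS₀pos
      linarith
    linarith) N
  set I := (Finset.range N).filter (fun i : ℕ => ((w : ℤ) + i) ∈ B) with hI
  have hsumI : ∑ i ∈ Finset.range N, ((g * q) ((w : ℤ) + i)).re = ∑ i ∈ I, (q ((w : ℤ) + i)).re := by
    rw [hI, Finset.sum_filter]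
    apply Finset.sum_congr rfl
    intro i _
    show (g ((w : ℤ) + i) * q ((w : ℤ) + i)).re = _
    by_cases h : ((w : ℤ) + i) ∈ B
    · rw [hg, ind_mem h, one_mul, if_pos h]
    · rw [hg, ind_not_mem h, if_neg h]; simp
  rw [hsumI] at hw
  -- the neighbourhood of y
  set W : Set Y := (R^[b₀]) ⁻¹' G₂ ∩ ⋂ i ∈ I, (R^[w + i]) ⁻¹' V with hW
  have hWn : W ∈ 𝓝 y := by
    apply Filter.inter_mem
    · exact (hR.iterate b₀).continuousAt (hG₂.mem_nhds hb)
    · rw [Filter.biInter_finset_mem]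
      intro i hi
      rw [hI, Finset.mem_filter] at hi
      have h1 : ((w + i : ℕ) : ℤ) ∈ B := by push_cast; exact hi.2
      exact (hR.iterate (w + i)).continuousAt (hV.mem_nhds (mem_Ret_nat.1 h1))
  set B₀ := Ret R y W ∩ Bohr (F₂ ∪ F₃) (min η₂ (η₃ / 2)) with hB₀
  have hB₀pos : 0 < (M.m (ind B₀)).re :=
    bohr_returns M hR hy _ _ (lt_min hη₂0 (by positivity)) _ hWn
  set r := rr M B₀ with hr
  set ρ := (M.m r).re with hρ
  have hρ0 : 0 < ρ := lt_of_lt_of_le (by positivity) (m_rr_ge M B₀)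
  have hsupp : SuppIn r F₃ η₃ := by
    apply SuppIn_rr
    intro n hn
    exact Bohr_mono Finset.subset_union_right (min_le_right _ _) hn.2
  have hrNN : IsNN r := isNN_rr M B₀
  have hs₀NN : IsNN s₀ := isNN_ind S₀
  have hs₀norm : ‖emb M s₀‖ = Real.sqrt σ := by
    have h1 := norm_emb_sq M s₀
    have h2 : star s₀ * s₀ = s₀ := by
      rw [hs₀NN.star_eq]
      ext n
      show s₀ n * s₀ n = s₀ n
      by_cases h : n ∈ S₀
      · rw [hs₀, ind_mem h, one_mul]
      · rw [hs₀, ind_not_mem h, zero_mul]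
    rw [h2, ← hσ] at h1
    rw [← h1, Real.sqrt_sq (norm_nonneg _)]
  have hlow : ∀ i ∈ I, ρ * (q ((w : ℤ) + i)).re - 2 * ε * ρ * σ ≤
      (M.m (s₀ * sh ((w : ℤ) + i - b₀) (G M f r))).re := by
    intro i _
    have h1 := key_estimate M s₀ f r hrNN (emb_rr_mem M B₀) ((w : ℤ) + i - b₀) F₃ c η₃ hη₃0.le hsupp
    rw [hs₀NN.star_eq, ← hqv, hs₀norm] at h1
    have h2 : (M.m r).re * (Real.sqrt σ * ‖pr M (emb M f) - emb M (tp F₃ c)‖
        + ‖s₀‖ * (η₃ * ∑ θ ∈ F₃, ‖c θ‖)) ≤ ρ * (2 * ε * σ) := by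
      rw [← hρ, ← hCs]
      apply mul_le_mul_of_nonneg_left _ hρ0.le
      have h3 : Real.sqrt σ * ‖pr M (emb M f) - emb M (tp F₃ c)‖ ≤ ε * σ := by
        calc Real.sqrt σ * ‖pr M (emb M f) - emb M (tp F₃ c)‖
            ≤ Real.sqrt σ * (ε * Real.sqrt σ) := mul_le_mul_of_nonneg_left hc.le hsq0.le
          _ = ε * (Real.sqrt σ * Real.sqrt σ) := by ring
          _ = ε * σ := by rw [hsq]
      have h4 : ‖s₀‖ * (η₃ * Cs) ≤ ε * σ := by
        have := norm_ind_le S₀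
        rw [← hs₀] at this
        have h5 : 0 ≤ η₃ * Cs := by positivity
        nlinarith [norm_nonneg s₀]
      linarith
    have h3 := (abs_le.1 ((Complex.abs_re_le_norm _).trans (h1.trans h2))).1
    rw [Complex.sub_re, hrNN.m_eq M, Complex.re_ofReal_mul, ← hρ] at h3
    linarith
  have hsumlow : N * (ρ * σ * (δ + ε)) ≤
      ∑ i ∈ I, (M.m (s₀ * sh ((w : ℤ) + i - b₀) (G M f r))).re := by
    refine le_trans ?_ (Finset.sum_le_sum hlow)
    rw [Finset.sum_sub_distrib, ← Finset.mul_sum, Finset.sum_const, nsmul_eq_mul]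
    have hcard : (I.card : ℝ) ≤ N := by
      have : I.card ≤ N := (Finset.card_filter_le _ _).trans (by simp)
      exact_mod_cast this
    have h1 : ρ * (σ * (Hv - 3 * ε) * N) ≤ ρ * ∑ i ∈ I, (q ((w : ℤ) + i)).re :=
      mul_le_mul_of_nonneg_left hw hρ0.le
    have h2 : (I.card : ℝ) * (2 * ε * ρ * σ) ≤ N * (2 * ε * ρ * σ) :=
      mul_le_mul_of_nonneg_right hcard (by positivity)
    have h3 : Hv = δ + 6 * ε := by rw [hε]; ring
    have h4 : ρ * (σ * (Hv - 3 * ε) * N) = N * (ρ * σ * (δ + 3 * ε)) := by rw [h3]; ring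
    have h5 : (N : ℝ) * (ρ * σ * (δ + 3 * ε)) - N * (2 * ε * ρ * σ) = N * (ρ * σ * (δ + ε)) := by ring
    linarith
  -- find the good pair
  obtain ⟨u, hu, d, hd, hrd, hcount⟩ : ∃ u ∈ S₀, ∃ d : ℤ, (b₀ : ℤ) ≤ d ∧ r d ≠ 0 ∧
      δ * N ≤ ((I.filter (fun i : ℕ => d + (u + ((w : ℤ) + i - b₀)) ∈ A)).card : ℝ) := by
    by_contra hcon
    push Not at hcon
    have h1 : ∑ i ∈ I, (M.m (s₀ * sh ((w : ℤ) + i - b₀) (G M f r))).re
        ≤ (M.m (((δ * N * ρ : ℝ) : ℂ) • s₀)).re := by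
      rw [← Complex.re_sum, ← map_sum]
      apply M.mono
      intro u
      rw [BoundedContinuousFunction.coe_sum, Finset.sum_apply, Complex.re_sum]
      show ∑ i ∈ I, (s₀ u * G M f r (u + ((w : ℤ) + i - b₀))).re ≤ (((δ * N * ρ : ℝ) : ℂ) * s₀ u).re
      by_cases hu : u ∈ S₀
      · rw [hs₀, ind_mem hu]
        simp only [one_mul, mul_one, Complex.ofReal_re]
        have h2 : ∀ i ∈ I, (G M f r (u + ((w : ℤ) + i - b₀))).re
            = (M.m (sh (u + ((w : ℤ) + i - b₀)) f * r)).re := by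
          intro i _
          rw [G_apply, ← M.shift (u + ((w : ℤ) + i - b₀))]
          congr 2
          ext d
          show f (d + (u + ((w : ℤ) + i - b₀))) * r (d + (u + ((w : ℤ) + i - b₀)) + -(u + ((w : ℤ) + i - b₀)))
            = f (d + (u + ((w : ℤ) + i - b₀))) * r d
          rw [add_neg_cancel_right]
        rw [Finset.sum_congr rfl h2, ← Complex.re_sum, ← map_sum, ← Finset.sum_mul]
        have h3 : (M.m ((∑ i ∈ I, sh (u + ((w : ℤ) + i - b₀)) f) * r)).re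
            ≤ (M.m (((δ * N : ℝ) : ℂ) • r)).re := by
          apply M.mono_far _ _ (b₀ : ℤ)
          intro d hd
          show ((∑ i ∈ I, sh (u + ((w : ℤ) + i - b₀)) f) d * r d).re ≤ (((δ * N : ℝ) : ℂ) * r d).re
          by_cases hrd : r d = 0
          · rw [hrd]; simp
          · have h4 := hcon u hu d hd hrd
            have h5 : (∑ i ∈ I, sh (u + ((w : ℤ) + i - b₀)) f) d
                = (((I.filter (fun i : ℕ => d + (u + ((w : ℤ) + i - b₀)) ∈ A)).card : ℝ) : ℂ) := by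
              rw [BoundedContinuousFunction.coe_sum, Finset.sum_apply, Finset.card_filter]
              push_cast
              apply Finset.sum_congr rfl
              intro i _
              rw [sh_apply]
              by_cases h : d + (u + ((w : ℤ) + i - b₀)) ∈ A
              · rw [hf, ind_mem h, if_pos h]; simp
              · rw [hf, ind_not_mem h, if_neg h]; simp
            rw [h5, Complex.re_ofReal_mul, Complex.re_ofReal_mul]
            exact mul_le_mul_of_nonneg_right h4.le (hrNN d).2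
        rw [map_smul, smul_eq_mul, Complex.re_ofReal_mul, ← hρ] at h3
        exact h3
      · rw [hs₀, ind_not_mem hu]; simp
    rw [map_smul, smul_eq_mul, Complex.re_ofReal_mul, ← hσ] at h1
    have h2 : (N : ℝ) * (ρ * σ * (δ + ε)) = δ * N * ρ * σ + N * (ρ * σ * ε) := by ring
    have h3 : 0 < (N : ℝ) * (ρ * σ * ε) := by
      have : 0 < (N : ℝ) := by exact_mod_cast hNpos
      positivity
    linarith
  obtain ⟨t, ht, htd⟩ := rr_ne_zero M hrd
  obtain ⟨u, rfl⟩ := Int.eq_ofNat_of_zero_le hu.1.1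
  obtain ⟨t, rfl⟩ := Int.eq_ofNat_of_zero_le ht.1.1
  obtain ⟨d', hd'⟩ := Int.eq_ofNat_of_zero_le (sub_nonneg.2 hd)
  have hd2 : d = ((d' + b₀ : ℕ) : ℤ) := by push_cast; linarith
  subst hd2
  have htW := mem_Ret_nat.1 ht.1
  have htd' : ((t + (d' + b₀) : ℕ) : ℤ) ∈ Ret R y W := by
    have := htd.1
    push_cast at this ⊢
    exact this
  have htdW := mem_Ret_nat.1 htd'
  refine ⟨u, b₀ + t, mem_Ret_nat.1 hu.1, ?_, ?_, d' + w, ?_⟩
  · rw [Function.iterate_add_apply]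
    exact htW.1
  · have h1 : (u : ℤ) - a ∈ Bohr Fb η₂ := Bohr_mono Finset.subset_union_left le_rfl hu.2
    have h2 : (t : ℤ) ∈ Bohr Fb η₂ :=
      Bohr_mono (Finset.subset_union_left.trans Finset.subset_union_left) (min_le_left _ _) ht.2
    have h3 := Bohr_sub h1 h2
    have h4 : (u : ℤ) - a - t = (u : ℤ) - ((b₀ + t : ℕ) : ℤ) - (a - b₀) := by push_cast; ring
    rw [h4] at h3
    refine Bohr_mono subset_rfl ?_ h3
    rw [hη₂]; have := min_le_left ηb η₁; linarith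
  · refine hcount.trans (Nat.cast_le.2 (le_cnt _ _ _ _ _ _ ?_))
    intro i hi
    rw [Finset.mem_filter] at hi
    obtain ⟨hiI, hiA⟩ := hi
    rw [hI, Finset.mem_filter] at hiI
    refine ⟨Finset.mem_range.1 hiI.1, ?_⟩
    rw [Prod.map_iterate]
    constructor
    · show S^[d' + w + i] (S^[u] z) ∈ U
      rw [← Function.iterate_add_apply]
      have h1 : ((d' + w + i + u : ℕ) : ℤ) ∈ A := by
        have h2 : ((d' + w + i + u : ℕ) : ℤ) = ((d' + b₀ : ℕ) : ℤ) + ((u : ℤ) + ((w : ℤ) + i - b₀)) := by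
          push_cast; ring
        rw [h2]; exact hiA
      exact mem_Ret_nat.1 h1
    · show R^[d' + w + i] (R^[b₀ + t] y) ∈ V
      rw [← Function.iterate_add_apply]
      have h2 : d' + w + i + (b₀ + t) = (w + i) + (t + (d' + b₀)) := by ring
      rw [h2, Function.iterate_add_apply]
      have h3 := htdW.2
      rw [Set.mem_iInter₂] at h3
      exact h3 i (by rw [hI, Finset.mem_filter]; exact hiI)

end Pool.Agent.W92_MP_94b3e1_an
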